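import Mathlib

/-! Laurent polynomials with real coefficients and their `ℓ^r` sums. -/

namespace Pool.Agent.H667R2.HK

open LaurentPolynomial

/-- real Laurent polynomials -/
abbrev R := LaurentPolynomial ℝ

/-- the sum of the `r`-th powers of the coefficients -/
noncomputable def Np (r : ℝ) (g : R) : ℝ := ∑' n : ℤ, |g.coeff n| ^ r

lemma summ {r : ℝ} (hr : 0 < r) (g : R) : Summable (fun n : ℤ => |g.coeff n| ^ r) := by
  apply summable_of_ne_finset_zero (s := g.coeff.support)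
  intro n hn
  rw [Finsupp.notMem_support_iff.mp hn, abs_zero, Real.zero_rpow hr.ne']

lemma Np_nonneg (r : ℝ) (g : R) : 0 ≤ Np r g :=
  tsum_nonneg fun _ => Real.rpow_nonneg (abs_nonneg _) _

lemma Np_zero {r : ℝ} (hr : 0 < r) : Np r 0 = 0 := by
  simp [Np, Real.zero_rpow hr.ne']

lemma Np_one {r : ℝ} (hr : 0 < r) : Np r 1 = 1 := by
  unfold Np
  rw [tsum_eq_single 0]
  · have : (1 : R).coeff 0 = 1 := by
      rw [← T_zero, T_apply]; simp
    rw [this]; simp
  · intro n hn
    have : (1 : R).coeff n = 0 := by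
      rw [← T_zero, T_apply]; simp [hn.symm]
    rw [this, abs_zero, Real.zero_rpow hr.ne']

lemma Np_add_of_disjoint {r : ℝ} (hr : 0 < r) {g h : R}
    (H : ∀ n, g.coeff n = 0 ∨ h.coeff n = 0) : Np r (g + h) = Np r g + Np r h := by
  unfold Np
  rw [← (summ hr g).tsum_add (summ hr h)]
  apply tsum_congr
  intro n
  rcases H n with h0 | h0
  · simp [AddMonoidAlgebra.coeff_add, h0, Real.zero_rpow hr.ne']
  · simp [AddMonoidAlgebra.coeff_add, h0, Real.zero_rpow hr.ne']

lemma coeff_C_mul (x : ℝ) (g : R) (n : ℤ) : (C x * g).coeff n = x * g.coeff n := by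
  rw [← smul_eq_C_mul, AddMonoidAlgebra.coeff_smul_apply]; simp

lemma coeff_T_mul (k : ℤ) (g : R) (n : ℤ) : (T k * g).coeff n = g.coeff (n - k) := by
  induction g using LaurentPolynomial.induction_on' with
  | add p q hp hq =>
    rw [mul_add, AddMonoidAlgebra.coeff_add, AddMonoidAlgebra.coeff_add, Finsupp.add_apply,
      Finsupp.add_apply, hp, hq]
  | C_mul_T j a =>
    have : T k * (C a * T j) = C a * T (j + k) := by
      rw [T_add]; ring
    rw [this, coeff_C_mul, coeff_C_mul, T_apply, T_apply]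
    congr 1
    by_cases h : j + k = n
    · rw [if_pos h, if_pos (by omega)]
    · rw [if_neg h, if_neg (by omega)]

lemma Np_C_mul {r : ℝ} (x : ℝ) (g : R) : Np r (C x * g) = |x| ^ r * Np r g := by
  unfold Np
  rw [← tsum_mul_left]
  apply tsum_congr
  intro n
  rw [coeff_C_mul, abs_mul, Real.mul_rpow (abs_nonneg _) (abs_nonneg _)]

lemma Np_T_mul {r : ℝ} (k : ℤ) (g : R) : Np r (T k * g) = Np r g := by
  unfold Np
  simp_rw [coeff_T_mul]
  exact (Equiv.subRight k).tsum_eq (fun n => |g.coeff n| ^ r)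

/-- `g` is supported in `[a, b]` -/
def Supp (a b : ℤ) (g : R) : Prop := ∀ n, g.coeff n ≠ 0 → a ≤ n ∧ n ≤ b

lemma Supp.mono {a b a' b' : ℤ} {g : R} (h : Supp a b g) (ha : a' ≤ a) (hb : b ≤ b') :
    Supp a' b' g := fun n hn => ⟨ha.trans (h n hn).1, (h n hn).2.trans hb⟩

lemma Supp.zero (a b : ℤ) : Supp a b 0 := fun n hn => by simp at hn

lemma Supp.one : Supp 0 0 1 := fun n hn => by
  rw [← T_zero, T_apply] at hn
  by_cases h : (0 : ℤ) = n
  · omega
  · simp [h] at hn

lemma Supp.add {a b : ℤ} {g h : R} (hg : Supp a b g) (hh : Supp a b h) : Supp a b (g + h) := by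
  intro n hn
  by_cases h0 : g.coeff n = 0
  · have : h.coeff n ≠ 0 := by
      intro h1; apply hn
      rw [AddMonoidAlgebra.coeff_add, Finsupp.add_apply, h0, h1, add_zero]
    exact hh n this
  · exact hg n h0

lemma Supp.C_mul {a b : ℤ} {g : R} (hg : Supp a b g) (x : ℝ) : Supp a b (C x * g) := by
  intro n hn
  rw [coeff_C_mul] at hn
  exact hg n (right_ne_zero_of_mul hn)

lemma Supp.T_mul {a b : ℤ} {g : R} (hg : Supp a b g) (k : ℤ) :
    Supp (a + k) (b + k) (T k * g) := by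
  intro n hn
  rw [coeff_T_mul] at hn
  have := hg _ hn
  constructor <;> omega

lemma Supp.disj {a b c d : ℤ} {g h : R} (hg : Supp a b g) (hh : Supp c d h) (hbc : b < c) :
    ∀ n, g.coeff n = 0 ∨ h.coeff n = 0 := by
  intro n
  by_contra hcon
  push Not at hcon
  have h1 := hg n hcon.1
  have h2 := hh n hcon.2
  omega

/-- nonnegative coefficients -/
def Nn (g : R) : Prop := ∀ n, 0 ≤ g.coeff n

lemma Nn.zero : Nn 0 := fun n => by simp
lemma Nn.one : Nn 1 := fun n => by
  rw [← T_zero, T_apply]; split_ifs <;> norm_num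
lemma Nn.add {g h : R} (hg : Nn g) (hh : Nn h) : Nn (g + h) := fun n => by
  rw [AddMonoidAlgebra.coeff_add, Finsupp.add_apply]; exact add_nonneg (hg n) (hh n)
lemma Nn.C_mul {g : R} (hg : Nn g) {x : ℝ} (hx : 0 ≤ x) : Nn (C x * g) := fun n => by
  rw [coeff_C_mul]; exact mul_nonneg hx (hg n)
lemma Nn.T_mul {g : R} (hg : Nn g) (k : ℤ) : Nn (T k * g) := fun n => by
  rw [coeff_T_mul]; exact hg _

lemma L_C_mul (L : R →ₗ[ℝ] ℝ) (x : ℝ) (g : R) : L (C x * g) = x * L g := by
  rw [← smul_eq_C_mul, map_smul, smul_eq_mul]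

lemma L_nonneg (L : R →ₗ[ℝ] ℝ) (hL : ∀ j : ℤ, 0 ≤ j → 0 ≤ L (T j)) {g : R} (hg : Nn g)
    {b : ℤ} (hs : Supp 0 b g) : 0 ≤ L g := by
  have hdec : g = ∑ n ∈ g.coeff.support, C (g.coeff n) * T n := by
    ext a
    simp_rw [← single_eq_C_mul_T]
    simp only [AddMonoidAlgebra.coeff_sum, AddMonoidAlgebra.coeff_single]
    rw [Finset.sum_apply', Finset.sum_eq_single a, Finsupp.single_eq_same]
    · intro b _ hb
      rw [Finsupp.single_eq_of_ne' hb]
    · intro ha
      rw [Finsupp.single_eq_same, Finsupp.notMem_support_iff.mp ha]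
  rw [hdec, map_sum]
  apply Finset.sum_nonneg
  intro n hn
  rw [L_C_mul]
  exact mul_nonneg (hg n) (hL n (hs n (Finsupp.mem_support_iff.mp hn)).1)

end Pool.Agent.H667R2.HK
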