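import Pool.Agent.H667R2.HK1

/-! The Riesz-product test polynomials and the recursion. -/

namespace Pool.Agent.H667R2.HK

open LaurentPolynomial

noncomputable def u (x : ℝ) (n : ℕ → ℤ) : ℕ → R
  | 0 => 1
  | k + 1 => u x n k * (1 + C x * T (-n k))

noncomputable def v (y : ℝ) (n : ℕ → ℤ) : ℕ → R
  | 0 => 1
  | k + 1 => v y n k * (1 + C y * T (n k))

noncomputable def S (x y : ℝ) (n : ℕ → ℤ) : ℕ → R
  | 0 => 0
  | k + 1 => (1 - C x * T (-n k)) * (C (1 + x * y) * S x y n k + T (-n k) * v y n k)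

noncomputable def M (x y : ℝ) (n : ℕ → ℤ) : ℕ → R
  | 0 => 0
  | k + 1 => C (1 + x * y) * M x y n k + T (-n k) * (u x n k * v y n k)

noncomputable def P (x y : ℝ) (n : ℕ → ℤ) (k : ℕ) : R := u x n k * v y n k - C x * M x y n k

noncomputable def E (x y : ℝ) (n : ℕ → ℤ) (k : ℕ) : R := u x n k * S x y n k - M x y n k

lemma hTT (k : ℤ) : (T k : R) * T (-k) = 1 := by rw [← T_add]; simp

lemma hC1 (x y : ℝ) : (C (1 + x * y) : R) = 1 + C x * C y := by
  rw [map_add, map_mul, map_one]

lemma uv_succ (x y : ℝ) (n : ℕ → ℤ) (k : ℕ) :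
    u x n (k + 1) * v y n (k + 1) =
      C (1 + x * y) * (u x n k * v y n k) + C y * (T (n k) * (u x n k * v y n k)) +
        C x * (T (-n k) * (u x n k * v y n k)) := by
  rw [hC1]
  simp only [u, v]
  linear_combination (C x * C y * u x n k * v y n k) * hTT (n k)

lemma P_succ (x y : ℝ) (n : ℕ → ℤ) (k : ℕ) :
    P x y n (k + 1) = C (1 + x * y) * P x y n k + C y * (T (n k) * (u x n k * v y n k)) := by
  simp only [P]
  rw [uv_succ]
  simp only [M]
  ring

lemma E_succ (x y : ℝ) (n : ℕ → ℤ) (k : ℕ) :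
    E x y n (k + 1) = C (1 + x * y) * E x y n k -
      C (x ^ 2) * (C (1 + x * y) * ((T (-n k) * (T (-n k) * u x n k)) * S x y n k) +
        (T (-n k) * (T (-n k) * (T (-n k) * u x n k))) * v y n k) := by
  simp only [E, u, S, M, map_pow]
  ring

/-- window sums -/
def W (n : ℕ → ℤ) (k : ℕ) : ℤ := ∑ j ∈ Finset.range k, n j

lemma W_succ (n : ℕ → ℤ) (k : ℕ) : W n (k + 1) = W n k + n k := Finset.sum_range_succ _ _

/-- the lacunarity condition -/
def Lac (n : ℕ → ℤ) : Prop := ∀ k, 3 * W n k < n k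

lemma Lac.W_nonneg {n : ℕ → ℤ} (h : Lac n) (k : ℕ) : 0 ≤ W n k := by
  induction k with
  | zero => simp [W]
  | succ k ih => rw [W_succ]; have := h k; omega

lemma u_supp {n : ℕ → ℤ} (h : Lac n) (x : ℝ) (k : ℕ) : Supp (-W n k) 0 (u x n k) := by
  induction k with
  | zero => simpa [W, u] using Supp.one
  | succ k ih =>
    have e : u x n (k + 1) = u x n k + C x * (T (-n k) * u x n k) := by simp only [u]; ring
    have h1 := h k
    have h2 := h.W_nonneg k
    rw [e, W_succ]
    exact (ih.mono (by omega) le_rfl).add (((ih.T_mul _).C_mul x).mono (by omega) (by omega))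

lemma v_supp {n : ℕ → ℤ} (h : Lac n) (y : ℝ) (k : ℕ) : Supp 0 (W n k) (v y n k) := by
  induction k with
  | zero => simpa [W, v] using Supp.one
  | succ k ih =>
    have e : v y n (k + 1) = v y n k + C y * (T (n k) * v y n k) := by simp only [v]; ring
    have h1 := h k
    have h2 := h.W_nonneg k
    rw [e, W_succ]
    exact (ih.mono le_rfl (by omega)).add (((ih.T_mul _).C_mul y).mono (by omega) (by omega))

lemma uv_supp {n : ℕ → ℤ} (h : Lac n) (x y : ℝ) (k : ℕ) :
    Supp (-W n k) (W n k) (u x n k * v y n k) := by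
  induction k with
  | zero => simpa [W, u, v] using Supp.one
  | succ k ih =>
    have h1 := h k
    have h2 := h.W_nonneg k
    rw [uv_succ, W_succ]
    refine ((ih.C_mul _).mono (by omega) (by omega)).add ?_ |>.add ?_
    · exact ((ih.T_mul _).C_mul y).mono (by omega) (by omega)
    · exact ((ih.T_mul _).C_mul x).mono (by omega) (by omega)

lemma S_supp {n : ℕ → ℤ} (h : Lac n) (x y : ℝ) (k : ℕ) :
    Supp (-2 * W n k) (-1) (S x y n k) := by
  induction k with
  | zero => simpa [S] using Supp.zero _ _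
  | succ k ih =>
    have e : S x y n (k + 1) = (C (1 + x * y) * S x y n k + T (-n k) * v y n k) +
      C (-x) * (T (-n k) * (C (1 + x * y) * S x y n k + T (-n k) * v y n k)) := by
      simp only [S, map_neg]; ring
    have h1 := h k
    have h2 := h.W_nonneg k
    have hv := (v_supp h y k).T_mul (-n k)
    have h3 : Supp (-2 * W n k - n k) (-1) (C (1 + x * y) * S x y n k + T (-n k) * v y n k) :=
      ((ih.C_mul _).mono (by omega) le_rfl).add (hv.mono (by omega) (by omega))
    rw [e, W_succ]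
    exact (h3.mono (by omega) le_rfl).add (((h3.T_mul _).C_mul _).mono (by omega) (by omega))

lemma u_norm {n : ℕ → ℤ} (h : Lac n) {r x : ℝ} (hr : 0 < r) (hx : 0 ≤ x) (k : ℕ) :
    Np r (u x n k) = (1 + x ^ r) ^ k := by
  induction k with
  | zero => simpa [u] using Np_one hr
  | succ k ih =>
    have e : u x n (k + 1) = C x * (T (-n k) * u x n k) + u x n k := by simp only [u]; ring
    have h1 := h k
    have h2 := h.W_nonneg k
    have hu := u_supp h x k
    rw [e, Np_add_of_disjoint hr (((hu.T_mul (-n k)).C_mul x).disj hu (by omega)), Np_C_mul,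
      Np_T_mul, ih, abs_of_nonneg hx]
    ring

lemma v_norm {n : ℕ → ℤ} (h : Lac n) {s y : ℝ} (hs : 0 < s) (hy : 0 ≤ y) (k : ℕ) :
    Np s (v y n k) = (1 + y ^ s) ^ k := by
  induction k with
  | zero => simpa [v] using Np_one hs
  | succ k ih =>
    have e : v y n (k + 1) = v y n k + C y * (T (n k) * v y n k) := by simp only [v]; ring
    have h1 := h k
    have h2 := h.W_nonneg k
    have hu := v_supp h y k
    rw [e, Np_add_of_disjoint hs (hu.disj ((hu.T_mul (n k)).C_mul y) (by omega)), Np_C_mul,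
      Np_T_mul, ih, abs_of_nonneg hy]
    ring

lemma S_norm {n : ℕ → ℤ} (h : Lac n) {s x y : ℝ} (hs : 0 < s) (hx : 0 ≤ x) (hy : 0 ≤ y) (k : ℕ) :
    Np s (S x y n (k + 1)) =
      (1 + x ^ s) * ((1 + x * y) ^ s * Np s (S x y n k) + Np s (v y n k)) := by
  have e : S x y n (k + 1) = C (-x) * (T (-n k) * (C (1 + x * y) * S x y n k + T (-n k) * v y n k))
    + (C (1 + x * y) * S x y n k + T (-n k) * v y n k) := by
    simp only [S, map_neg]; ring
  have h1 := h k
  have h2 := h.W_nonneg k
  have hS := S_supp h x y k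
  have hv := (v_supp h y k).T_mul (-n k)
  have hSv : Np s (C (1 + x * y) * S x y n k + T (-n k) * v y n k) =
      (1 + x * y) ^ s * Np s (S x y n k) + Np s (v y n k) := by
    rw [add_comm, Np_add_of_disjoint hs (hv.disj (hS.C_mul _) (by omega)), Np_C_mul, Np_T_mul,
      abs_of_nonneg (by positivity)]
    ring
  -- the four pieces have disjoint supports
  have hd : ∀ j, (C (-x) * (T (-n k) * (C (1 + x * y) * S x y n k + T (-n k) * v y n k))).coeff j
      = 0 ∨ (C (1 + x * y) * S x y n k + T (-n k) * v y n k).coeff j = 0 := by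
    intro j
    by_contra hcon
    push Not at hcon
    obtain ⟨ha, hb⟩ := hcon
    rw [coeff_C_mul, coeff_T_mul] at ha
    have ha' := right_ne_zero_of_mul ha
    rw [AddMonoidAlgebra.coeff_add, Finsupp.add_apply] at ha' hb
    have ha2 : ((C (1 + x * y) * S x y n k).coeff (j - -n k) ≠ 0 ∨
        (T (-n k) * v y n k).coeff (j - -n k) ≠ 0) := by
      by_contra hc; push Not at hc; apply ha'; rw [hc.1, hc.2, add_zero]
    have hb2 : ((C (1 + x * y) * S x y n k).coeff j ≠ 0 ∨
        (T (-n k) * v y n k).coeff j ≠ 0) := by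
      by_contra hc; push Not at hc; apply hb; rw [hc.1, hc.2, add_zero]
    have e1 : (C (1 + x * y) * S x y n k).coeff (j - -n k) ≠ 0 →
        -2 * W n k ≤ j - -n k ∧ j - -n k ≤ -1 := fun hh => (hS.C_mul (1 + x * y)) _ hh
    have e2 := hv (j - -n k)
    have e3 : (C (1 + x * y) * S x y n k).coeff j ≠ 0 →
        -2 * W n k ≤ j ∧ j ≤ -1 := fun hh => (hS.C_mul (1 + x * y)) _ hh
    have e4 := hv j
    rcases ha2 with ha2 | ha2 <;> rcases hb2 with hb2 | hb2
    · have := e1 ha2; have := e3 hb2; omega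
    · have := e1 ha2; have := e4 hb2; omega
    · have := e2 ha2; have := e3 hb2; omega
    · have := e2 ha2; have := e4 hb2; omega
  rw [e, Np_add_of_disjoint hs hd, Np_C_mul, Np_T_mul, hSv, abs_neg, abs_of_nonneg hx]
  ring

end Pool.Agent.H667R2.HK
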