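import Pool.Agent.H667R2.HK2

/-! The main inequality. -/

namespace Pool.Agent.H667R2.HK

open LaurentPolynomial

lemma C_pow_succ (A : ℝ) (k : ℕ) : (C (A ^ (k + 1)) : R) = C A * C (A ^ k) := by
  rw [← map_mul]; congr 1; ring

lemma uv_nn (n : ℕ → ℤ) {x y : ℝ} (hx : 0 ≤ x) (hy : 0 ≤ y) (k : ℕ) :
    Nn (u x n k * v y n k) ∧ Nn (u x n k * v y n k - C ((1 + x * y) ^ k)) := by
  induction k with
  | zero =>
    refine ⟨by simpa [u, v] using Nn.one, ?_⟩
    simpa [u, v] using Nn.zero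
  | succ k ih =>
    obtain ⟨ih1, ih2⟩ := ih
    have hA : 0 ≤ 1 + x * y := by positivity
    constructor
    · rw [uv_succ]
      exact ((ih1.C_mul hA).add ((ih1.T_mul _).C_mul hy)).add ((ih1.T_mul _).C_mul hx)
    · rw [uv_succ, C_pow_succ]
      have e : C (1 + x * y) * (u x n k * v y n k) + C y * (T (n k) * (u x n k * v y n k)) +
          C x * (T (-n k) * (u x n k * v y n k)) - C (1 + x * y) * C ((1 + x * y) ^ k) =
          C (1 + x * y) * (u x n k * v y n k - C ((1 + x * y) ^ k)) +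
          C y * (T (n k) * (u x n k * v y n k)) +
          C x * (T (-n k) * (u x n k * v y n k)) := by ring
      rw [e]
      exact ((ih2.C_mul hA).add ((ih1.T_mul _).C_mul hy)).add ((ih1.T_mul _).C_mul hx)

lemma L_shift {n : ℕ → ℤ} (h : Lac n) (L : R →ₗ[ℝ] ℝ) (hL : ∀ j : ℤ, 0 ≤ j → 0 ≤ L (T j))
    {x y : ℝ} (hx : 0 ≤ x) (hy : 0 ≤ y) (k : ℕ) :
    (1 + x * y) ^ k * L (T (n k)) ≤ L (T (n k) * (u x n k * v y n k)) := by
  have h1 := h k
  have h2 := h.W_nonneg k
  have hs : Supp (-W n k) (W n k) (u x n k * v y n k - C ((1 + x * y) ^ k)) := by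
    have hC : Supp (-W n k) (W n k) (C (-(1 + x * y) ^ k) * 1) :=
      (Supp.one.C_mul _).mono (by omega) (by omega)
    have := (uv_supp h x y k).add hC
    have e : u x n k * v y n k - C ((1 + x * y) ^ k) =
      u x n k * v y n k + C (-(1 + x * y) ^ k) * 1 := by rw [map_neg]; ring
    rw [e]; exact this
  have hpos := L_nonneg L hL ((uv_nn n hx hy k).2.T_mul (n k))
    ((hs.T_mul (n k)).mono (by omega) le_rfl)
  have e : T (n k) * (u x n k * v y n k - C ((1 + x * y) ^ k)) =
      T (n k) * (u x n k * v y n k) - C ((1 + x * y) ^ k) * T (n k) := by ring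
  rw [e, map_sub, L_C_mul] at hpos
  linarith

lemma lower {n : ℕ → ℤ} (h : Lac n) (L : R →ₗ[ℝ] ℝ) (hL : ∀ j : ℤ, 0 ≤ j → 0 ≤ L (T j))
    {x y : ℝ} (hx : 0 ≤ x) (hy : 0 ≤ y) (k : ℕ) :
    y * (1 + x * y) ^ k * ∑ j ∈ Finset.range k, L (T (n j)) ≤ (1 + x * y) * L (P x y n k) := by
  have hA : 0 ≤ 1 + x * y := by positivity
  induction k with
  | zero =>
    have : P x y n 0 = T 0 := by simp [P, u, v, M]
    rw [this]
    simp only [Finset.range_zero, Finset.sum_empty, mul_zero]
    exact mul_nonneg hA (hL 0 le_rfl)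
  | succ k ih =>
    rw [P_succ, map_add, L_C_mul, L_C_mul, Finset.sum_range_succ]
    have := L_shift h L hL hx hy k
    calc y * (1 + x * y) ^ (k + 1) * (∑ j ∈ Finset.range k, L (T (n j)) + L (T (n k)))
        = (1 + x * y) * (y * (1 + x * y) ^ k * ∑ j ∈ Finset.range k, L (T (n j))) +
          (1 + x * y) * (y * ((1 + x * y) ^ k * L (T (n k)))) := by ring
      _ ≤ (1 + x * y) * ((1 + x * y) * L (P x y n k)) +
          (1 + x * y) * (y * L (T (n k) * (u x n k * v y n k))) := by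
          gcongr
      _ = _ := by ring

lemma S_bound {n : ℕ → ℤ} (h : Lac n) {s x y r : ℝ} (hs : 0 < s) (hx : 0 ≤ x)
    (hy : 0 ≤ y) (hxy : x * y = x ^ r) (hys : y ^ s = x ^ r) (hxs : x ^ s ≤ x ^ r) (k : ℕ) :
    Np s (S x y n k) ≤ k * ((1 + x * y) ^ (s + 1)) ^ k := by
  have hA : 1 ≤ 1 + x * y := by nlinarith [mul_nonneg hx hy]
  have hA0 : 0 < 1 + x * y := by linarith
  set Q := (1 + x * y) ^ (s + 1) with hQ
  have hQe : Q = (1 + x * y) * (1 + x * y) ^ s := by
    rw [hQ, Real.rpow_add hA0, Real.rpow_one]; ring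
  have hQA : 1 + x * y ≤ Q := by
    rw [hQe]
    have : 1 ≤ (1 + x * y) ^ s := Real.one_le_rpow hA hs.le
    nlinarith
  have hQ0 : 0 ≤ Q := by linarith
  induction k with
  | zero => simp [S, Np_zero hs]
  | succ k ih =>
    rw [S_norm h hs hx hy, v_norm h hs hy, hys, ← hxy]
    have h1 : 1 + x ^ s ≤ 1 + x * y := by rw [hxy]; linarith
    have h2 : 0 ≤ (1 + x * y) ^ s * Np s (S x y n k) + (1 + x * y) ^ k := by
      have := Np_nonneg s (S x y n k)
      positivity
    calc (1 + x ^ s) * ((1 + x * y) ^ s * Np s (S x y n k) + (1 + x * y) ^ k)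
        ≤ (1 + x * y) * ((1 + x * y) ^ s * Np s (S x y n k) + (1 + x * y) ^ k) := by gcongr
      _ ≤ (1 + x * y) * ((1 + x * y) ^ s * (k * Q ^ k) + (1 + x * y) ^ k) := by gcongr
      _ = k * Q ^ (k + 1) + (1 + x * y) ^ (k + 1) := by
          rw [pow_succ Q k]; rw [hQe]; ring
      _ ≤ k * Q ^ (k + 1) + Q ^ (k + 1) := by gcongr
      _ = ((k + 1 : ℕ) : ℝ) * Q ^ (k + 1) := by push_cast; ring

set_option maxHeartbeats 1000000 in
theorem main_ineq {n : ℕ → ℤ} (h : Lac n) (L : R →ₗ[ℝ] ℝ) (hpos : ∀ j : ℤ, 0 ≤ j → 0 ≤ L (T j))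
    {r s K x y : ℝ} (hr : 1 ≤ r) (hs : 1 ≤ s) (hK : 0 ≤ K) (hrs : 1 / r + 1 / s = 1)
    (hL : ∀ g g' : R, |L (g * g')| ≤ K * Np r g ^ (1 / r) * Np s g' ^ (1 / s))
    (hx : 0 ≤ x) (hx1 : x ≤ 1) (hy : 0 ≤ y) (hxy : x * y = x ^ r) (hys : y ^ s = x ^ r)
    (hxs : x ^ s ≤ x ^ r) (N : ℕ) {B : ℝ} (hB : (1 + x ^ r) ^ N ≤ B) :
    y * ∑ k ∈ Finset.range N, L (T (n k)) ≤
      2 * K * (1 + x * ((N : ℝ) ^ (1 / s) * B ^ 3) + 3 * x ^ 3 * N * (N : ℝ) ^ (1 / s) * B ^ 4) := by
  have hr0 : 0 < r := by linarith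
  have hs0 : 0 < s := by linarith
  set A := 1 + x * y with hAdef
  have hAr : 1 + x ^ r = A := by rw [hAdef, hxy]
  have hA1 : 1 ≤ A := by nlinarith [mul_nonneg hx hy]
  have hA0 : 0 < A := by linarith
  have hA2 : A ≤ 2 := by
    rw [← hAr]
    have : x ^ r ≤ 1 := Real.rpow_le_one hx hx1 hr0.le
    linarith
  rw [hAr] at hB
  have hB1 : 1 ≤ B := (one_le_pow₀ hA1).trans hB
  have hAk : ∀ k, k ≤ N → A ^ k ≤ B := fun k hk => (pow_le_pow_right₀ hA1 hk).trans hB
  set σ := (N : ℝ) ^ (1 / s) with hσ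
  have hσ0 : 0 ≤ σ := by positivity
  -- norms
  have hu : ∀ k, k ≤ N → Np r (u x n k) ^ (1 / r) ≤ B := by
    intro k hk
    rw [u_norm h hr0 hx, hAr]
    calc (A ^ k) ^ (1 / r) ≤ (A ^ k) ^ (1 : ℝ) := by
          apply Real.rpow_le_rpow_of_exponent_le (one_le_pow₀ hA1)
          rw [div_le_one hr0]; exact hr
      _ = A ^ k := Real.rpow_one _
      _ ≤ B := hAk k hk
  have hv : ∀ k, k ≤ N → Np s (v y n k) ^ (1 / s) ≤ B := by
    intro k hk
    rw [v_norm h hs0 hy, hys, hAr]
    calc (A ^ k) ^ (1 / s) ≤ (A ^ k) ^ (1 : ℝ) := by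
          apply Real.rpow_le_rpow_of_exponent_le (one_le_pow₀ hA1)
          rw [div_le_one hs0]; exact hs
      _ = A ^ k := Real.rpow_one _
      _ ≤ B := hAk k hk
  have hS : ∀ k, k ≤ N → Np s (S x y n k) ^ (1 / s) ≤ σ * B ^ 2 := by
    intro k hk
    have h1 := S_bound h hs0 hx hy hxy hys hxs k
    rw [← hAdef] at h1
    have h2 : ((A ^ (s + 1)) ^ k) = (A ^ k) ^ (s + 1) := by
      rw [← Real.rpow_natCast, ← Real.rpow_mul hA0.le, ← Real.rpow_natCast, ← Real.rpow_mul hA0.le]
      ring_nf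
    rw [h2] at h1
    have hAk1 : 1 ≤ A ^ k := one_le_pow₀ hA1
    calc Np s (S x y n k) ^ (1 / s) ≤ ((k : ℝ) * (A ^ k) ^ (s + 1)) ^ (1 / s) := by
          apply Real.rpow_le_rpow (Np_nonneg _ _) h1; positivity
      _ = (k : ℝ) ^ (1 / s) * (A ^ k) ^ ((s + 1) / s) := by
          rw [Real.mul_rpow (by positivity) (by positivity), ← Real.rpow_mul (by positivity)]
          congr 2; ring
      _ ≤ σ * (A ^ k) ^ (2 : ℝ) := by
          apply mul_le_mul
          · apply Real.rpow_le_rpow (by positivity) (by exact_mod_cast hk); positivity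
          · apply Real.rpow_le_rpow_of_exponent_le hAk1
            rw [div_le_iff₀ hs0]; linarith
          · positivity
          · exact hσ0
      _ = σ * (A ^ k) ^ 2 := by norm_num
      _ ≤ σ * B ^ 2 := by
          have := hAk k hk
          gcongr
  have hnn : ∀ (t : ℝ) (g : R) (q : ℝ), 0 ≤ Np t g ^ q := fun t g q => Real.rpow_nonneg (Np_nonneg _ _) _
  -- the error terms
  set D := x ^ 2 * (A * (K * B * (σ * B ^ 2)) + K * B * B) with hD
  have hD0 : 0 ≤ D := by positivity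
  have hE : ∀ k, k ≤ N → |L (E x y n k)| ≤ k * A ^ k * D := by
    intro k
    induction k with
    | zero =>
      intro _
      simp [E, S, M]
    | succ k ih =>
      intro hk
      have ih' := ih (by omega)
      have hk' : k ≤ N := by omega
      rw [E_succ, map_sub, L_C_mul, L_C_mul, map_add, L_C_mul]
      have b1 := hL (T (-n k) * (T (-n k) * u x n k)) (S x y n k)
      have b2 := hL (T (-n k) * (T (-n k) * (T (-n k) * u x n k))) (v y n k)
      rw [Np_T_mul, Np_T_mul] at b1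
      rw [Np_T_mul, Np_T_mul, Np_T_mul] at b2
      have b1' : K * Np r (u x n k) ^ (1 / r) * Np s (S x y n k) ^ (1 / s) ≤
          K * B * (σ * B ^ 2) := by
        have := hu k hk'; have := hS k hk'; have := hnn r (u x n k) (1 / r)
        have := hnn s (S x y n k) (1 / s)
        gcongr
      have b2' : K * Np r (u x n k) ^ (1 / r) * Np s (v y n k) ^ (1 / s) ≤ K * B * B := by
        have := hu k hk'; have := hv k hk'; have := hnn r (u x n k) (1 / r)
        have := hnn s (v y n k) (1 / s)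
        gcongr
      have c1 := abs_le.mp (b1.trans b1')
      have c2 := abs_le.mp (b2.trans b2')
      have c3 := abs_le.mp ih'
      have hAk0 : 0 < A ^ k := by positivity
      have hX : |A * L ((T (-n k) * (T (-n k) * u x n k)) * S x y n k) +
          L ((T (-n k) * (T (-n k) * (T (-n k) * u x n k))) * v y n k)| ≤
          A * (K * B * (σ * B ^ 2)) + K * B * B := by
        refine (abs_add_le _ _).trans ?_
        rw [abs_mul, abs_of_pos hA0]
        have d1 := b1.trans b1'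
        have d2 := b2.trans b2'
        gcongr
      calc |(1 + x * y) * L (E x y n k) - x ^ 2 *
            ((1 + x * y) * L ((T (-n k) * (T (-n k) * u x n k)) * S x y n k) +
            L ((T (-n k) * (T (-n k) * (T (-n k) * u x n k))) * v y n k))|
          ≤ |A * L (E x y n k)| + |x ^ 2 *
            (A * L ((T (-n k) * (T (-n k) * u x n k)) * S x y n k) +
            L ((T (-n k) * (T (-n k) * (T (-n k) * u x n k))) * v y n k))| := by
            rw [← hAdef]; exact abs_sub _ _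
        _ ≤ A * (k * A ^ k * D) + D := by
            rw [abs_mul, abs_mul, abs_of_pos hA0, abs_of_nonneg (sq_nonneg x)]
            have : x ^ 2 * |A * L ((T (-n k) * (T (-n k) * u x n k)) * S x y n k) +
              L ((T (-n k) * (T (-n k) * (T (-n k) * u x n k))) * v y n k)| ≤ D := by
              rw [hD]; gcongr
            gcongr
        _ ≤ ((k + 1 : ℕ) : ℝ) * A ^ (k + 1) * D := by
            have h1 : 1 ≤ A ^ (k + 1) := one_le_pow₀ hA1
            push_cast
            have h2 : D ≤ A ^ (k + 1) * D := by nlinarith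
            calc A * (k * A ^ k * D) + D ≤ A * (k * A ^ k * D) + A ^ (k + 1) * D := by linarith
              _ = (k + 1) * A ^ (k + 1) * D := by ring
  -- combine
  have hlow := lower h L hpos hx hy N
  rw [← hAdef] at hlow
  have hP : P x y n N = u x n N * v y n N - C x * (u x n N * S x y n N) + C x * E x y n N := by
    simp only [P, E]; ring
  have h1 : |L (u x n N * v y n N)| ≤ K * A ^ N := by
    refine (hL _ _).trans ?_
    rw [u_norm h hr0 hx, v_norm h hs0 hy, hys, hAr, mul_assoc, ← Real.rpow_add (by positivity),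
      hrs, Real.rpow_one]
  have h2 : |L (u x n N * S x y n N)| ≤ K * B * (σ * B ^ 2) := by
    refine (hL _ _).trans ?_
    have := hu N le_rfl; have := hS N le_rfl; have := hnn r (u x n N) (1 / r)
    have := hnn s (S x y n N) (1 / s)
    gcongr
  have h3 : |L (E x y n N)| ≤ N * B * D := by
    refine (hE N le_rfl).trans ?_
    have := hAk N le_rfl
    gcongr
  have hLP : L (P x y n N) ≤ K * A ^ N + x * (K * B * (σ * B ^ 2)) + x * (N * B * D) := by
    rw [hP, map_add, map_sub, L_C_mul, L_C_mul]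
    have e1 := (abs_le.mp h1).2
    have e2 := (abs_le.mp h2).1
    have e3 := (abs_le.mp h3).2
    have e4 := mul_le_mul_of_nonneg_left e3 hx
    have e5 := mul_le_mul_of_nonneg_left e2 hx
    linarith
  have hAN : 0 < A ^ N := by positivity
  have hAN1 : 1 ≤ A ^ N := one_le_pow₀ hA1
  set SS := ∑ j ∈ Finset.range N, L (T (n j)) with hSS
  set Q := x * (K * B * (σ * B ^ 2)) + x * (N * B * D) with hQ
  have hQ0 : 0 ≤ Q := by positivity
  have key : (y * SS) * A ^ N ≤ (A * (K + Q)) * A ^ N := by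
    calc (y * SS) * A ^ N = y * A ^ N * SS := by ring
      _ ≤ A * L (P x y n N) := hlow
      _ ≤ A * (K * A ^ N + Q) := by
          gcongr
          rw [hQ]; linarith
      _ ≤ A * (K * A ^ N + Q * A ^ N) := by
          have : Q ≤ Q * A ^ N := le_mul_of_one_le_right hQ0 hAN1
          gcongr
      _ = (A * (K + Q)) * A ^ N := by ring
  have key2 : y * SS ≤ A * (K + Q) := le_of_mul_le_mul_right key hAN
  have hDle : D ≤ 3 * x ^ 2 * K * σ * B ^ 3 ∨ N = 0 := by
    rcases Nat.eq_zero_or_pos N with hN | hN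
    · right; exact hN
    left
    have hσ1 : 1 ≤ σ := by
      rw [hσ]; apply Real.one_le_rpow (by exact_mod_cast hN); positivity
    rw [hD]
    have e1 : A * (K * B * (σ * B ^ 2)) ≤ 2 * (K * B * (σ * B ^ 2)) := by gcongr
    have e2 : K * B * B ≤ K * σ * B ^ 3 := by
      have : B * B * 1 ≤ B * B * (σ * B) := by
        gcongr
        nlinarith
      calc K * B * B = K * (B * B * 1) := by ring
        _ ≤ K * (B * B * (σ * B)) := by gcongr
        _ = K * σ * B ^ 3 := by ring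
    calc x ^ 2 * (A * (K * B * (σ * B ^ 2)) + K * B * B)
        ≤ x ^ 2 * (2 * (K * B * (σ * B ^ 2)) + K * σ * B ^ 3) := by gcongr
      _ = 3 * x ^ 2 * K * σ * B ^ 3 := by ring
  have hND : (N : ℝ) * B * D ≤ 3 * x ^ 2 * K * N * σ * B ^ 4 := by
    rcases hDle with hDle | hN
    · calc (N : ℝ) * B * D ≤ N * B * (3 * x ^ 2 * K * σ * B ^ 3) := by gcongr
        _ = _ := by ring
    · rw [hN]; simp
  calc y * SS ≤ A * (K + Q) := key2
    _ ≤ 2 * (K + Q) := by gcongr
    _ ≤ 2 * (K + (x * (K * B * (σ * B ^ 2)) + x * (3 * x ^ 2 * K * N * σ * B ^ 4))) := by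
        rw [hQ]; gcongr
    _ = _ := by ring

end Pool.Agent.H667R2.HK
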