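import Pool.Agent.H667R2.HK3

/-! Choice of the parameters. -/

namespace Pool.Agent.H667R2.HK

open LaurentPolynomial Filter Topology

lemma exists_N {r s Y : ℝ} (hr : 1 < r) (hrs : 1 / r + 1 / s = 1) (hlt : r < s) (hY : 0 < Y) :
    ∃ N : ℕ, 1 ≤ N ∧ Y ≤ N ∧
      2 * (1 + (Y / N) ^ (1 / r) * ((N : ℝ) ^ (1 / s) * Real.exp Y ^ 3) +
        3 * ((Y / N) ^ (1 / r)) ^ 3 * N * (N : ℝ) ^ (1 / s) * Real.exp Y ^ 4) ≤ 3 := by
  have hr0 : 0 < r := by linarith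
  have hs0 : 0 < s := by linarith
  set δ := 1 / r - 1 / s with hδ
  have hδ0 : 0 < δ := by
    have := one_div_lt_one_div_of_lt hr0 hlt
    linarith
  have t0 : Tendsto (fun N : ℕ => (N : ℝ) ^ (-δ)) atTop (𝓝 0) :=
    (tendsto_rpow_neg_atTop hδ0).comp tendsto_natCast_atTop_atTop
  have t1 : Tendsto (fun N : ℕ => (N : ℝ) ^ (-(2 * δ))) atTop (𝓝 0) :=
    (tendsto_rpow_neg_atTop (by positivity)).comp tendsto_natCast_atTop_atTop
  have t2 : Tendsto (fun N : ℕ => 2 * (1 + (Y ^ (1 / r) * Real.exp Y ^ 3) * (N : ℝ) ^ (-δ) +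
      (3 * (Y ^ (1 / r)) ^ 3 * Real.exp Y ^ 4) * (N : ℝ) ^ (-(2 * δ)))) atTop
      (𝓝 (2 * (1 + (Y ^ (1 / r) * Real.exp Y ^ 3) * 0 +
      (3 * (Y ^ (1 / r)) ^ 3 * Real.exp Y ^ 4) * 0))) :=
    (((t0.const_mul _).const_add 1).add (t1.const_mul _)).const_mul 2
  have t3 := t2.eventually_le_const (show (2 * (1 + (Y ^ (1 / r) * Real.exp Y ^ 3) * 0 +
      (3 * (Y ^ (1 / r)) ^ 3 * Real.exp Y ^ 4) * 0) : ℝ) < 3 by norm_num)
  have t4 : ∀ᶠ N : ℕ in atTop, Y ≤ N := tendsto_natCast_atTop_atTop.eventually_ge_atTop Y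
  obtain ⟨N, h3, h4, h5⟩ := (t3.and (t4.and (eventually_ge_atTop 1))).exists
  refine ⟨N, h5, h4, le_trans (le_of_eq ?_) h3⟩
  have hN : (0 : ℝ) < N := by exact_mod_cast h5
  have e1 : (Y / N) ^ (1 / r) = Y ^ (1 / r) * (N : ℝ) ^ (-(1 / r)) := by
    rw [Real.div_rpow hY.le hN.le, Real.rpow_neg hN.le]; rfl
  have e2 : (N : ℝ) ^ (-δ) = (N : ℝ) ^ (-(1 / r)) * (N : ℝ) ^ (1 / s) := by
    rw [← Real.rpow_add hN]; congr 1; rw [hδ]; ring
  have e3 : (N : ℝ) ^ (-(2 * δ)) = ((N : ℝ) ^ (-(1 / r))) ^ 3 * N * (N : ℝ) ^ (1 / s) := by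
    rw [← Real.rpow_natCast, ← Real.rpow_mul hN.le]
    nth_rewrite 3 [← Real.rpow_one (N : ℝ)]
    rw [← Real.rpow_add hN, ← Real.rpow_add hN]
    congr 1
    rw [hδ]
    push_cast
    linarith
  rw [e1, e2, e3]
  ring

/-- the block estimate: for large blocks the constant of a multiplier extending the block is large -/
theorem block {r s Y : ℝ} (hr : 1 < r) (hrs : 1 / r + 1 / s = 1) (hlt : r < s) (hY : 0 < Y) :
    ∃ N : ℕ, 1 ≤ N ∧ ∀ (n : ℕ → ℤ), Lac n → ∀ L : R →ₗ[ℝ] ℝ, (∀ j : ℤ, 0 ≤ j → 0 ≤ L (T j)) →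
      ∀ K : ℝ, 0 ≤ K →
      (∀ g g' : R, |L (g * g')| ≤ K * Np r g ^ (1 / r) * Np s g' ^ (1 / s)) →
      ∀ a : ℝ, (∀ k < N, a * (N : ℝ) ^ (-(1 / r)) ≤ L (T (n k))) → a * Y ^ (1 / s) ≤ 3 * K := by
  obtain ⟨N, hN1, hNY, hN⟩ := exists_N hr hrs hlt hY
  refine ⟨N, hN1, ?_⟩
  intro n hn L hpos K hK hL a ha
  have hr0 : 0 < r := by linarith
  have hs0 : 0 < s := by linarith
  have hNp : (0 : ℝ) < N := by exact_mod_cast hN1
  set x := (Y / N) ^ (1 / r) with hx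
  have hYN : 0 ≤ Y / N := by positivity
  have hYN1 : Y / N ≤ 1 := (div_le_one hNp).mpr hNY
  have hx0 : 0 ≤ x := by positivity
  have hx1 : x ≤ 1 := Real.rpow_le_one hYN hYN1 (by positivity)
  have hxr : x ^ r = Y / N := by
    rw [hx, ← Real.rpow_mul hYN, one_div_mul_cancel hr0.ne', Real.rpow_one]
  have hxp : 0 < x := by positivity
  set y := x ^ (r - 1) with hy
  have hy0 : 0 ≤ y := by positivity
  have hxy : x * y = x ^ r := by
    rw [hy]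
    nth_rewrite 1 [← Real.rpow_one x]
    rw [← Real.rpow_add hxp]; congr 1; ring
  have hrs' : (r - 1) * s = r := by
    have h1 : r * s ≠ 0 := by positivity
    field_simp at hrs
    linarith
  have hys : y ^ s = x ^ r := by
    rw [hy, ← Real.rpow_mul hx0, hrs']
  have hxs : x ^ s ≤ x ^ r := Real.rpow_le_rpow_of_exponent_ge hxp hx1 hlt.le
  have hB : (1 + x ^ r) ^ N ≤ Real.exp Y := by
    rw [hxr]
    calc (1 + Y / N) ^ N ≤ (Real.exp (Y / N)) ^ N := by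
          apply pow_le_pow_left₀ (by positivity)
          rw [add_comm]; exact Real.add_one_le_exp _
      _ = Real.exp Y := by
          rw [← Real.exp_nat_mul]; congr 1; field_simp
  have main := main_ineq hn L hpos hr.le (by linarith) hK hrs hL hx0 hx1 hy0 hxy hys hxs N hB
  have h1 : y * ∑ k ∈ Finset.range N, L (T (n k)) ≤ 3 * K := by
    calc y * ∑ k ∈ Finset.range N, L (T (n k)) ≤ _ := main
      _ = K * (2 * (1 + x * ((N : ℝ) ^ (1 / s) * Real.exp Y ^ 3) +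
          3 * x ^ 3 * N * (N : ℝ) ^ (1 / s) * Real.exp Y ^ 4)) := by ring
      _ ≤ K * 3 := by gcongr
      _ = 3 * K := by ring
  have h2 : N * (a * (N : ℝ) ^ (-(1 / r))) ≤ ∑ k ∈ Finset.range N, L (T (n k)) := by
    have := Finset.card_nsmul_le_sum (Finset.range N) (fun k => L (T (n k)))
      (a * (N : ℝ) ^ (-(1 / r))) (fun k hk => ha k (Finset.mem_range.mp hk))
    simpa using this
  have h3 : y * (N * (a * (N : ℝ) ^ (-(1 / r)))) = a * Y ^ (1 / s) := by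
    have e1 : y = (Y / N) ^ (1 / s) := by
      rw [hy, hx, ← Real.rpow_mul hYN]
      congr 1
      field_simp
      field_simp at hrs
      linarith
    have e2 : (1 : ℝ) / s + 1 / r - 1 = 0 := by linarith
    rw [e1, Real.div_rpow hY.le hNp.le]
    have e3 : (N : ℝ) * (N : ℝ) ^ (-(1 / r)) = (N : ℝ) ^ (1 / s) := by
      nth_rewrite 1 [← Real.rpow_one (N : ℝ)]
      rw [← Real.rpow_add hNp]; congr 1; linarith
    have e4 : (N : ℝ) ^ (1 / s) ≠ 0 := by positivity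
    calc Y ^ (1 / s) / (N : ℝ) ^ (1 / s) * (N * (a * (N : ℝ) ^ (-(1 / r))))
        = a * Y ^ (1 / s) * ((N : ℝ) * (N : ℝ) ^ (-(1 / r))) / (N : ℝ) ^ (1 / s) := by ring
      _ = a * Y ^ (1 / s) := by rw [e3]; field_simp
  calc a * Y ^ (1 / s) = y * (N * (a * (N : ℝ) ^ (-(1 / r)))) := h3.symm
    _ ≤ y * ∑ k ∈ Finset.range N, L (T (n k)) := by gcongr
    _ ≤ 3 * K := h1

end Pool.Agent.H667R2.HK
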