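import Mathlib

/-! The Hankel estimate for lacunary symbols. -/

namespace Pool.Agent.H667R2.HK5

open MeasureTheory
open scoped ENNReal

lemma holder {P Q : ℝ} (h : P.HolderConjugate Q) (a b : ℕ → ℝ≥0∞) :
    ∑' e, a e * b e ≤ (∑' e, b e ^ P) ^ (1 / P) * (∑' e, a e ^ Q) ^ (1 / Q) := by
  have := ENNReal.lintegral_mul_le_Lp_mul_Lq (μ := (Measure.count : Measure ℕ)) h
    (f := b) (g := a) (Measurable.of_discrete).aemeasurable (Measurable.of_discrete).aemeasurable
  rw [lintegral_count, lintegral_count, lintegral_count] at this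
  simpa [mul_comm] using this

lemma tsum_ite_le {ι : Type*} (cond : ι → Prop) [DecidablePred cond]
    (h : ∀ e e', cond e → cond e' → e = e') (w : ℝ≥0∞) :
    ∑' e, (if cond e then w else 0) ≤ w := by
  by_cases hex : ∃ e, cond e
  · obtain ⟨e, he⟩ := hex
    rw [tsum_eq_single e]
    · simp [he]
    · intro e' he'
      rw [if_neg]
      intro hc; exact he' (h _ _ hc he)
  · push Not at hex
    simp [hex]

lemma tsum_pow_of_single {P : ℝ} (hP : 0 < P) (F : ℕ → ℝ≥0∞)
    (h : ∀ e e', F e ≠ 0 → F e' ≠ 0 → e = e') : (∑' e, F e) ^ P = ∑' e, F e ^ P := by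
  by_cases hex : ∃ e, F e ≠ 0
  · obtain ⟨e, he⟩ := hex
    have h0 : ∀ e', e' ≠ e → F e' = 0 := by
      intro e' he'
      by_contra hc
      exact he' (h _ _ hc he)
    rw [tsum_eq_single e h0, tsum_eq_single e]
    intro e' he'
    rw [h0 e' he', ENNReal.zero_rpow_of_pos hP]
  · push Not at hex
    simp [hex, ENNReal.zero_rpow_of_pos hP]

lemma pow4_lt {e e' : ℕ} (h : e < e') : 4 * (4 : ℤ) ^ e ≤ 4 ^ e' := by
  have : (4 : ℤ) ^ (e + 1) ≤ 4 ^ e' := pow_le_pow_right₀ (by norm_num) h
  rw [pow_succ] at this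
  linarith

theorem hankel_est {P Q : ℝ} (h : P.HolderConjugate Q) (c : ℕ → ℝ≥0∞) (G : ℤ → ℝ≥0∞)
    (hG : ∀ j < 0, G j = 0) :
    ∑' n : ℤ, (if n < 0 then ∑' e : ℕ, c e * G (4 ^ e + n) else 0) ^ P ≤
      2 ^ (P - 1) * ((∑' e, c e ^ P) * ∑' j, G j ^ P +
        (∑' e, c e ^ Q) ^ (P / Q) * ∑' j, G j ^ P) := by
  have hP : 0 < P := h.pos
  have hP1 : 1 ≤ P := h.lt.le
  have hQ : 0 < Q := h.symm.pos
  set F1 : ℕ → ℤ → ℝ≥0∞ := fun e n => if n < 0 ∧ (4 : ℤ) ^ e < -4 * n then c e * G (4 ^ e + n) else 0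
    with hF1
  set F2 : ℕ → ℤ → ℝ≥0∞ := fun e n => if n < 0 ∧ -4 * n ≤ (4 : ℤ) ^ e then G (4 ^ e + n) else 0
    with hF2
  have split : ∀ n : ℤ, (if n < 0 then ∑' e : ℕ, c e * G (4 ^ e + n) else 0) =
      ∑' e, F1 e n + ∑' e, c e * F2 e n := by
    intro n
    split_ifs with hn
    · rw [← ENNReal.tsum_add]
      apply tsum_congr
      intro e
      simp only [hF1, hF2, hn, true_and]
      by_cases h1 : (4 : ℤ) ^ e < -4 * n
      · rw [if_pos h1, if_neg (by omega)]; simp
      · rw [if_neg h1, if_pos (by omega)]; simp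
    · simp [hF1, hF2, hn]
  have step1 : ∀ n : ℤ, (if n < 0 then ∑' e : ℕ, c e * G (4 ^ e + n) else 0) ^ P ≤
      2 ^ (P - 1) * (∑' e, F1 e n ^ P + (∑' e, c e ^ Q) ^ (P / Q) * ∑' e, F2 e n ^ P) := by
    intro n
    rw [split n]
    refine (ENNReal.rpow_add_le_mul_rpow_add_rpow _ _ hP1).trans ?_
    gcongr
    · rw [tsum_pow_of_single hP]
      intro e e' he he'
      simp only [hF1] at he he'
      have hc : n < 0 ∧ (4 : ℤ) ^ e < -4 * n := by
        by_contra hc; rw [if_neg hc] at he; exact he rfl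
      have hc' : n < 0 ∧ (4 : ℤ) ^ e' < -4 * n := by
        by_contra hc; rw [if_neg hc] at he'; exact he' rfl
      rw [if_pos hc] at he
      rw [if_pos hc'] at he'
      have g1 : 0 ≤ (4 : ℤ) ^ e + n := by
        by_contra hneg
        exact he (by rw [hG _ (by omega), mul_zero])
      have g2 : 0 ≤ (4 : ℤ) ^ e' + n := by
        by_contra hneg
        exact he' (by rw [hG _ (by omega), mul_zero])
      rcases lt_trichotomy e e' with hlt | heq | hgt
      · have := pow4_lt hlt; omega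
      · exact heq
      · have := pow4_lt hgt; omega
    · calc (∑' e, c e * F2 e n) ^ P
          ≤ ((∑' e, F2 e n ^ P) ^ (1 / P) * (∑' e, c e ^ Q) ^ (1 / Q)) ^ P := by
            apply ENNReal.rpow_le_rpow (holder h c (fun e => F2 e n)) hP.le
        _ = (∑' e, c e ^ Q) ^ (P / Q) * ∑' e, F2 e n ^ P := by
            rw [ENNReal.mul_rpow_of_nonneg _ _ hP.le, ← ENNReal.rpow_mul, ← ENNReal.rpow_mul,
              one_div_mul_cancel hP.ne', ENNReal.rpow_one, mul_comm]
            congr 2; ring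
  calc ∑' n : ℤ, (if n < 0 then ∑' e : ℕ, c e * G (4 ^ e + n) else 0) ^ P
      ≤ ∑' n : ℤ, 2 ^ (P - 1) * (∑' e, F1 e n ^ P +
        (∑' e, c e ^ Q) ^ (P / Q) * ∑' e, F2 e n ^ P) := ENNReal.tsum_le_tsum step1
    _ = 2 ^ (P - 1) * (∑' n : ℤ, ∑' e, F1 e n ^ P +
        (∑' e, c e ^ Q) ^ (P / Q) * ∑' n : ℤ, ∑' e, F2 e n ^ P) := by
        rw [ENNReal.tsum_mul_left, ENNReal.tsum_add, ENNReal.tsum_mul_left]
    _ ≤ _ := by
        apply mul_le_mul_right
        apply add_le_add _ (mul_le_mul_right _ _)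
        · rw [ENNReal.tsum_comm, ← ENNReal.tsum_mul_right]
          apply ENNReal.tsum_le_tsum
          intro e
          calc ∑' n : ℤ, F1 e n ^ P ≤ ∑' n : ℤ, c e ^ P * G (4 ^ e + n) ^ P := by
                apply ENNReal.tsum_le_tsum
                intro n
                simp only [hF1]
                split_ifs with hc
                · rw [ENNReal.mul_rpow_of_nonneg _ _ hP.le]
                · rw [ENNReal.zero_rpow_of_pos hP]; exact zero_le
            _ = c e ^ P * ∑' j, G j ^ P := by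
                rw [ENNReal.tsum_mul_left]
                congr 1
                exact (Equiv.addLeft ((4 : ℤ) ^ e)).tsum_eq (fun j => G j ^ P)
        · rw [ENNReal.tsum_comm]
          calc ∑' (e : ℕ) (n : ℤ), F2 e n ^ P
              = ∑' (e : ℕ) (j : ℤ), (if j < (4 : ℤ) ^ e ∧ 3 * (4 : ℤ) ^ e ≤ 4 * j then G j ^ P else 0) := by
                apply tsum_congr
                intro e
                rw [← (Equiv.addLeft ((4 : ℤ) ^ e)).tsum_eq
                  (fun j : ℤ => if j < (4 : ℤ) ^ e ∧ 3 * (4 : ℤ) ^ e ≤ 4 * j then G j ^ P else 0)]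
                apply tsum_congr
                intro n
                have ee : (Equiv.addLeft ((4 : ℤ) ^ e)) n = 4 ^ e + n := rfl
                by_cases hc : n < 0 ∧ -4 * n ≤ (4 : ℤ) ^ e
                · have e1 : F2 e n = G (4 ^ e + n) := if_pos hc
                  rw [e1, if_pos (by rw [ee]; omega)]
                  rfl
                · have e1 : F2 e n = 0 := if_neg hc
                  rw [e1, if_neg (by rw [ee]; omega), ENNReal.zero_rpow_of_pos hP]
            _ = ∑' (j : ℤ) (e : ℕ), (if j < (4 : ℤ) ^ e ∧ 3 * (4 : ℤ) ^ e ≤ 4 * j then G j ^ P else 0) :=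
                ENNReal.tsum_comm
            _ ≤ ∑' j : ℤ, G j ^ P := by
                apply ENNReal.tsum_le_tsum
                intro j
                apply tsum_ite_le (fun e : ℕ => j < (4 : ℤ) ^ e ∧ 3 * (4 : ℤ) ^ e ≤ 4 * j)
                intro e e' he he'
                rcases lt_trichotomy e e' with hlt | heq | hgt
                · have := pow4_lt hlt; omega
                · exact heq
                · have := pow4_lt hgt; omega

end Pool.Agent.H667R2.HK5
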