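import Pool.Agent.H667R2.HKDefs
import Pool.Agent.H667R2.HK5

/-! Lacunary symbols give bounded Hankel operators. -/

namespace Pool.Agent.H667R2.HankelLp

open MeasureTheory
open scoped ENNReal NNReal

lemma lpNorm_eq {p : ℝ≥0∞} (hp0 : p ≠ 0) (hpt : p ≠ ∞) (a : ℤ → ℂ) :
    lpNorm p a = (∑' n, ‖a n‖ₑ ^ p.toReal) ^ (1 / p.toReal) := by
  unfold lpNorm
  rw [eLpNorm_eq_lintegral_rpow_enorm_toReal hp0 hpt, lintegral_count]

/-- the lacunary symbol with coefficients `c e` at `4 ^ e` -/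
noncomputable def sym (c : ℕ → ℝ) : ℤ → ℂ :=
  Function.extend (fun e : ℕ => (4 : ℤ) ^ e) (fun e => (c e : ℂ)) 0

lemma inj4 : Function.Injective (fun e : ℕ => (4 : ℤ) ^ e) :=
  fun a b h => by
    have : (4 : ℤ) ^ a = 4 ^ b := h
    exact Int.pow_right_injective (by norm_num) this

lemma sym_pow (c : ℕ → ℝ) (e : ℕ) : sym c (4 ^ e) = c e :=
  inj4.extend_apply (fun e => (c e : ℂ)) 0 e

lemma sym_of_notMem (c : ℕ → ℝ) (n : ℤ) (h : n ∉ Set.range (fun e : ℕ => (4 : ℤ) ^ e)) :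
    sym c n = 0 := by
  unfold sym
  rw [Function.extend_apply']
  · rfl
  · rintro ⟨e, he⟩
    exact h ⟨e, he⟩

lemma sym_neg_index (c : ℕ → ℝ) (n : ℤ) (h : n < 0) : sym c n = 0 := by
  apply sym_of_notMem
  rintro ⟨e, he⟩
  have : (0 : ℤ) < 4 ^ e := by positivity
  simp only at he
  omega

lemma hankel_bound (c : ℕ → ℝ) (g : ℤ →₀ ℂ) (n : ℤ) :
    ‖hankel (sym c) g n‖ₑ ≤ if n < 0 then ∑' e : ℕ, ‖c e‖ₑ * ‖g (4 ^ e + n)‖ₑ else 0 := by
  unfold hankel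
  rw [Pi.sub_apply]
  unfold rieszProj
  split_ifs with h1 h2 h2
  · omega
  · simp
  · rw [sub_zero]
    unfold mulPoly Finsupp.sum
    calc ‖∑ j ∈ g.support, conjCoeff (sym c) (n - j) * g j‖ₑ
        ≤ ∑ j ∈ g.support, ‖conjCoeff (sym c) (n - j) * g j‖ₑ := enorm_sum_le _ _
      _ = ∑ j ∈ g.support, ‖sym c (j - n)‖ₑ * ‖g j‖ₑ := by
          apply Finset.sum_congr rfl
          intro j _
          rw [enorm_mul]
          congr 1
          unfold conjCoeff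
          rw [show -(n - j) = j - n by ring]
          simp [enorm_eq_nnnorm]
      _ ≤ ∑' j : ℤ, ‖sym c (j - n)‖ₑ * ‖g j‖ₑ := ENNReal.sum_le_tsum _
      _ = ∑' i : ℤ, ‖sym c i‖ₑ * ‖g (i + n)‖ₑ := by
          rw [← (Equiv.addRight n).tsum_eq]
          apply tsum_congr
          intro i
          simp
      _ = ∑' e : ℕ, ‖c e‖ₑ * ‖g (4 ^ e + n)‖ₑ := by
          rw [← inj4.tsum_eq]
          · apply tsum_congr
            intro e
            simp only [sym_pow]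
            congr 1
            simp [enorm_eq_nnnorm]
          · intro i hi
            by_contra hcon
            apply hi
            simp only
            rw [sym_of_notMem c i hcon]
            simp
  · omega

theorem hankelActs_sym {p : ℝ≥0∞} (hp1 : 1 < p) (hpt : p ≠ ∞) {Q : ℝ}
    (h : p.toReal.HolderConjugate Q) (c : ℕ → ℝ)
    (h1 : ∑' e, ‖c e‖ₑ ^ p.toReal ≠ ∞) (h2 : ∑' e, ‖c e‖ₑ ^ Q ≠ ∞) :
    HankelActs p (sym c) := by
  have hp0 : p ≠ 0 := (zero_lt_one.trans hp1).ne'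
  set P := p.toReal with hPdef
  have hP : 0 < P := h.pos
  have hQ : 0 < Q := h.symm.pos
  set K : ℝ≥0∞ := 2 ^ (P - 1) * ((∑' e, ‖c e‖ₑ ^ P) + (∑' e, ‖c e‖ₑ ^ Q) ^ (P / Q)) with hK
  have hKt : K ≠ ∞ := by
    rw [hK]
    apply ENNReal.mul_ne_top
    · exact ENNReal.rpow_ne_top_of_nonneg (by linarith [h.lt]) (by simp)
    · apply ENNReal.add_ne_top.mpr ⟨h1, ?_⟩
      exact ENNReal.rpow_ne_top_of_nonneg (by positivity) h2
  have hKt' : K ^ (1 / P) ≠ ∞ := ENNReal.rpow_ne_top_of_nonneg (by positivity) hKt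
  refine ⟨(K ^ (1 / P)).toNNReal, ?_⟩
  intro g hg
  rw [ENNReal.coe_toNNReal hKt', lpNorm_eq hp0 hpt, lpNorm_eq hp0 hpt, ← hPdef,
    ← ENNReal.mul_rpow_of_nonneg _ _ (by positivity)]
  apply ENNReal.rpow_le_rpow _ (by positivity)
  calc ∑' n, ‖hankel (sym c) g n‖ₑ ^ P
      ≤ ∑' n : ℤ, (if n < 0 then ∑' e : ℕ, ‖c e‖ₑ * ‖g (4 ^ e + n)‖ₑ else 0) ^ P := by
        apply ENNReal.tsum_le_tsum
        intro n
        exact ENNReal.rpow_le_rpow (hankel_bound c g n) hP.le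
    _ ≤ 2 ^ (P - 1) * ((∑' e, ‖c e‖ₑ ^ P) * ∑' j, ‖g j‖ₑ ^ P +
        (∑' e, ‖c e‖ₑ ^ Q) ^ (P / Q) * ∑' j, ‖g j‖ₑ ^ P) :=
        HK5.hankel_est h (fun e => ‖c e‖ₑ) (fun j => ‖g j‖ₑ) (fun j hj => by rw [hg j hj]; simp)
    _ = K * ∑' j, ‖g j‖ₑ ^ P := by rw [hK]; ring

end Pool.Agent.H667R2.HankelLp
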