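import Pool.Agent.H667R2.HK4
import Pool.Agent.H667R2.HK6

/-! From a multiplier to a bounded bilinear form on Laurent polynomials. -/

namespace Pool.Agent.H667R2.HankelLp

open MeasureTheory LaurentPolynomial
open scoped ENNReal NNReal
open HK (R Np)

/-- the functional `g ↦ ∑ n, g n * Re (m n)` -/
noncomputable def Lfun (m : ℤ → ℂ) : R →ₗ[ℝ] ℝ :=
  (Finsupp.linearCombination ℝ (fun n : ℤ => (m n).re)) ∘ₗ
    (AddMonoidAlgebra.coeffLinearEquiv ℝ (S := ℝ) (M := ℤ)).toLinearMap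

lemma Lfun_mono (m : ℤ → ℂ) (a : ℝ) (j : ℤ) : Lfun m (C a * T j) = a * (m j).re := by
  have e : (C a * T j : R).coeff = Finsupp.single j a := by
    rw [← single_eq_C_mul_T]; rfl
  change (Finsupp.linearCombination ℝ fun n => (m n).re) (C a * T j : R).coeff = a * (m j).re
  rw [e, Finsupp.linearCombination_single, smul_eq_mul]

lemma Lfun_T (m : ℤ → ℂ) (j : ℤ) : Lfun m (T j) = (m j).re := by
  have := Lfun_mono m 1 j
  simpa using this

/-- reflected coefficients -/
noncomputable def refl (g : R) : ℤ →₀ ℂ :=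
  Finsupp.mapRange (fun x : ℝ => (x : ℂ)) (by simp) (Finsupp.equivMapDomain (Equiv.neg ℤ) g.coeff)

lemma refl_apply (g : R) (j : ℤ) : refl g j = (g.coeff (-j) : ℂ) := by
  simp [refl, Finsupp.equivMapDomain_apply]

lemma refl_add (g h : R) : refl (g + h) = refl g + refl h := by
  ext j
  rw [Finsupp.add_apply, refl_apply, refl_apply, refl_apply, AddMonoidAlgebra.coeff_add,
    Finsupp.add_apply]
  push_cast; rfl

lemma mulPoly_add (m : ℤ → ℂ) (a b : ℤ →₀ ℂ) : mulPoly m (a + b) = mulPoly m a + mulPoly m b := by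
  funext n
  unfold mulPoly
  rw [Pi.add_apply]
  apply Finsupp.sum_add_index'
  · intro j; simp
  · intro j x y; ring

lemma refl_mono (a : ℝ) (i : ℤ) : refl (C a * T i) = Finsupp.single (-i) (a : ℂ) := by
  ext j
  rw [refl_apply, HK.coeff_C_mul, T_apply, Finsupp.single_apply]
  by_cases h : i = -j
  · rw [if_pos h, if_pos (by omega)]; simp
  · rw [if_neg h, if_neg (by omega)]; simp

lemma Lfun_mul (m : ℤ → ℂ) (g h : R) :
    Lfun m (g * h) = h.coeff.sum fun k b => b * (mulPoly m (refl g) k).re := by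
  induction g using LaurentPolynomial.induction_on' with
  | add p q hp hq =>
    rw [add_mul, map_add, hp, hq, refl_add, mulPoly_add, ← Finsupp.sum_add]
    apply Finsupp.sum_congr
    intro k _
    rw [Pi.add_apply, Complex.add_re]; ring
  | C_mul_T i a =>
    induction h using LaurentPolynomial.induction_on' with
    | add p q hp hq =>
      rw [mul_add, map_add, hp, hq, AddMonoidAlgebra.coeff_add]
      symm
      apply Finsupp.sum_add_index'
      · intro k; simp
      · intro k x y; ring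
    | C_mul_T j b =>
      have e : C a * T i * (C b * T j) = C (a * b) * (T (i + j) : R) := by
        rw [T_add, map_mul]; ring
      have e2 : (C b * T j : R).coeff = Finsupp.single j b := by
        rw [← single_eq_C_mul_T]; rfl
      rw [e, Lfun_mono, e2, Finsupp.sum_single_index (by simp), refl_mono]
      unfold mulPoly
      rw [Finsupp.sum_single_index (by simp)]
      rw [show j - -i = i + j by ring]
      simp
      ring

lemma lpNorm_refl {p : ℝ≥0∞} (hp0 : p ≠ 0) (hpt : p ≠ ∞) (g : R) :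
    lpNorm p (refl g) = ENNReal.ofReal (Np p.toReal g ^ (1 / p.toReal)) := by
  have hP : 0 < p.toReal := ENNReal.toReal_pos hp0 hpt
  rw [lpNorm_eq hp0 hpt, ← ENNReal.ofReal_rpow_of_nonneg (HK.Np_nonneg _ _) (by positivity)]
  congr 1
  unfold Np
  rw [ENNReal.ofReal_tsum_of_nonneg (fun n => by positivity) (HK.summ hP g)]
  rw [← (Equiv.neg ℤ).tsum_eq]
  apply tsum_congr
  intro n
  rw [refl_apply]
  simp only [Equiv.neg_apply, neg_neg]
  rw [← ENNReal.ofReal_rpow_of_nonneg (abs_nonneg _) hP.le]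
  congr 1
  rw [← Real.norm_eq_abs, ofReal_norm]
  simp [enorm_eq_nnnorm]

lemma sum_le_lpNorm {p : ℝ≥0∞} (hp0 : p ≠ 0) (hpt : p ≠ ∞) (F : ℤ → ℂ) (s : Finset ℤ) :
    ENNReal.ofReal ((∑ k ∈ s, ‖F k‖ ^ p.toReal) ^ (1 / p.toReal)) ≤ lpNorm p F := by
  have hP : 0 < p.toReal := ENNReal.toReal_pos hp0 hpt
  rw [lpNorm_eq hp0 hpt, ← ENNReal.ofReal_rpow_of_nonneg (by positivity) (by positivity)]
  apply ENNReal.rpow_le_rpow _ (by positivity)
  rw [ENNReal.ofReal_sum_of_nonneg (fun n _ => by positivity)]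
  refine le_trans (le_of_eq ?_) (ENNReal.sum_le_tsum s)
  apply Finset.sum_congr rfl
  intro k _
  rw [← ENNReal.ofReal_rpow_of_nonneg (norm_nonneg _) hP.le, ofReal_norm]

theorem bilin {p : ℝ≥0∞} (hp0 : p ≠ 0) (hpt : p ≠ ∞) {Q : ℝ}
    (hPQ : p.toReal.HolderConjugate Q) {m : ℤ → ℂ} {K : ℝ≥0}
    (hK : ∀ u : ℤ →₀ ℂ, lpNorm p (mulPoly m u) ≤ K * lpNorm p u) (g h : R) :
    |Lfun m (g * h)| ≤ K * Np p.toReal g ^ (1 / p.toReal) * Np Q h ^ (1 / Q) := by
  set P := p.toReal with hPdef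
  have hP : 0 < P := hPQ.pos
  have hQ : 0 < Q := hPQ.symm.pos
  set F := mulPoly m (refl g) with hF
  have h1 : (∑ k ∈ h.coeff.support, ‖F k‖ ^ P) ^ (1 / P) ≤ K * Np P g ^ (1 / P) := by
    have h2 := (sum_le_lpNorm hp0 hpt F h.coeff.support).trans (hK (refl g))
    rw [lpNorm_refl hp0 hpt, ← hPdef, ← ENNReal.ofReal_coe_nnreal,
      ← ENNReal.ofReal_mul (by positivity)] at h2
    have hnn : 0 ≤ Np P g ^ (1 / P) := Real.rpow_nonneg (HK.Np_nonneg _ _) _
    exact (ENNReal.ofReal_le_ofReal_iff (by positivity)).mp h2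
  have h3 : ∑ k ∈ h.coeff.support, |h.coeff k| ^ Q = Np Q h := by
    unfold Np
    rw [tsum_eq_sum]
    intro n hn
    rw [Finsupp.notMem_support_iff.mp hn, abs_zero, Real.zero_rpow hQ.ne']
  rw [Lfun_mul, Finsupp.sum]
  calc |∑ k ∈ h.coeff.support, h.coeff k * (F k).re|
      ≤ ∑ k ∈ h.coeff.support, |h.coeff k * (F k).re| := Finset.abs_sum_le_sum_abs _ _
    _ ≤ ∑ k ∈ h.coeff.support, ‖F k‖ * |h.coeff k| := by
        apply Finset.sum_le_sum
        intro k _
        rw [abs_mul, mul_comm]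
        gcongr
        exact Complex.abs_re_le_norm _
    _ ≤ (∑ k ∈ h.coeff.support, |‖F k‖| ^ P) ^ (1 / P) *
        (∑ k ∈ h.coeff.support, |(|h.coeff k|)| ^ Q) ^ (1 / Q) :=
        Real.inner_le_Lp_mul_Lq _ _ _ hPQ
    _ = (∑ k ∈ h.coeff.support, ‖F k‖ ^ P) ^ (1 / P) * Np Q h ^ (1 / Q) := by
        simp only [abs_norm, abs_abs]
        rw [h3]
    _ ≤ K * Np P g ^ (1 / P) * Np Q h ^ (1 / Q) := by
        have : 0 ≤ Np Q h ^ (1 / Q) := Real.rpow_nonneg (HK.Np_nonneg _ _) _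
        gcongr

/-! ### assembly -/

lemma lac_of_strictMono {e : ℕ → ℕ} (he : StrictMono e) : HK.Lac (fun k => (4 : ℤ) ^ e k) := by
  intro k
  unfold HK.W
  induction k with
  | zero => simp
  | succ k ih =>
    rw [Finset.sum_range_succ]
    have h1 := HK5.pow4_lt (he (Nat.lt_succ_self k))
    change 3 * (∑ x ∈ Finset.range k, (4 : ℤ) ^ e x + 4 ^ e k) < 4 ^ e (k + 1)
    change 3 * (∑ x ∈ Finset.range k, (4 : ℤ) ^ e x) < 4 ^ e k at ih
    change 4 * (4 : ℤ) ^ e k ≤ 4 ^ e (k + 1) at h1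
    omega

/-- the coefficients -/
noncomputable def cc (r : ℝ) (N : ℕ → ℕ) (e : ℕ) : ℝ :=
  if (Nat.unpair e).2 < N (Nat.unpair e).1 then
    (1 / 2) ^ (Nat.unpair e).1 * ((N (Nat.unpair e).1 : ℝ)) ^ (-(1 / r)) else 0

lemma cc_nonneg (r : ℝ) (N : ℕ → ℕ) (e : ℕ) : 0 ≤ cc r N e := by
  unfold cc; split_ifs <;> positivity

lemma cc_le_one {r : ℝ} (hr : 0 < r) {N : ℕ → ℕ} (hN : ∀ i, 1 ≤ N i) (e : ℕ) : cc r N e ≤ 1 := by
  unfold cc
  split_ifs
  · have h1 : ((1 : ℝ) / 2) ^ (Nat.unpair e).1 ≤ 1 := pow_le_one₀ (by norm_num) (by norm_num)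
    have h2 : (N (Nat.unpair e).1 : ℝ) ^ (-(1 / r)) ≤ 1 :=
      Real.rpow_le_one_of_one_le_of_nonpos (by exact_mod_cast hN _) (by
        have : 0 ≤ 1 / r := by positivity
        linarith)
    have h3 : 0 ≤ (N (Nat.unpair e).1 : ℝ) ^ (-(1 / r)) := by positivity
    nlinarith
  · norm_num

lemma cc_summable {r : ℝ} (hr : 0 < r) {N : ℕ → ℕ} (hN : ∀ i, 1 ≤ N i) :
    Summable (fun e => cc r N e ^ r) := by
  have h1 : Summable (fun x : ℕ × ℕ => cc r N (Nat.pair x.1 x.2) ^ r) := by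
    rw [summable_prod_of_nonneg (fun x => Real.rpow_nonneg (cc_nonneg _ _ _) _)]
    have hval : ∀ i k, cc r N (Nat.pair i k) ^ r =
        if k < N i then ((1 / 2 : ℝ) ^ r) ^ i * (N i : ℝ)⁻¹ else 0 := by
      intro i k
      unfold cc
      rw [Nat.unpair_pair]
      simp only
      split_ifs with hk
      · rw [Real.mul_rpow (by positivity) (by positivity), ← Real.rpow_mul (by positivity)]
        congr 1
        · rw [← Real.rpow_natCast, ← Real.rpow_mul (by norm_num), mul_comm,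
            Real.rpow_mul (by norm_num), Real.rpow_natCast]
        · rw [show -(1 / r) * r = -1 by field_simp, Real.rpow_neg_one]
      · exact Real.zero_rpow hr.ne'
    simp only [hval]
    constructor
    · intro i
      apply summable_of_ne_finset_zero (s := Finset.range (N i))
      intro k hk
      rw [Finset.mem_range, not_lt] at hk
      rw [if_neg (by omega)]
    · have hsum : ∀ i, ∑' k, (if k < N i then ((1 / 2 : ℝ) ^ r) ^ i * (N i : ℝ)⁻¹ else 0) =
          ((1 / 2 : ℝ) ^ r) ^ i := by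
        intro i
        rw [tsum_eq_sum (s := Finset.range (N i))]
        · rw [Finset.sum_congr rfl (fun k hk => if_pos (Finset.mem_range.mp hk))]
          rw [Finset.sum_const, Finset.card_range, nsmul_eq_mul]
          have : (N i : ℝ) ≠ 0 := by
            have := hN i
            positivity
          field_simp
        · intro k hk
          rw [Finset.mem_range, not_lt] at hk
          rw [if_neg (by omega)]
      simp only [hsum]
      apply summable_geometric_of_lt_one (by positivity)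
      exact Real.rpow_lt_one (by norm_num) (by norm_num) hr
  have h2 := (Nat.pairEquiv.summable_iff (f := fun e => cc r N e ^ r)).mp h1
  exact h2

lemma cc_summable' {r t : ℝ} (hr : 0 < r) (hrt : r ≤ t) {N : ℕ → ℕ} (hN : ∀ i, 1 ≤ N i) :
    Summable (fun e => cc r N e ^ t) := by
  apply Summable.of_nonneg_of_le _ _ (cc_summable hr hN)
  · intro e; exact Real.rpow_nonneg (cc_nonneg _ _ _) _
  · intro e
    rcases (cc_nonneg r N e).eq_or_lt with h | h
    · rw [← h, Real.zero_rpow (by linarith), Real.zero_rpow hr.ne']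
    · exact Real.rpow_le_rpow_of_exponent_ge h (cc_le_one hr hN e) hrt

lemma tsum_enorm_ne_top {c : ℕ → ℝ} {t : ℝ} (ht : 0 < t) (hc : ∀ e, 0 ≤ c e)
    (h : Summable (fun e => c e ^ t)) : ∑' e, ‖c e‖ₑ ^ t ≠ ∞ := by
  have : ∀ e, ‖c e‖ₑ ^ t = ENNReal.ofReal (c e ^ t) := by
    intro e
    rw [← ENNReal.ofReal_rpow_of_nonneg (hc e) ht.le, ← ofReal_norm, Real.norm_eq_abs,
      abs_of_nonneg (hc e)]
  simp only [this]
  exact h.tsum_ofReal_ne_top

/-- the core statement in terms of conjugate exponents `r < s` -/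
theorem core {r s : ℝ} (hr : 1 < r) (hrs : 1 / r + 1 / s = 1) (hlt : r < s) :
    ∃ c : ℕ → ℝ, (∀ e, 0 ≤ c e) ∧ (∀ t, r ≤ t → Summable (fun e => c e ^ t)) ∧
      ∀ m : ℤ → ℂ, (∀ j : ℤ, 0 ≤ j → m j = sym c j) → ∀ K : ℝ, 0 ≤ K →
        ¬ ∀ g g' : R, |Lfun m (g * g')| ≤ K * Np r g ^ (1 / r) * Np s g' ^ (1 / s) := by
  have hr0 : 0 < r := by linarith
  have hs0 : 0 < s := by linarith
  have hY : ∀ i : ℕ, (0 : ℝ) < (4 ^ i) ^ s := fun i => by positivity
  choose N hN1 hN using fun i : ℕ => HK.block hr hrs hlt (hY i)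
  refine ⟨cc r N, cc_nonneg r N, fun t ht => cc_summable' hr0 ht hN1, ?_⟩
  intro m hm K hK hL
  have key : ∀ i : ℕ, (2 : ℝ) ^ i ≤ 3 * K := by
    intro i
    have hmono : StrictMono (fun k => Nat.pair i k) := by
      intro a b hab
      exact Nat.pair_lt_pair_right i hab
    have hpos : ∀ j : ℤ, 0 ≤ j → 0 ≤ Lfun m (T j) := by
      intro j hj
      rw [Lfun_T, hm j hj]
      by_cases hj' : j ∈ Set.range (fun e : ℕ => (4 : ℤ) ^ e)
      · obtain ⟨e, rfl⟩ := hj'
        simp only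
        rw [sym_pow, Complex.ofReal_re]
        exact cc_nonneg _ _ _
      · rw [sym_of_notMem _ _ hj']; simp
    have hb := hN i (fun k => (4 : ℤ) ^ Nat.pair i k) (lac_of_strictMono hmono) (Lfun m) hpos K hK hL
      ((1 / 2) ^ i) (by
        intro k hk
        rw [Lfun_T, hm _ (by positivity), sym_pow, Complex.ofReal_re]
        unfold cc
        rw [Nat.unpair_pair]
        simp only
        rw [if_pos hk])
    rw [← Real.rpow_mul (by positivity), mul_one_div_cancel hs0.ne', Real.rpow_one,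
      ← mul_pow] at hb
    norm_num at hb
    exact hb
  obtain ⟨i, hi⟩ := pow_unbounded_of_one_lt (3 * K) (show (1 : ℝ) < 2 by norm_num)
  linarith [key i]

end Pool.Agent.H667R2.HankelLp
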