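import Mathlib

/-!
# Hankel operators from `ℓ^p A` to `ℓ^p`: definitions

A distribution on the circle is represented by the two-sided sequence `a : ℤ → ℂ` of its
Fourier coefficients, a trigonometric polynomial by the finitely supported sequence
`u : ℤ →₀ ℂ` of its Fourier coefficients.
-/

namespace Pool.Agent.H667R2.HankelLp

open MeasureTheory
open scoped ENNReal NNReal

/-- The `ℓ^p` norm of a distribution: the `ℓ^p(ℤ)` norm (with values in `[0,∞]`) of the sequence
`a` of its Fourier coefficients, that is, the `L^p` norm of `a` for the counting measure. -/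
noncomputable def lpNorm (p : ℝ≥0∞) (a : ℤ → ℂ) : ℝ≥0∞ := eLpNorm a p Measure.count

/-- Fourier coefficients of the product of the distribution with Fourier coefficients `a` and the
trigonometric polynomial with Fourier coefficients `u`: the convolution
`n ↦ ∑ j, a (n - j) * u j` (a finite sum). -/
noncomputable def mulPoly (a : ℤ → ℂ) (u : ℤ →₀ ℂ) : ℤ → ℂ :=
  fun n => u.sum fun j c => a (n - j) * c

/-- Fourier coefficients of the complex conjugate of the distribution with coefficients `a`. -/
noncomputable def conjCoeff (a : ℤ → ℂ) : ℤ → ℂ := fun n => starRingEnd ℂ (a (-n))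

/-- The Riesz projection `P_+`: keep the Fourier coefficients of nonnegative index. -/
noncomputable def rieszProj (a : ℤ → ℂ) : ℤ → ℂ := fun n => if 0 ≤ n then a n else 0

/-- The Hankel operator `H_f g = (I - P_+)(conj f * g)` on a (trigonometric) polynomial `g`. -/
noncomputable def hankel (f : ℤ → ℂ) (g : ℤ →₀ ℂ) : ℤ → ℂ :=
  mulPoly (conjCoeff f) g - rieszProj (mulPoly (conjCoeff f) g)

/-- `H_f` acts from `ℓ^p A` to `ℓ^p`: there is `C` such that `‖H_f g‖ ≤ C ‖g‖` for all analytic
polynomials `g`. -/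
def HankelActs (p : ℝ≥0∞) (f : ℤ → ℂ) : Prop :=
  ∃ C : ℝ≥0, ∀ g : ℤ →₀ ℂ, (∀ n < 0, g n = 0) → lpNorm p (hankel f g) ≤ C * lpNorm p g

/-- `m` is (the sequence of Fourier coefficients of) a multiplier of `ℓ^p`: there is `C` such that
`‖m u‖ ≤ C ‖u‖` for all trigonometric polynomials `u`. -/
def IsMultiplier (p : ℝ≥0∞) (m : ℤ → ℂ) : Prop :=
  ∃ C : ℝ≥0, ∀ u : ℤ →₀ ℂ, lpNorm p (mulPoly m u) ≤ C * lpNorm p u

end Pool.Agent.H667R2.HankelLp
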