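import Mathlib

set_option autoImplicit false
open Complex Filter Topology MeasureTheory FourierTransform
open scoped InnerProductSpace SchwartzMap ENNReal ContDiff Convolution

namespace Pool.Agent.H667R2.PartC

section planch
variable {H : Type*} [NormedAddCommGroup H] [InnerProductSpace ℂ H] [CompleteSpace H]

lemma fourier_toLp_ae (h : ℝ → H) (h1 : Integrable h) (h2 : MemLp h 2) :
    (𝓕 (h2.toLp h : Lp (α := ℝ) H 2) : Lp (α := ℝ) H 2) =ᵐ[volume] 𝓕 h := by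
  apply ae_eq_of_integral_contDiff_smul_eq
  · exact (Lp.memLp _).locallyIntegrable (by norm_num)
  · apply Continuous.locallyIntegrable
    exact VectorFourier.fourierIntegral_continuous Real.continuous_fourierChar
      (innerSL ℝ).continuous₂ h1
  · intro g g_smooth g_cpt
    have hg₁ : HasCompactSupport (Complex.ofRealCLM ∘ g) := g_cpt.comp_left rfl
    have hg₂ : ContDiff ℝ ∞ (Complex.ofRealCLM ∘ g) := by fun_prop
    set G : 𝓢(ℝ, ℂ) := hg₁.toSchwartzMap hg₂ with hG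
    have e1 : ∫ x, g x • (𝓕 (h2.toLp h : Lp (α := ℝ) H 2) : Lp (α := ℝ) H 2) x
        = (Lp.toTemperedDistribution (𝓕 (h2.toLp h : Lp (α := ℝ) H 2) : Lp (α := ℝ) H 2)) G := by
      rw [Lp.toTemperedDistribution_apply]
      simp [hG]
    rw [e1, ← Lp.fourier_toTemperedDistribution_eq, TemperedDistribution.fourier_apply,
      Lp.toTemperedDistribution_apply]
    have e2 : ∫ x, (𝓕 G) x • (h2.toLp h : Lp (α := ℝ) H 2) x = ∫ x, (𝓕 (G : ℝ → ℂ)) x • h x := by
      apply integral_congr_ae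
      filter_upwards [h2.coeFn_toLp] with x hx
      rw [hx]
      rfl
    rw [e2]
    have e3 : ∫ x, (𝓕 (G : ℝ → ℂ)) x • h x = ∫ x, (G x) • (𝓕 h) x := by
      simpa using! (VectorFourier.integral_fourierIntegral_smul_eq_flip (L := innerₗ ℝ)
        Real.continuous_fourierChar continuous_inner G.integrable h1)
    rw [e3]
    apply integral_congr_ae
    filter_upwards with x
    simp [hG]

lemma fourier_eLpNorm (h : ℝ → H) (h1 : Integrable h) (h2 : MemLp h 2) :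
    MemLp (𝓕 h) 2 ∧ eLpNorm (𝓕 h) 2 volume = eLpNorm h 2 volume := by
  constructor
  · exact (memLp_congr_ae (fourier_toLp_ae h h1 h2)).1 (Lp.memLp _)
  · have e1 : ‖(𝓕 (h2.toLp h : Lp (α := ℝ) H 2) : Lp (α := ℝ) H 2)‖ₑ = ‖(h2.toLp h : Lp (α := ℝ) H 2)‖ₑ := by
      rw [← ofReal_norm, ← ofReal_norm, Lp.norm_fourier_eq]
    rw [Lp.enorm_def, Lp.enorm_def, eLpNorm_congr_ae (fourier_toLp_ae h h1 h2),
      eLpNorm_congr_ae h2.coeFn_toLp] at e1
    exact e1

lemma fourier_converse (h : ℝ → H) (h1 : Integrable h) (h2 : MemLp (𝓕 h) 2) : MemLp h 2 := by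
  have key : (𝓕⁻ (h2.toLp (𝓕 h) : Lp (α := ℝ) H 2) : Lp (α := ℝ) H 2) =ᵐ[volume] h := by
    apply ae_eq_of_integral_contDiff_smul_eq
    · exact (Lp.memLp _).locallyIntegrable (by norm_num)
    · exact h1.locallyIntegrable
    · intro g g_smooth g_cpt
      have hg₁ : HasCompactSupport (Complex.ofRealCLM ∘ g) := g_cpt.comp_left rfl
      have hg₂ : ContDiff ℝ ∞ (Complex.ofRealCLM ∘ g) := by fun_prop
      set G : 𝓢(ℝ, ℂ) := hg₁.toSchwartzMap hg₂ with hG
      have e1 : ∫ x, g x • (𝓕⁻ (h2.toLp (𝓕 h) : Lp (α := ℝ) H 2) : Lp (α := ℝ) H 2) x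
          = (Lp.toTemperedDistribution (𝓕⁻ (h2.toLp (𝓕 h) : Lp (α := ℝ) H 2) : Lp (α := ℝ) H 2)) G := by
        rw [Lp.toTemperedDistribution_apply]
        simp [hG]
      rw [e1, ← Lp.fourierInv_toTemperedDistribution_eq, TemperedDistribution.fourierInv_apply,
        Lp.toTemperedDistribution_apply]
      have e2 : ∫ x, (𝓕⁻ G) x • (h2.toLp (𝓕 h) : Lp (α := ℝ) H 2) x = ∫ x, (𝓕⁻ G : 𝓢(ℝ, ℂ)) x • (𝓕 h) x := by
        apply integral_congr_ae
        filter_upwards [h2.coeFn_toLp] with x hx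
        rw [hx]
      rw [e2]
      have e3 : ∫ x, (𝓕 ((𝓕⁻ G : 𝓢(ℝ, ℂ)) : ℝ → ℂ)) x • h x = ∫ x, ((𝓕⁻ G : 𝓢(ℝ, ℂ)) x) • (𝓕 h) x := by
        simpa using! (VectorFourier.integral_fourierIntegral_smul_eq_flip (L := innerₗ ℝ)
          Real.continuous_fourierChar continuous_inner (𝓕⁻ G : 𝓢(ℝ, ℂ)).integrable h1)
      rw [← e3]
      apply integral_congr_ae
      filter_upwards with x
      have : 𝓕 ((𝓕⁻ G : 𝓢(ℝ, ℂ)) : ℝ → ℂ) x = G x := by
        rw [← SchwartzMap.fourier_coe]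
        simp
      rw [this]
      simp [hG]
  exact (memLp_congr_ae key).1 (Lp.memLp _)

lemma fourier_inj (h : ℝ → H) (h1 : Integrable h) (h2 : ∀ ξ, 𝓕 h ξ = 0) : h =ᵐ[volume] 0 := by
  have key : h =ᵐ[volume] (fun _ => (0:H)) := by
    apply ae_eq_of_integral_contDiff_smul_eq
    · exact h1.locallyIntegrable
    · exact locallyIntegrable_zero
    · intro g g_smooth g_cpt
      have hg₁ : HasCompactSupport (Complex.ofRealCLM ∘ g) := g_cpt.comp_left rfl
      have hg₂ : ContDiff ℝ ∞ (Complex.ofRealCLM ∘ g) := by fun_prop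
      set G : 𝓢(ℝ, ℂ) := hg₁.toSchwartzMap hg₂ with hG
      have e3 : ∫ x, (𝓕 ((𝓕⁻ G : 𝓢(ℝ, ℂ)) : ℝ → ℂ)) x • h x = ∫ x, ((𝓕⁻ G : 𝓢(ℝ, ℂ)) x) • (𝓕 h) x := by
        simpa using! (VectorFourier.integral_fourierIntegral_smul_eq_flip (L := innerₗ ℝ)
          Real.continuous_fourierChar continuous_inner (𝓕⁻ G : 𝓢(ℝ, ℂ)).integrable h1)
      have e4 : ∫ x, g x • h x = ∫ x, (𝓕 ((𝓕⁻ G : 𝓢(ℝ, ℂ)) : ℝ → ℂ)) x • h x := by
        apply integral_congr_ae
        filter_upwards with x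
        have : 𝓕 ((𝓕⁻ G : 𝓢(ℝ, ℂ)) : ℝ → ℂ) x = G x := by
          rw [← SchwartzMap.fourier_coe]
          simp
        rw [this]
        simp [hG]
      rw [e4, e3]
      simp [h2]
  exact key
end planch

end Pool.Agent.H667R2.PartC
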