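import Mathlib
import Pool.Agent.H667R2.PartC1

set_option autoImplicit false
set_option linter.unusedSectionVars false
open Complex Filter Topology MeasureTheory FourierTransform
open scoped InnerProductSpace SchwartzMap ENNReal ContDiff Convolution

namespace Pool.Agent.H667R2.PartC

section conv
variable {V : Type*} [NormedAddCommGroup V] [InnerProductSpace ℂ V] [FiniteDimensional ℂ V]
  [CompleteSpace V]

/-- evaluation as a bilinear map -/
noncomputable abbrev BB (V : Type*) [NormedAddCommGroup V] [InnerProductSpace ℂ V] :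
    (V →L[ℂ] V) →L[ℂ] V →L[ℂ] V := ContinuousLinearMap.id ℂ (V →L[ℂ] V)

noncomputable def Kop (κ : ℂ) (k : ℝ → V →L[ℂ] V) (f : ℝ → V) : ℝ → V :=
  fun t => κ • f t + (k ⋆[BB V, volume] f) t

lemma integrable_Kop {κ : ℂ} {k : ℝ → V →L[ℂ] V} (hk : Integrable k) {f : ℝ → V}
    (hf : Integrable f) : Integrable (Kop κ k f) :=
  (hf.smul κ).add (hk.integrable_convolution (BB V) hf)

lemma fourier_Kop {κ : ℂ} {k : ℝ → V →L[ℂ] V} (hk : Integrable k) {f : ℝ → V}
    (hf : Integrable f) (ξ : ℝ) : 𝓕 (Kop κ k f) ξ = κ • 𝓕 f ξ + (𝓕 k ξ) (𝓕 f ξ) := by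
  have h1 : (𝓕 k ξ) (𝓕 f ξ) = 𝓕 (k ⋆[BB V, volume] f) ξ := by
    rw [Real.fourier_bilin_convolution_eq (BB V) hk hf]; rfl
  rw [h1]
  simp only [Real.fourier_eq, Kop]
  rw [← integral_smul, ← integral_add]
  · congr 1; ext t
    simp only [smul_add, Circle.smul_def]
    rw [smul_comm]
  · exact ((Real.fourierIntegral_convergent_iff ξ).2 hf).smul κ
  · exact (Real.fourierIntegral_convergent_iff ξ).2 (hk.integrable_convolution (BB V) hf)

lemma continuous_fourier {H : Type*} [NormedAddCommGroup H] [NormedSpace ℂ H] {f : ℝ → H}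
    (hf : Integrable f) : Continuous (𝓕 f) :=
  VectorFourier.fourierIntegral_continuous Real.continuous_fourierChar
      (innerSL ℝ).continuous₂ hf

lemma Kop_L2 {κ : ℂ} {k : ℝ → V →L[ℂ] V} (hk : Integrable k) {ρ : ℝ}
    (hs : ∀ ξ u, ‖κ • u + (𝓕 k ξ) u‖ ≤ ρ * ‖u‖) {f : ℝ → V} (hf : Integrable f)
    (hf2 : MemLp f 2) : MemLp (Kop κ k f) 2 ∧
      eLpNorm (Kop κ k f) 2 volume ≤ ENNReal.ofReal ρ * eLpNorm f 2 volume := by
  have hF := fourier_eLpNorm f hf hf2
  have hb : ∀ ξ, ‖𝓕 (Kop κ k f) ξ‖ ≤ ρ * ‖𝓕 f ξ‖ := by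
    intro ξ; rw [fourier_Kop hk hf]; exact hs ξ _
  have hm : MemLp (𝓕 (Kop κ k f)) 2 := by
    refine MemLp.of_le_mul (c := ρ) hF.1 ?_ (Eventually.of_forall hb)
    exact (continuous_fourier (integrable_Kop hk hf)).aestronglyMeasurable
  have h2 := fourier_converse _ (integrable_Kop hk hf) hm
  refine ⟨h2, ?_⟩
  rw [← (fourier_eLpNorm _ (integrable_Kop hk hf) h2).2, ← hF.2]
  exact eLpNorm_le_mul_eLpNorm_of_ae_le_mul (Eventually.of_forall hb) 2

lemma conv_norm_integral {k : ℝ → V →L[ℂ] V} (hk : Integrable k) {f : ℝ → V}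
    (hf : Integrable f) : ∫ t, ‖(k ⋆[BB V, volume] f) t‖ ≤ (∫ t, ‖k t‖) * ∫ t, ‖f t‖ := by
  have h1 : ∫ t, ((fun t => ‖k t‖) ⋆[ContinuousLinearMap.mul ℝ ℝ, volume] (fun t => ‖f t‖)) t
      = (∫ t, ‖k t‖) * ∫ t, ‖f t‖ := by
    rw [integral_convolution _ hk.norm hf.norm]; rfl
  rw [← h1]
  refine integral_mono_ae (hk.integrable_convolution (BB V) hf).norm
    (hk.norm.integrable_convolution _ hf.norm) ?_
  filter_upwards [hk.norm.ae_convolution_exists (ContinuousLinearMap.mul ℝ ℝ) hf.norm] with t ht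
  simp only [convolution_def]
  refine (norm_integral_le_integral_norm _).trans ?_
  refine integral_mono_of_nonneg (Eventually.of_forall fun _ => norm_nonneg _) ht ?_
  exact Eventually.of_forall fun s => by
    simpa using (k s).le_opNorm (f (t - s))

noncomputable abbrev Pos {H : Type*} [Zero H] (f : ℝ → H) : ℝ → H := Set.indicator (Set.Ici 0) f

lemma integrable_PK {κ : ℂ} {k : ℝ → V →L[ℂ] V} (hk : Integrable k) {f : ℝ → V}
    (hf : Integrable f) : Integrable (Pos (Kop κ k f)) :=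
  (integrable_Kop (κ := κ) hk hf).indicator measurableSet_Ici

lemma Kop_congr {κ : ℂ} {k : ℝ → V →L[ℂ] V} {f g : ℝ → V} (h : f =ᵐ[volume] g) :
    Kop κ k f =ᵐ[volume] Kop κ k g := by
  have : k ⋆[BB V, volume] f = k ⋆[BB V, volume] g := convolution_congr _ (ae_eq_refl k) h
  filter_upwards [h] with t ht
  simp [Kop, this, ht]

lemma Kop_add {κ : ℂ} {k : ℝ → V →L[ℂ] V} (hk : Integrable k) {f g : ℝ → V}
    (hf : Integrable f) (hg : Integrable g) :
    Kop κ k (f + g) =ᵐ[volume] Kop κ k f + Kop κ k g := by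
  filter_upwards [hk.ae_convolution_exists (BB V) hf, hk.ae_convolution_exists (BB V) hg]
    with t h1 h2
  simp only [Kop, Pi.add_apply, h1.distrib_add h2, smul_add]
  abel

lemma Kop_smul {κ : ℂ} {k : ℝ → V →L[ℂ] V} (c : ℂ) {f : ℝ → V} :
    Kop κ k (c • f) = c • Kop κ k f := by
  ext t
  simp only [Kop, Pi.smul_apply, convolution_smul, smul_add]
  rw [smul_comm]

/-- the compressed operator on `L¹` -/
noncomputable def TT (κ : ℂ) (k : ℝ → V →L[ℂ] V) (hk : Integrable k) :
    (ℝ →₁[volume] V) →L[ℂ] (ℝ →₁[volume] V) :=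
  LinearMap.mkContinuous
    { toFun := fun f => (integrable_PK (κ := κ) hk (L1.integrable_coeFn f)).toL1 _
      map_add' := by
        intro f g
        rw [← Integrable.toL1_add]
        apply (Integrable.toL1_eq_toL1_iff _ _ _ _).2
        filter_upwards [Kop_congr (κ := κ) (k := k) (Lp.coeFn_add f g),
          Kop_add (κ := κ) hk (L1.integrable_coeFn f) (L1.integrable_coeFn g)] with t h1 h2
        by_cases ht : t ∈ Set.Ici (0:ℝ)
        · simp only [Set.indicator_of_mem ht, Pi.add_apply] at *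
          rw [h1, h2]
        · simp [Set.indicator_of_notMem ht]
      map_smul' := by
        intro c f
        simp only [RingHom.id_apply]
        rw [← Integrable.toL1_smul]
        apply (Integrable.toL1_eq_toL1_iff _ _ _ _).2
        filter_upwards [Kop_congr (κ := κ) (k := k) (Lp.coeFn_smul c f)] with t h1
        by_cases ht : t ∈ Set.Ici (0:ℝ)
        · simp only [Set.indicator_of_mem ht, Pi.smul_apply] at *
          rw [h1, Kop_smul, Pi.smul_apply]
        · simp [Set.indicator_of_notMem ht] }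
    (‖κ‖ + ∫ t, ‖k t‖) (by
      intro f
      simp only [LinearMap.coe_mk, AddHom.coe_mk]
      rw [L1.norm_of_fun_eq_integral_norm, L1.norm_eq_integral_norm]
      have h0 : ∫ t, ‖Pos (Kop κ k f) t‖ ≤ ∫ t, ‖Kop κ k f t‖ := by
        refine integral_mono (integrable_PK hk (L1.integrable_coeFn f)).norm
          (integrable_Kop hk (L1.integrable_coeFn f)).norm ?_
        intro t
        exact norm_indicator_le_norm_self _ _
      refine h0.trans ?_
      have h2 : ∫ t, ‖Kop κ k f t‖ ≤ ∫ t, (‖κ‖ * ‖f t‖ + ‖(k ⋆[BB V, volume] f) t‖) := by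
        refine integral_mono (integrable_Kop hk (L1.integrable_coeFn f)).norm
          (((L1.integrable_coeFn f).norm.const_mul _).add
            (hk.integrable_convolution (BB V) (L1.integrable_coeFn f)).norm) ?_
        intro t
        refine (norm_add_le _ _).trans ?_
        simp [norm_smul]
      refine h2.trans ?_
      rw [integral_add ((L1.integrable_coeFn f).norm.const_mul _)
            (hk.integrable_convolution (BB V) (L1.integrable_coeFn f)).norm, integral_const_mul,
            add_mul]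
      gcongr
      exact conv_norm_integral hk (L1.integrable_coeFn f))

lemma TT_toL1 {κ : ℂ} {k : ℝ → V →L[ℂ] V} (hk : Integrable k) {f : ℝ → V} (hf : Integrable f) :
    TT κ k hk (hf.toL1 f) = (integrable_PK (κ := κ) hk hf).toL1 _ := by
  simp only [TT, LinearMap.mkContinuous_apply, LinearMap.coe_mk, AddHom.coe_mk]
  apply (Integrable.toL1_eq_toL1_iff _ _ _ _).2
  filter_upwards [Kop_congr (κ := κ) (k := k) (hf.coeFn_toL1)] with t h1
  by_cases ht : t ∈ Set.Ici (0:ℝ)
  · simp only [Set.indicator_of_mem ht] at *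
    rw [h1]
  · simp [Set.indicator_of_notMem ht]

lemma TT_coe {κ : ℂ} {k : ℝ → V →L[ℂ] V} (hk : Integrable k) (f : ℝ →₁[volume] V) :
    TT κ k hk f =ᵐ[volume] Pos (Kop κ k f) := by
  simp only [TT, LinearMap.mkContinuous_apply, LinearMap.coe_mk, AddHom.coe_mk]
  exact Integrable.coeFn_toL1 _

lemma TT_norm {κ : ℂ} {k : ℝ → V →L[ℂ] V} (hk : Integrable k) :
    ‖TT κ k hk‖ ≤ ‖κ‖ + ∫ t, ‖k t‖ :=
  LinearMap.mkContinuous_norm_le _ (by positivity) _

lemma neumann {B : Type*} [NormedAddCommGroup B] [NormedSpace ℂ B] [CompleteSpace B]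
    (T : B →L[ℂ] B) (v : ℕ → B) (hv : ∀ n, v (n+1) = T (v n))
    (hs : Summable (fun n => ‖v n‖)) : ∃ z, z = v 0 + T z := by
  refine ⟨∑' n, v n, ?_⟩
  have h := hs.of_norm
  rw [T.map_tsum h]
  conv_lhs => rw [h.tsum_eq_zero_add]
  simp [hv]

end conv

end Pool.Agent.H667R2.PartC
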