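import Mathlib
import Pool.Agent.H667R2.PartC2

set_option autoImplicit false
set_option linter.unusedSectionVars false
open Complex Filter Topology MeasureTheory FourierTransform
open scoped InnerProductSpace SchwartzMap ENNReal ContDiff Convolution

namespace Pool.Agent.H667R2.PartC

section solve
variable {V : Type*} [NormedAddCommGroup V] [InnerProductSpace ℂ V] [FiniteDimensional ℂ V]
  [CompleteSpace V]

/-- exponential twist -/
noncomputable def tw {H : Type*} [NormedAddCommGroup H] [NormedSpace ℝ H] (a : ℝ) (f : ℝ → H) :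
    ℝ → H := fun t => Real.exp (a * t) • f t

lemma tw_conv (a : ℝ) {E F G : Type*} [NormedAddCommGroup E] [NormedSpace ℂ E]
    [NormedAddCommGroup F] [NormedSpace ℂ F] [NormedAddCommGroup G] [NormedSpace ℂ G]
    (B : E →L[ℂ] F →L[ℂ] G)
    (k : ℝ → E) (f : ℝ → F) :
    (tw a k) ⋆[B, volume] (tw a f) = tw a (k ⋆[B, volume] f) := by
  ext t
  simp only [convolution_def, tw]
  rw [← integral_smul]
  congr 1; ext s
  have h1 : ∀ (r : ℝ) (x : E), r • x = (r:ℂ) • x := fun r x => (Complex.coe_smul r x).symm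
  have h2 : ∀ (r : ℝ) (x : F), r • x = (r:ℂ) • x := fun r x => (Complex.coe_smul r x).symm
  have h3 : ∀ (r : ℝ) (x : G), r • x = (r:ℂ) • x := fun r x => (Complex.coe_smul r x).symm
  rw [h1, h2, h3]
  simp only [map_smul, ContinuousLinearMap.smul_apply, smul_smul]
  congr 1
  rw [← Complex.ofReal_mul, ← Real.exp_add]
  ring_nf

lemma tw_tw {H : Type*} [NormedAddCommGroup H] [NormedSpace ℝ H] (a b : ℝ) (f : ℝ → H) :
    tw a (tw b f) = tw (a + b) f := by
  ext t; simp only [tw, smul_smul, ← Real.exp_add]; ring_nf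

lemma tw_zero {H : Type*} [NormedAddCommGroup H] [NormedSpace ℝ H] (f : ℝ → H) :
    tw 0 f = f := by
  ext t; simp [tw]

lemma tw_measurable {H : Type*} [NormedAddCommGroup H] [NormedSpace ℝ H] (a : ℝ) {f : ℝ → H}
    (hf : AEStronglyMeasurable f) : AEStronglyMeasurable (tw a f) := by
  apply AEStronglyMeasurable.smul _ hf
  fun_prop

lemma tw_neg_integrable {H : Type*} [NormedAddCommGroup H] [NormedSpace ℝ H] {a : ℝ} (ha : 0 ≤ a)
    {f : ℝ → H} (hf : Integrable f) (h0 : ∀ t < 0, f t = 0) : Integrable (tw (-a) f) := by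
  refine hf.mono (tw_measurable _ hf.1) (Eventually.of_forall fun t => ?_)
  by_cases ht : t < 0
  · simp [tw, h0 t ht]
  · push Not at ht
    simp only [tw, norm_smul, Real.norm_eq_abs, Real.abs_exp]
    have : Real.exp (-a * t) ≤ 1 := Real.exp_le_one_iff.2 (by nlinarith)
    nlinarith [norm_nonneg (f t)]

lemma cs_bound {a : ℝ} (ha : 0 < a) : ∃ C : ℝ, 0 ≤ C ∧ ∀ f : ℝ → V, MemLp f 2 →
    (∀ t < 0, f t = 0) → Integrable (tw (-a) f) ∧
      ∫ t, ‖tw (-a) f t‖ ≤ C * (eLpNorm f 2 volume).toReal := by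
  set φ : ℝ → ℝ := Set.indicator (Set.Ici 0) (fun t => Real.exp (-a * t)) with hφ
  have hφ2 : MemLp φ 2 := by
    rw [memLp_two_iff_integrable_sq]
    · have : (fun t => φ t ^ 2) = Set.indicator (Set.Ici 0) (fun t => Real.exp (-(2*a) * t)) := by
        ext t
        by_cases ht : t ∈ Set.Ici (0:ℝ)
        · simp only [hφ, Set.indicator_of_mem ht, ← Real.exp_nat_mul]
          congr 1; push_cast; ring
        · simp [hφ, Set.indicator_of_notMem ht]
      rw [this, integrable_indicator_iff measurableSet_Ici, integrableOn_Ici_iff_integrableOn_Ioi]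
      exact integrableOn_exp_mul_Ioi (by linarith) 0
    · exact (by fun_prop : Measurable (fun t : ℝ => Real.exp (-a * t))).aestronglyMeasurable.indicator measurableSet_Ici
  refine ⟨(eLpNorm φ 2 volume).toReal, ENNReal.toReal_nonneg, ?_⟩
  intro f hf h0
  have e : tw (-a) f = φ • f := by
    ext t
    by_cases ht : t < 0
    · simp [tw, h0 t ht]
    · push Not at ht
      simp [tw, hφ, Set.indicator_of_mem (show t ∈ Set.Ici (0:ℝ) from ht)]
  have h1 : eLpNorm (tw (-a) f) 1 volume ≤ eLpNorm φ 2 volume * eLpNorm f 2 volume := by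
    rw [e]
    exact eLpNorm_smul_le_mul_eLpNorm hf.1 hφ2.1
  have hfin : eLpNorm φ 2 volume * eLpNorm f 2 volume < ⊤ :=
    ENNReal.mul_lt_top hφ2.2 hf.2
  have hI : Integrable (tw (-a) f) := by
    rw [← memLp_one_iff_integrable]
    exact ⟨tw_measurable _ hf.1, h1.trans_lt hfin⟩
  refine ⟨hI, ?_⟩
  rw [integral_norm_eq_lintegral_enorm hI.1, ← eLpNorm_one_eq_lintegral_enorm, ← ENNReal.toReal_mul]
  exact ENNReal.toReal_mono hfin.ne h1

end solve

end Pool.Agent.H667R2.PartC
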