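import Mathlib
import Pool.Agent.H667R2.PartC3

set_option autoImplicit false
set_option linter.unusedSectionVars false
open Complex Filter Topology MeasureTheory FourierTransform
open scoped InnerProductSpace SchwartzMap ENNReal ContDiff Convolution

namespace Pool.Agent.H667R2.PartC

section solve
variable {V : Type*} [NormedAddCommGroup V] [InnerProductSpace ℂ V] [FiniteDimensional ℂ V]
  [CompleteSpace V]

/-- solution of `x + P(E ⋆ x) = P h` for small kernel -/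
lemma solve_small (E : ℝ → V →L[ℂ] V) (hE : Integrable E) (hE' : ∫ t, ‖E t‖ ≤ 1/2)
    (h : ℝ → V) (hh : Integrable h) : ∃ x : ℝ → V, Integrable x ∧ (∀ t < 0, x t = 0) ∧
      ∀ᵐ t, 0 ≤ t → x t + (E ⋆[BB V, volume] x) t = h t := by
  set k : ℝ → V →L[ℂ] V := -E with hk
  have hkI : Integrable k := hE.neg
  set T := TT 0 k hkI with hT
  have hTn : ‖T‖ ≤ 1/2 := by
    refine (TT_norm hkI).trans ?_
    simpa [hk] using hE'
  have hPh : Integrable (Pos h) := hh.indicator measurableSet_Ici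
  set v : ℕ → (ℝ →₁[volume] V) := fun n => (T^n) (hPh.toL1) with hv
  have hv1 : ∀ n, v (n+1) = T (v n) := by
    intro n; simp only [hv, pow_succ']; rfl
  have hvn : ∀ n, ‖v n‖ ≤ (1/2)^n * ‖v 0‖ := by
    intro n
    induction n with
    | zero => simp
    | succ n ih =>
      rw [hv1, pow_succ']
      calc ‖T (v n)‖ ≤ ‖T‖ * ‖v n‖ := T.le_opNorm _
        _ ≤ (1/2) * ((1/2)^n * ‖v 0‖) := by gcongr
        _ = _ := by ring
  have hs : Summable (fun n => ‖v n‖) := by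
    refine Summable.of_nonneg_of_le (fun _ => norm_nonneg _) hvn ?_
    exact (summable_geometric_of_lt_one (by norm_num) (by norm_num)).mul_right _
  obtain ⟨z, hz⟩ := neumann T v hv1 hs
  have hz0 : (z : ℝ → V) =ᵐ[volume] fun t => Pos h t + Pos (Kop 0 k z) t := by
    have h1 : (z : ℝ → V) =ᵐ[volume] ((v 0 + T z : ℝ →₁[volume] V) : ℝ → V) := by rw [← hz]
    have h2 : (v 0 : ℝ → V) =ᵐ[volume] Pos h := by
      simp only [hv, pow_zero]; exact hPh.coeFn_toL1
    filter_upwards [h1, Lp.coeFn_add (v 0) (T z), h2, TT_coe (κ := 0) hkI z] with t h1 h2 h3 h4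
    rw [h1, h2, Pi.add_apply, h3, h4]
  have hzP : (Pos (z : ℝ → V)) =ᵐ[volume] (z : ℝ → V) := by
    filter_upwards [hz0] with t ht
    by_cases h0 : t ∈ Set.Ici (0:ℝ)
    · simp [Set.indicator_of_mem h0]
    · rw [ht]; simp [Set.indicator_of_notMem h0]
  refine ⟨Pos z, (L1.integrable_coeFn z).indicator measurableSet_Ici, ?_, ?_⟩
  · intro t ht
    exact Set.indicator_of_notMem (by simpa using ht) _
  · have hc : E ⋆[BB V, volume] (Pos (z : ℝ → V)) = E ⋆[BB V, volume] (z : ℝ → V) :=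
      convolution_congr _ (ae_eq_refl _) hzP
    have hn : k ⋆[BB V, volume] (z : ℝ → V) = - (E ⋆[BB V, volume] (z : ℝ → V)) := by
      ext t
      simp [convolution_def, hk, integral_neg]
    filter_upwards [hz0, hzP] with t h1 h2 ht
    rw [hc, h2, h1]
    simp only [Set.indicator_of_mem (show t ∈ Set.Ici (0:ℝ) from ht), Kop, hn, zero_smul, zero_add,
      Pi.neg_apply]
    abel

lemma solve_L2 (a c ρ : ℝ) (ha : 0 < a) (hc : 0 < c) (hρ0 : 0 ≤ ρ) (hρ : ρ < 1)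
    (M : ℝ → V →L[ℂ] V) (hM : Integrable M) (hM' : Integrable (tw a M))
    (hs : ∀ ξ u, ‖u - ((c⁻¹ : ℝ) : ℂ) • (u + (𝓕 (tw a M) ξ) u)‖ ≤ ρ * ‖u‖)
    (g : ℝ → V) (hg : Integrable g) (hg2 : MemLp g 2) (hg0 : ∀ t < 0, g t = 0) :
    ∃ x : ℝ → V, Integrable x ∧ (∀ t < 0, x t = 0) ∧
      ∀ᵐ t, 0 ≤ t → x t + (M ⋆[BB V, volume] x) t = tw (-a) g t := by
  obtain ⟨C, hC0, hC⟩ := cs_bound (V := V) ha
  set κ : ℂ := 1 - ((c⁻¹ : ℝ) : ℂ) with hκ
  set k : ℝ → V →L[ℂ] V := fun t => (-((c⁻¹ : ℝ) : ℂ)) • M t with hk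
  set k' : ℝ → V →L[ℂ] V := fun t => (-((c⁻¹ : ℝ) : ℂ)) • tw a M t with hk'
  have hkI : Integrable k := hM.smul (-((c⁻¹ : ℝ) : ℂ))
  have hkI' : Integrable k' := hM'.smul (-((c⁻¹ : ℝ) : ℂ))
  have hkk : k = tw (-a) k' := by
    ext1 t
    simp only [hk, hk', tw]
    rw [smul_comm, smul_smul (Real.exp (-a * t)), ← Real.exp_add]
    simp
  have hs' : ∀ ξ u, ‖κ • u + (𝓕 k' ξ) u‖ ≤ ρ * ‖u‖ := by
    intro ξ u
    have : 𝓕 k' ξ = (-((c⁻¹ : ℝ) : ℂ)) • 𝓕 (tw a M) ξ := by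
      simp only [Real.fourier_eq, hk']
      rw [← integral_smul]
      congr 1; ext1 t
      simp only [Circle.smul_def]
      rw [smul_comm]
    rw [this]
    convert hs ξ u using 2
    have e9 : ((-((c⁻¹ : ℝ) : ℂ)) • 𝓕 (tw a M) ξ) u = (-((c⁻¹ : ℝ) : ℂ)) • (𝓕 (tw a M) ξ u) := rfl
    rw [e9]
    simp only [hκ, sub_smul, one_smul, smul_add, neg_smul]
    abel
  -- the sequence
  let w : ℕ → ℝ → V := fun n => Nat.rec (((c⁻¹ : ℝ) : ℂ) • g) (fun _ f => Pos (Kop κ k' f)) n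
  have w0 : w 0 = ((c⁻¹ : ℝ) : ℂ) • g := rfl
  have w1 : ∀ n, w (n+1) = Pos (Kop κ k' (w n)) := fun n => rfl
  have hw : ∀ n, Integrable (w n) ∧ MemLp (w n) 2 ∧ (∀ t < 0, w n t = 0) ∧
      eLpNorm (w n) 2 volume ≤ ENNReal.ofReal (ρ^n) * eLpNorm (w 0) 2 volume := by
    intro n
    induction n with
    | zero =>
      refine ⟨hg.smul _, hg2.const_smul _, ?_, by simp⟩
      intro t ht; simp [w0, hg0 t ht]
    | succ n ih =>
      obtain ⟨i1, i2, i3, i4⟩ := ih
      obtain ⟨j1, j2⟩ := Kop_L2 (κ := κ) hkI' hs' i1 i2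
      rw [w1]
      refine ⟨integrable_PK hkI' i1, j1.indicator measurableSet_Ici, ?_, ?_⟩
      · intro t ht
        exact Set.indicator_of_notMem (by simpa using ht) _
      · calc eLpNorm (Pos (Kop κ k' (w n))) 2 volume ≤ eLpNorm (Kop κ k' (w n)) 2 volume :=
              eLpNorm_indicator_le _
          _ ≤ ENNReal.ofReal ρ * eLpNorm (w n) 2 volume := j2
          _ ≤ ENNReal.ofReal ρ * (ENNReal.ofReal (ρ^n) * eLpNorm (w 0) 2 volume) := by gcongr
          _ = ENNReal.ofReal (ρ^(n+1)) * eLpNorm (w 0) 2 volume := by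
              rw [← mul_assoc, ← ENNReal.ofReal_mul hρ0, pow_succ']
  have hu : ∀ n, Integrable (tw (-a) (w n)) := fun n => (hC _ (hw n).2.1 (hw n).2.2.1).1
  have hun : ∀ n, ∫ t, ‖tw (-a) (w n) t‖ ≤ C * (ρ^n * (eLpNorm (w 0) 2 volume).toReal) := by
    intro n
    refine ((hC _ (hw n).2.1 (hw n).2.2.1).2).trans ?_
    gcongr
    have h1 := (hw n).2.2.2
    have h2 : (ENNReal.ofReal (ρ^n) * eLpNorm (w 0) 2 volume) ≠ ⊤ :=
      ENNReal.mul_ne_top ENNReal.ofReal_ne_top (hw 0).2.1.2.ne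
    have h3 := ENNReal.toReal_mono h2 h1
    rwa [ENNReal.toReal_mul, ENNReal.toReal_ofReal (pow_nonneg hρ0 n)] at h3
  set T := TT κ k hkI with hT
  set v : ℕ → (ℝ →₁[volume] V) := fun n => (hu n).toL1 _ with hv
  have hPK : ∀ n, tw (-a) (w (n+1)) = Pos (Kop κ k (tw (-a) (w n))) := by
    intro n
    ext1 t
    rw [w1]
    by_cases ht : t ∈ Set.Ici (0:ℝ)
    · simp only [tw, Set.indicator_of_mem ht]
      simp only [Kop]
      rw [hkk]
      have := congrFun (tw_conv (-a) (BB V) k' (w n)) t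
      rw [this]
      simp only [tw, smul_add]
      rw [smul_comm]
    · simp [tw, Set.indicator_of_notMem ht]
  have hv1 : ∀ n, v (n+1) = T (v n) := by
    intro n
    simp only [hv, hT]
    rw [TT_toL1]
    apply (Integrable.toL1_eq_toL1_iff _ _ _ _).2
    rw [hPK n]
  have hsm : Summable (fun n => ‖v n‖) := by
    refine Summable.of_nonneg_of_le (fun _ => norm_nonneg _) (fun n => ?_)
      (f := fun n => C * (ρ^n * (eLpNorm (w 0) 2 volume).toReal)) ?_
    · simp only [hv]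
      rw [L1.norm_of_fun_eq_integral_norm]
      exact hun n
    · exact ((summable_geometric_of_lt_one hρ0 hρ).mul_right _).mul_left _
  obtain ⟨z, hz⟩ := neumann T v hv1 hsm
  have hz0 : (z : ℝ → V) =ᵐ[volume] fun t => tw (-a) (w 0) t + Pos (Kop κ k z) t := by
    have h1 : (z : ℝ → V) =ᵐ[volume] ((v 0 + T z : ℝ →₁[volume] V) : ℝ → V) := by rw [← hz]
    have h2 : (v 0 : ℝ → V) =ᵐ[volume] tw (-a) (w 0) := by
      simp only [hv]; exact (hu 0).coeFn_toL1
    filter_upwards [h1, Lp.coeFn_add (v 0) (T z), h2, TT_coe (κ := κ) hkI z] with t h1 h2 h3 h4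
    rw [h1, h2, Pi.add_apply, h3, h4]
  have hzP : (Pos (z : ℝ → V)) =ᵐ[volume] (z : ℝ → V) := by
    filter_upwards [hz0] with t ht
    by_cases h0 : t ∈ Set.Ici (0:ℝ)
    · simp [Set.indicator_of_mem h0]
    · rw [ht]
      have : w 0 t = 0 := (hw 0).2.2.1 t (by simpa using h0)
      simp [Set.indicator_of_notMem h0, tw, this]
  refine ⟨Pos z, (L1.integrable_coeFn z).indicator measurableSet_Ici, ?_, ?_⟩
  · intro t ht
    exact Set.indicator_of_notMem (by simpa using ht) _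
  · have hcv : M ⋆[BB V, volume] (Pos (z : ℝ → V)) = M ⋆[BB V, volume] (z : ℝ → V) :=
      convolution_congr _ (ae_eq_refl _) hzP
    have hn : k ⋆[BB V, volume] (z : ℝ → V) =
        (-((c⁻¹ : ℝ) : ℂ)) • (M ⋆[BB V, volume] (z : ℝ → V)) := by
      ext t
      simp only [convolution_def, hk, Pi.smul_apply]
      rw [← integral_smul]
      congr 1
    have hc' : (c : ℂ) ≠ 0 := by exact_mod_cast hc.ne'
    filter_upwards [hz0, hzP] with t h1 h2 ht
    rw [hcv, h2]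
    have h3 : (z : ℝ → V) t = ((c⁻¹ : ℝ) : ℂ) • tw (-a) g t + (κ • (z : ℝ → V) t +
        (-((c⁻¹ : ℝ) : ℂ)) • (M ⋆[BB V, volume] (z : ℝ → V)) t) := by
      conv_lhs => rw [h1]
      simp only [Set.indicator_of_mem (show t ∈ Set.Ici (0:ℝ) from ht), Kop, hn, w0, tw,
        Pi.smul_apply]
      rw [smul_comm]
    have h4 : (c:ℂ) • (z : ℝ → V) t = tw (-a) g t + ((c:ℂ) * κ) • (z : ℝ → V) t
        - (M ⋆[BB V, volume] (z : ℝ → V)) t := by
      conv_lhs => rw [h3]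
      simp only [smul_add, smul_smul]
      have e1 : (c:ℂ) * ((c⁻¹ : ℝ) : ℂ) = 1 := by push_cast; field_simp
      have e2 : (c:ℂ) * -((c⁻¹ : ℝ) : ℂ) = -1 := by push_cast; field_simp
      rw [e1, e2, one_smul, neg_one_smul]
      abel
    have h5 : (c:ℂ) * κ = c - 1 := by
      rw [hκ]; push_cast; field_simp
    rw [h5, sub_smul, one_smul] at h4
    linear_combination (norm := module) (1:ℂ) • h4

end solve

end Pool.Agent.H667R2.PartC
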