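import Mathlib
import Pool.Agent.H667R2.PartC4

set_option autoImplicit false
set_option linter.unusedSectionVars false
open Complex Filter Topology MeasureTheory FourierTransform
open scoped InnerProductSpace SchwartzMap ENNReal ContDiff Convolution

namespace Pool.Agent.H667R2.PartC

section solve
variable {V : Type*} [NormedAddCommGroup V] [InnerProductSpace ℂ V] [FiniteDimensional ℂ V]
  [CompleteSpace V]

lemma bdd_conv (N : ℝ → V →L[ℂ] V) (hN : Integrable N) (hNc : Continuous N)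
    (hNs : HasCompactSupport N) (x : ℝ → V) (hx : Integrable x) :
    MemLp (N ⋆[BB V, volume] x) 2 := by
  obtain ⟨C, hC⟩ := hNs.exists_bound_of_continuous hNc
  have hC0 : 0 ≤ C := (norm_nonneg _).trans (hC 0)
  have h1 : Integrable (N ⋆[BB V, volume] x) := hN.integrable_convolution _ hx
  have hb : ∀ t, ‖(N ⋆[BB V, volume] x) t‖ ≤ C * ∫ s, ‖x s‖ := by
    intro t
    rw [convolution_eq_swap]
    refine (norm_integral_le_integral_norm _).trans ?_
    rw [← integral_const_mul]
    refine integral_mono_of_nonneg (Eventually.of_forall fun _ => norm_nonneg _)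
      (hx.norm.const_mul _) (Eventually.of_forall fun s => ?_)
    calc ‖(BB V (N (t - s))) (x s)‖ ≤ ‖N (t - s)‖ * ‖x s‖ := (N (t - s)).le_opNorm (x s)
      _ ≤ C * ‖x s‖ := by gcongr; exact hC _
  rw [memLp_two_iff_integrable_sq_norm h1.1]
  refine (h1.norm.const_mul (C * ∫ s, ‖x s‖)).mono (h1.1.norm.pow 2) (Eventually.of_forall fun t => ?_)
  have h2 := hb t
  have h3 : 0 ≤ C * ∫ s, ‖x s‖ := (norm_nonneg _).trans h2
  rw [Real.norm_of_nonneg (by positivity), Real.norm_of_nonneg (by positivity), pow_two]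
  gcongr

lemma solve_vec (a c ρ : ℝ) (ha : 0 < a) (hc : 0 < c) (hρ0 : 0 ≤ ρ) (hρ : ρ < 1)
    (M : ℝ → V →L[ℂ] V) (hM : Integrable M) (hM' : Integrable (tw a M))
    (hs : ∀ ξ u, ‖u - ((c⁻¹ : ℝ) : ℂ) • (u + (𝓕 (tw a M) ξ) u)‖ ≤ ρ * ‖u‖)
    (h : ℝ → V) (hh : Integrable (tw a h)) :
    ∃ x : ℝ → V, Integrable x ∧ (∀ t < 0, x t = 0) ∧
      ∀ᵐ t, 0 ≤ t → x t + (M ⋆[BB V, volume] x) t = h t := by
  obtain ⟨N, hNs, hN1, hNc, hNI⟩ := hM'.exists_hasCompactSupport_integral_sub_le
    (show (0:ℝ) < 1/2 by norm_num)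
  obtain ⟨x1, i1, s1, e1⟩ := solve_small (fun t => tw a M t - N t) (hM'.sub hNI) hN1 (tw a h) hh
  set g : ℝ → V := Pos (-(N ⋆[BB V, volume] x1)) with hg
  have hgI : Integrable g := (hNI.integrable_convolution _ i1).neg.indicator measurableSet_Ici
  have hg2 : MemLp g 2 := (bdd_conv N hNI hNc hNs x1 i1).neg.indicator measurableSet_Ici
  have hg0 : ∀ t < 0, g t = 0 := fun t ht => Set.indicator_of_notMem (by simpa using ht) _
  obtain ⟨x2, i2, s2, e2⟩ := solve_L2 a c ρ ha hc hρ0 hρ M hM hM' hs g hgI hg2 hg0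
  have i1' := tw_neg_integrable ha.le i1 s1
  refine ⟨tw (-a) x1 + x2, i1'.add i2, ?_, ?_⟩
  · intro t ht
    simp [tw, s1 t ht, s2 t ht]
  · have hMM : tw a M = (fun t => tw a M t - N t) + N := by ext1 t; simp
    filter_upwards [e1, e2, hM.ae_convolution_exists (BB V) i1', hM.ae_convolution_exists (BB V) i2,
      (hM'.sub hNI).ae_convolution_exists (BB V) i1, hNI.ae_convolution_exists (BB V) i1] with
      t e1 e2 c1 c2 c3 c4 ht
    have e1 := e1 ht
    have e2 := e2 ht
    rw [c1.distrib_add c2, Pi.add_apply]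
    have k1 : (M ⋆[BB V, volume] (tw (-a) x1)) t = tw (-a) ((tw a M) ⋆[BB V, volume] x1) t := by
      rw [← tw_conv, tw_tw]; simp [tw_zero]
    have k2 : ((tw a M) ⋆[BB V, volume] x1) t = ((fun t => tw a M t - N t) ⋆[BB V, volume] x1) t
        + (N ⋆[BB V, volume] x1) t := by
      conv_lhs => rw [hMM]
      exact c3.add_distrib c4
    have k3 : g t = - (N ⋆[BB V, volume] x1) t := by
      exact Set.indicator_of_mem (show t ∈ Set.Ici (0:ℝ) from ht) _
    have k4 : tw (-a) (tw a h) t = h t := by rw [tw_tw]; simp [tw_zero]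
    rw [k1, ← k4]
    simp only [tw] at k2 e1 e2 k3 ⊢
    rw [k2]
    have k5 : x2 t + (M ⋆[BB V, volume] x2) t = Real.exp (-a * t) • (-(N ⋆[BB V, volume] x1) t) := by
      rw [e2, k3]
    have k6 : (Real.exp (-a * t) • x1 t + Real.exp (-a * t) • (((fun t => Real.exp (a * t) • M t - N t) ⋆[BB V, volume] x1) t + (N ⋆[BB V, volume] x1) t))
       = Real.exp (-a * t) • (Real.exp (a * t) • h t) + Real.exp (-a * t) • (N ⋆[BB V, volume] x1) t := by
      rw [← e1]; module
    calc _ = (Real.exp (-a * t) • x1 t + Real.exp (-a * t) • (((fun t => Real.exp (a * t) • M t - N t) ⋆[BB V, volume] x1) t + (N ⋆[BB V, volume] x1) t)) + (x2 t + (M ⋆[BB V, volume] x2) t) := by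
            abel
      _ = _ := by rw [k6, k5]; module

/-- operator composition as a bilinear map -/
noncomputable abbrev MM (V : Type*) [NormedAddCommGroup V] [InnerProductSpace ℂ V] :
    (V →L[ℂ] V) →L[ℂ] (V →L[ℂ] V) →L[ℂ] (V →L[ℂ] V) := ContinuousLinearMap.mul ℂ (V →L[ℂ] V)

lemma solve_op (a c ρ : ℝ) (ha : 0 < a) (hc : 0 < c) (hρ0 : 0 ≤ ρ) (hρ : ρ < 1)
    (M : ℝ → V →L[ℂ] V) (hM : Integrable M) (hM' : Integrable (tw a M))
    (hs : ∀ ξ u, ‖u - ((c⁻¹ : ℝ) : ℂ) • (u + (𝓕 (tw a M) ξ) u)‖ ≤ ρ * ‖u‖) :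
    ∃ X : ℝ → V →L[ℂ] V, Integrable X ∧ (∀ t < 0, X t = 0) ∧
      ∀ᵐ t, 0 ≤ t → X t + (M ⋆[MM V, volume] X) t = - M t := by
  set b := stdOrthonormalBasis ℂ V with hb
  have hh : ∀ i, Integrable (tw a (fun t => - M t (b i))) := by
    intro i
    have h1 : tw a (fun t => - M t (b i)) = fun t => -((tw a M t) (b i)) := by
      ext1 t; simp [tw]
    rw [h1]
    exact ((ContinuousLinearMap.apply ℂ V (b i)).integrable_comp hM').neg
  choose x i1 s1 e1 using fun i => solve_vec a c ρ ha hc hρ0 hρ M hM hM' hs (fun t => - M t (b i)) (hh i)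
  set X : ℝ → V →L[ℂ] V := fun t => ∑ i, (innerSL ℂ (b i)).smulRight (x i t) with hX
  have hXI : Integrable X := by
    apply integrable_finsetSum
    intro i _
    exact (ContinuousLinearMap.smulRightL ℂ V V (innerSL ℂ (b i))).integrable_comp (i1 i)
  have hXb : ∀ t j, X t (b j) = x j t := by
    intro t j
    simp only [hX, _root_.sum_apply, ContinuousLinearMap.smulRight_apply,
      innerSL_apply_apply]
    rw [Finset.sum_eq_single j]
    · simp
    · intro i _ hij
      simp [b.inner_eq_ite, hij]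
    · simp
  refine ⟨X, hXI, ?_, ?_⟩
  · intro t ht
    simp only [hX]
    apply Finset.sum_eq_zero
    intro i _
    rw [s1 i t ht]; ext; simp
  · filter_upwards [ae_all_iff.2 e1, hM.ae_convolution_exists (MM V) hXI] with t e1 c1 ht
    have key : ∀ j, (X t + (M ⋆[MM V, volume] X) t) (b j) = (- M t) (b j) := by
      intro j
      have e2 := e1 j ht
      have e3 : ((M ⋆[MM V, volume] X) t) (b j) = (M ⋆[BB V, volume] (x j)) t := by
        rw [convolution_def, ContinuousLinearMap.integral_apply c1, convolution_def]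
        congr 1; ext1 s
        rw [← hXb (t - s) j]; rfl
      rw [_root_.add_apply, e3, hXb, e2]
      rfl
    have : ((X t + (M ⋆[MM V, volume] X) t : V →L[ℂ] V) : V →ₗ[ℂ] V) = ((- M t : V →L[ℂ] V) : V →ₗ[ℂ] V) := by
      apply b.toBasis.ext
      intro j
      simpa using key j
    exact ContinuousLinearMap.coe_injective this

end solve

end Pool.Agent.H667R2.PartC
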