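import Mathlib
import Pool.Agent.H667R2.PartC5

set_option autoImplicit false
set_option linter.unusedSectionVars false
open Complex Filter Topology MeasureTheory FourierTransform
open scoped InnerProductSpace SchwartzMap ENNReal ContDiff Convolution

namespace Pool.Agent.H667R2.PartC

lemma fourier_inj' {H : Type*} [NormedAddCommGroup H] [NormedSpace ℂ H] [CompleteSpace H]
    (h : ℝ → H) (h1 : Integrable h) (h2 : ∀ ξ, 𝓕 h ξ = 0) : h =ᵐ[volume] 0 := by
  have key : h =ᵐ[volume] (fun _ => (0:H)) := by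
    apply ae_eq_of_integral_contDiff_smul_eq
    · exact h1.locallyIntegrable
    · exact locallyIntegrable_zero
    · intro g g_smooth g_cpt
      have hg₁ : HasCompactSupport (Complex.ofRealCLM ∘ g) := g_cpt.comp_left rfl
      have hg₂ : ContDiff ℝ ∞ (Complex.ofRealCLM ∘ g) := by fun_prop
      set G : 𝓢(ℝ, ℂ) := hg₁.toSchwartzMap hg₂ with hG
      have e3 : ∫ x, (𝓕 ((𝓕⁻ G : 𝓢(ℝ, ℂ)) : ℝ → ℂ)) x • h x = ∫ x, ((𝓕⁻ G : 𝓢(ℝ, ℂ)) x) • (𝓕 h) x := by
        simpa using! (VectorFourier.integral_fourierIntegral_smul_eq_flip (L := innerₗ ℝ)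
          Real.continuous_fourierChar continuous_inner (𝓕⁻ G : 𝓢(ℝ, ℂ)).integrable h1)
      have e4 : ∫ x, g x • h x = ∫ x, (𝓕 ((𝓕⁻ G : 𝓢(ℝ, ℂ)) : ℝ → ℂ)) x • h x := by
        apply integral_congr_ae
        filter_upwards with x
        have : 𝓕 ((𝓕⁻ G : 𝓢(ℝ, ℂ)) : ℝ → ℂ) x = G x := by
          rw [← SchwartzMap.fourier_coe]
          simp
        rw [this]
        simp [hG]
      rw [e4, e3]
      simp [h2]
  exact key

/-- Fourier transform in the engineers' normalisation -/
noncomputable def hat {H : Type*} [NormedAddCommGroup H] [NormedSpace ℂ H] (f : ℝ → H) (w : ℝ) : H :=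
  ∫ t : ℝ, Complex.exp (-((w : ℂ) * (t : ℂ) * Complex.I)) • f t

section hat
variable {H : Type*} [NormedAddCommGroup H] [NormedSpace ℂ H]

lemma hat_eq (f : ℝ → H) (w : ℝ) : hat f w = 𝓕 f (w / (2 * Real.pi)) := by
  rw [Real.fourier_real_eq_integral_exp_smul, hat]
  congr 1; ext1 t
  congr 2
  push_cast
  have : (Real.pi : ℂ) ≠ 0 := by exact_mod_cast Real.pi_ne_zero
  field_simp

lemma hat_eq' (f : ℝ → H) (ξ : ℝ) : 𝓕 f ξ = hat f (2 * Real.pi * ξ) := by
  rw [hat_eq]
  field_simp

lemma hat_integrable {f : ℝ → H} (hf : Integrable f) (w : ℝ) :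
    Integrable (fun t : ℝ => Complex.exp (-((w : ℂ) * (t : ℂ) * Complex.I)) • f t) := by
  refine hf.mono ?_ (Eventually.of_forall fun t => ?_)
  · apply AEStronglyMeasurable.smul _ hf.1
    fun_prop
  · rw [norm_smul, Complex.norm_exp]
    simp

lemma hat_add {f g : ℝ → H} (hf : Integrable f) (hg : Integrable g) (w : ℝ) :
    hat (f + g) w = hat f w + hat g w := by
  simp only [hat, Pi.add_apply, smul_add]
  exact integral_add (hat_integrable hf w) (hat_integrable hg w)

lemma hat_sub {f g : ℝ → H} (hf : Integrable f) (hg : Integrable g) (w : ℝ) :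
    hat (f - g) w = hat f w - hat g w := by
  simp only [hat, Pi.sub_apply, smul_sub]
  exact integral_sub (hat_integrable hf w) (hat_integrable hg w)

lemma hat_congr {f g : ℝ → H} (h : f =ᵐ[volume] g) (w : ℝ) : hat f w = hat g w := by
  apply integral_congr_ae
  filter_upwards [h] with t ht
  rw [ht]

lemma hat_norm {f : ℝ → H} (w : ℝ) : ‖hat f w‖ ≤ ∫ t, ‖f t‖ := by
  refine (norm_integral_le_integral_norm _).trans (le_of_eq ?_)
  congr 1; ext1 t
  rw [norm_smul, Complex.norm_exp]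
  simp

lemma hat_inj [CompleteSpace H] {f : ℝ → H} (hf : Integrable f) (h : ∀ w, hat f w = 0) :
    f =ᵐ[volume] 0 :=
  fourier_inj' f hf fun ξ => by rw [hat_eq']; exact h _
end hat

section V
variable {V : Type*} [NormedAddCommGroup V] [InnerProductSpace ℂ V] [FiniteDimensional ℂ V]
  [CompleteSpace V]

lemma hat_conv {f g : ℝ → V →L[ℂ] V} (hf : Integrable f) (hg : Integrable g) (w : ℝ) :
    hat (f ⋆[MM V, volume] g) w = hat f w * hat g w := by
  rw [hat_eq, Real.fourier_bilin_convolution_eq (MM V) hf hg, ← hat_eq, ← hat_eq]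
  rfl

/-- the reflected adjoint -/
noncomputable def shp (f : ℝ → V →L[ℂ] V) : ℝ → V →L[ℂ] V := fun t => star (f (-t))

lemma shp_integrable {f : ℝ → V →L[ℂ] V} (hf : Integrable f) : Integrable (shp f) := by
  have h1 : Integrable (fun t => star (f t)) := by
    refine hf.mono (continuous_star.comp_aestronglyMeasurable hf.1) (Eventually.of_forall fun t => ?_)
    simp
  exact h1.comp_neg

lemma hat_shp {f : ℝ → V →L[ℂ] V} (w : ℝ) : hat (shp f) w = star (hat f w) := by
  have h1 : star (hat f w) = ∫ t : ℝ, star (Complex.exp (-((w : ℂ) * (t : ℂ) * Complex.I)) • f t) :=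
    ((starL' ℝ : (V →L[ℂ] V) ≃L[ℝ] (V →L[ℂ] V)).integral_comp_comm _).symm
  rw [h1, hat, ← integral_neg_eq_self]
  congr 1; ext1 t
  simp only [shp, neg_neg, star_smul]
  congr 1
  rw [Complex.star_def, ← Complex.exp_conj]
  congr 1
  simp

lemma shp_tw {a : ℝ} {f : ℝ → V →L[ℂ] V} : shp (tw (-a) f) = tw a (shp f) := by
  ext1 t
  simp only [shp, tw, star_smul]
  simp

end V

end Pool.Agent.H667R2.PartC
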