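import Mathlib
import Pool.Agent.H667R2.PartC6

set_option autoImplicit false
set_option linter.unusedSectionVars false
open Complex Filter Topology MeasureTheory FourierTransform
open scoped InnerProductSpace SchwartzMap ENNReal ContDiff Convolution

namespace Pool.Agent.H667R2.PartC

section V
variable {V : Type*} [NormedAddCommGroup V] [InnerProductSpace ℂ V] [FiniteDimensional ℂ V]
  [CompleteSpace V]

lemma tw_integrable {L : ℝ → (V →L[ℂ] V)} {s : ℝ}
    (hL : Integrable (fun t : ℝ => Real.exp (s * |t|) • L t)) {b : ℝ} (hb : |b| ≤ s) :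
    Integrable (tw b L) := by
  have hm : AEStronglyMeasurable L := by
    have h1 : AEStronglyMeasurable (fun t : ℝ => Real.exp (-(s * |t|)) • (Real.exp (s * |t|) • L t)) := by
      have h0 : AEStronglyMeasurable (fun t : ℝ => Real.exp (-(s * |t|))) volume :=
        Continuous.aestronglyMeasurable (by fun_prop)
      exact h0.smul hL.1
    refine h1.congr (Eventually.of_forall fun t => ?_)
    simp only [smul_smul, ← Real.exp_add]
    simp
  refine hL.mono (tw_measurable _ hm) (Eventually.of_forall fun t => ?_)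
  simp only [tw, norm_smul, Real.norm_eq_abs, Real.abs_exp]
  have hbt : b * t ≤ s * |t| := by
    calc b * t ≤ |b * t| := le_abs_self _
      _ = |b| * |t| := abs_mul _ _
      _ ≤ s * |t| := by gcongr
  exact mul_le_mul_of_nonneg_right (Real.exp_le_exp.2 hbt) (norm_nonneg _)

lemma exists_small {L : ℝ → (V →L[ℂ] V)} {s : ℝ} (hs : 0 < s)
    (hL : Integrable (fun t : ℝ => Real.exp (s * |t|) • L t)) {ε : ℝ} (hε : 0 < ε) :
    ∃ b, 0 < b ∧ b ≤ s ∧ ∫ t, ‖tw b L t - L t‖ ≤ ε := by
  have hL0 : Integrable L := by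
    have := tw_integrable hL (b := 0) (by simpa using hs.le)
    rwa [tw_zero] at this
  have h1 : Tendsto (fun b : ℝ => ∫ t, ‖tw b L t - L t‖) (𝓝[>] 0) (𝓝 (∫ t : ℝ, (0:ℝ))) := by
    refine tendsto_integral_filter_of_dominated_convergence
      (fun t => ‖Real.exp (s * |t|) • L t‖ + ‖L t‖) ?_ ?_ (hL.norm.add hL0.norm) ?_
    · exact Eventually.of_forall fun b => ((tw_measurable b hL0.1).sub hL0.1).norm
    · have h2 : ∀ᶠ b : ℝ in 𝓝[>] 0, b < s := by
        filter_upwards [Ioo_mem_nhdsGT hs] with b hb using hb.2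
      filter_upwards [h2, self_mem_nhdsWithin] with b hb hb0
      refine Eventually.of_forall fun t => ?_
      rw [norm_norm]
      refine (norm_sub_le _ _).trans ?_
      gcongr
      simp only [tw, norm_smul, Real.norm_eq_abs, Real.abs_exp]
      have hb0' : 0 < b := hb0
      have hbt : b * t ≤ s * |t| := by
        calc b * t ≤ |b * t| := le_abs_self _
          _ = b * |t| := by rw [abs_mul, abs_of_pos hb0']
          _ ≤ s * |t| := by gcongr
      exact mul_le_mul_of_nonneg_right (Real.exp_le_exp.2 hbt) (norm_nonneg _)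
    · refine Eventually.of_forall fun t => ?_
      have h3 : Continuous (fun b : ℝ => ‖tw b L t - L t‖) := by
        simp only [tw]; fun_prop
      have h4 := h3.tendsto 0
      simp only [tw, zero_mul, Real.exp_zero, one_smul, sub_self, norm_zero] at h4
      exact h4.mono_left nhdsWithin_le_nhds
  simp only [integral_zero] at h1
  have h2 : ∀ᶠ b : ℝ in 𝓝[>] 0, ∫ t, ‖tw b L t - L t‖ < ε := h1.eventually_lt_const hε
  have h3 : ∀ᶠ b : ℝ in 𝓝[>] 0, b ∈ Set.Ioo 0 s := Ioo_mem_nhdsGT hs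
  obtain ⟨b, hb1, hb2⟩ := (h2.and h3).exists
  exact ⟨b, hb2.1, hb2.2.le, hb1.le⟩

lemma symbol_bound (A : V →L[ℂ] V) {e C : ℝ} (he : 0 < e) (heC : e ≤ C)
    (h1 : ∀ v, e * ‖v‖^2 ≤ (inner ℂ (A v) v).re) (h2 : ∀ v, ‖A v‖ ≤ C * ‖v‖) (v : V) :
    ‖v - (((C^2/e)⁻¹ : ℝ) : ℂ) • A v‖ ≤ Real.sqrt (1 - (e/C)^2) * ‖v‖ := by
  have hC : 0 < C := he.trans_le heC
  set q : ℝ := (C^2/e)⁻¹ with hq
  have hq' : q = e / C^2 := by rw [hq]; field_simp
  have hq0 : 0 < q := by rw [hq']; positivity
  have h3 : ‖v - (q : ℂ) • A v‖^2 = ‖v‖^2 - 2 * q * (inner ℂ (A v) v).re + q^2 * ‖A v‖^2 := by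
    rw [@norm_sub_sq ℂ, inner_smul_right, norm_smul]
    have : (inner ℂ v (A v)).re = (inner ℂ (A v) v).re := by
      rw [← inner_conj_symm, Complex.conj_re]
    simp only [RCLike.re_to_complex, Complex.mul_re, Complex.ofReal_re, Complex.ofReal_im, this,
      Complex.norm_real, Real.norm_eq_abs, abs_of_pos hq0]
    ring
  have h4 : ‖v - (q : ℂ) • A v‖^2 ≤ (1 - (e/C)^2) * ‖v‖^2 := by
    rw [h3]
    have h5 : q^2 * ‖A v‖^2 ≤ q^2 * (C * ‖v‖)^2 := by
      gcongr; exact h2 v
    have h6 : 2 * q * (e * ‖v‖^2) ≤ 2 * q * (inner ℂ (A v) v).re := by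
      gcongr; exact h1 v
    have h7 : q^2 * (C * ‖v‖)^2 = (e/C)^2 * ‖v‖^2 := by
      rw [hq']; field_simp
    have h8 : 2 * q * (e * ‖v‖^2) = 2 * (e/C)^2 * ‖v‖^2 := by
      rw [hq']; field_simp
    linarith
  have h9 : 0 ≤ 1 - (e/C)^2 := by
    have : (e/C)^2 ≤ 1 := by
      rw [sq_le_one_iff₀ (by positivity)]
      exact (div_le_one hC).2 heC
    linarith
  calc ‖v - (q : ℂ) • A v‖ = Real.sqrt (‖v - (q : ℂ) • A v‖^2) := (Real.sqrt_sq (norm_nonneg _)).symm
    _ ≤ Real.sqrt ((1 - (e/C)^2) * ‖v‖^2) := Real.sqrt_le_sqrt h4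
    _ = _ := by rw [Real.sqrt_mul h9, Real.sqrt_sq (norm_nonneg _)]

lemma clm_mul_eq_one_comm {A B : V →L[ℂ] V} (h : A * B = 1) : B * A = 1 := by
  have h1 : (A : V →ₗ[ℂ] V) * (B : V →ₗ[ℂ] V) = 1 := by
    ext v
    have := congrArg (fun T : V →L[ℂ] V => T v) h
    simpa using this
  have h2 := mul_eq_one_comm.1 h1
  ext v
  have := congrArg (fun T : V →ₗ[ℂ] V => T v) h2
  simpa using this

theorem ac_factor (L : ℝ → (V →L[ℂ] V)) (s : ℝ)
    (hs : 0 < s) (hL : Integrable (fun t : ℝ => Real.exp (s * |t|) • L t)) (G : ℝ → (V →L[ℂ] V))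
    (hG : ∀ w, G w = 1 + ∫ t : ℝ, Complex.exp (-((w : ℂ) * (t : ℂ) * Complex.I)) • L t)
    (hsa : ∀ w, star (G w) = G w) (e : ℝ) (he : 0 < e)
    (hpos : ∀ (w : ℝ) (v : V), e * ‖v‖^2 ≤ (inner ℂ (G w v) v).re) :
    ∃ s' > 0, ∃ x y : ℝ → (V →L[ℂ] V),
      Integrable (fun t => Real.exp (s' * |t|) • x t) ∧
      Integrable (fun t => Real.exp (s' * |t|) • y t) ∧
      (∀ t < 0, x t = 0) ∧ (∀ t < 0, y t = 0) ∧
      ∀ w : ℝ,
        (1 + ∫ t : ℝ, Complex.exp (-((w : ℂ) * (t : ℂ) * Complex.I)) • x t) *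
          (1 + ∫ t : ℝ, Complex.exp (-((w : ℂ) * (t : ℂ) * Complex.I)) • y t) = 1 ∧
        (1 + ∫ t : ℝ, Complex.exp (-((w : ℂ) * (t : ℂ) * Complex.I)) • y t) *
          (1 + ∫ t : ℝ, Complex.exp (-((w : ℂ) * (t : ℂ) * Complex.I)) • x t) = 1 ∧
        G w = star (1 + ∫ t : ℝ, Complex.exp (-((w : ℂ) * (t : ℂ) * Complex.I)) • y t) *
          (1 + ∫ t : ℝ, Complex.exp (-((w : ℂ) * (t : ℂ) * Complex.I)) • y t) := by
  have hG' : ∀ w, G w = 1 + hat L w := hG
  obtain ⟨b, hb0, hbs, hb⟩ := exists_small hs hL (half_pos he)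
  set a : ℝ := b / 2 with ha
  have ha0 : 0 < a := half_pos hb0
  have haa : a + a = b := by rw [ha]; ring
  have hL0 : Integrable L := by
    have := tw_integrable hL (b := 0) (by simpa using hs.le)
    rwa [tw_zero] at this
  have hLa : Integrable (tw a L) := tw_integrable hL (by rw [abs_of_pos ha0]; linarith)
  have hLna : Integrable (tw (-a) L) := tw_integrable hL (by rw [abs_neg, abs_of_pos ha0]; linarith)
  have hLb : Integrable (tw b L) := tw_integrable hL (by rw [abs_of_pos hb0]; linarith)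
  have hLaa : tw a (tw a L) = tw b L := by rw [tw_tw, haa]
  -- symbol bound
  set C : ℝ := max (1 + ∫ t, ‖tw b L t‖) (e/2) with hC
  have hCe : e/2 ≤ C := le_max_right _ _
  have hC0 : 0 < C := (half_pos he).trans_le hCe
  have hsym : ∀ ξ u, ‖u - (((C^2/(e/2))⁻¹ : ℝ) : ℂ) • (u + (𝓕 (tw a (tw a L)) ξ) u)‖ ≤
      Real.sqrt (1 - ((e/2)/C)^2) * ‖u‖ := by
    intro ξ u
    rw [hLaa, hat_eq']
    set w := 2 * Real.pi * ξ
    have hA : u + (hat (tw b L) w) u = (1 + hat (tw b L) w) u := by simp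
    rw [hA]
    apply symbol_bound _ (half_pos he) hCe
    · intro v
      have h1 := hpos w v
      have h2 : (1 + hat (tw b L) w) v = G w v + (hat (tw b L - L) w) v := by
        rw [hat_sub hLb hL0, hG' w]
        simp only [_root_.add_apply, _root_.sub_apply]
        abel
      rw [h2, inner_add_left, Complex.add_re]
      have h3 : |(inner ℂ ((hat (tw b L - L) w) v) v).re| ≤ e/2 * ‖v‖^2 := by
        calc |(inner ℂ ((hat (tw b L - L) w) v) v).re| ≤ ‖inner ℂ ((hat (tw b L - L) w) v) v‖ :=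
              Complex.abs_re_le_norm _
          _ ≤ ‖(hat (tw b L - L) w) v‖ * ‖v‖ := norm_inner_le_norm _ _
          _ ≤ (‖hat (tw b L - L) w‖ * ‖v‖) * ‖v‖ := by gcongr; exact ContinuousLinearMap.le_opNorm _ _
          _ ≤ (e/2 * ‖v‖) * ‖v‖ := by
              gcongr
              refine (hat_norm w).trans ?_
              simpa using hb
          _ = _ := by ring
      have h4 := (abs_le.1 h3).1
      linarith
    · intro v
      calc ‖(1 + hat (tw b L) w) v‖ ≤ ‖v‖ + ‖(hat (tw b L) w) v‖ := by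
            simpa using norm_add_le v ((hat (tw b L) w) v)
        _ ≤ ‖v‖ + (∫ t, ‖tw b L t‖) * ‖v‖ := by
            gcongr
            refine (ContinuousLinearMap.le_opNorm _ _).trans ?_
            gcongr
            exact hat_norm w
        _ = (1 + ∫ t, ‖tw b L t‖) * ‖v‖ := by ring
        _ ≤ C * ‖v‖ := by gcongr; exact le_max_left _ _
  have hρ1 : Real.sqrt (1 - ((e/2)/C)^2) < 1 := by
    rw [Real.sqrt_lt' one_pos]
    have : 0 < ((e/2)/C)^2 := by positivity
    linarith
  obtain ⟨X, hXI, hX0, hX⟩ := solve_op a (C^2/(e/2)) (Real.sqrt (1 - ((e/2)/C)^2)) ha0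
    (by positivity) (Real.sqrt_nonneg _) hρ1 (tw a L) hLa (by rw [hLaa]; exact hLb) hsym
  -- back to level 0
  set x : ℝ → (V →L[ℂ] V) := tw (-a) X with hx
  have hxI : Integrable x := tw_neg_integrable ha0.le hXI hX0
  have hx0 : ∀ t < 0, x t = 0 := by intro t ht; simp [hx, tw, hX0 t ht]
  have hxw : (fun t => Real.exp (a * |t|) • x t) = X := by
    ext1 t
    by_cases ht : t < 0
    · rw [hx0 t ht, hX0 t ht, smul_zero]
    · push Not at ht
      rw [abs_of_nonneg ht]
      simp only [hx, tw, smul_smul, ← Real.exp_add]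
      simp
  have hxn : Integrable (tw (-a) x) := tw_neg_integrable ha0.le hxI hx0
  set W : ℝ → (V →L[ℂ] V) := L + x + (L ⋆[MM V, volume] x) with hW
  have hWI : Integrable W := (hL0.add hxI).add (hL0.integrable_convolution _ hxI)
  have hW0 : ∀ᵐ t, 0 ≤ t → W t = 0 := by
    filter_upwards [hX] with t ht h0
    have h1 := ht h0
    have h2 : (L ⋆[MM V, volume] x) t = tw (-a) ((tw a L) ⋆[MM V, volume] X) t := by
      rw [← tw_conv, tw_tw]; simp [tw_zero, hx]
    have h3 : L t = tw (-a) (tw a L) t := by rw [tw_tw]; simp [tw_zero]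
    simp only [hW, Pi.add_apply]
    rw [h2, h3]
    simp only [hx]
    simp only [tw] at h1 ⊢
    rw [← smul_add, ← smul_add, add_assoc, h1]
    simp
  have hWn : Integrable (tw (-a) W) := by
    have h1 : tw (-a) W = tw (-a) L + tw (-a) x + ((tw (-a) L) ⋆[MM V, volume] (tw (-a) x)) := by
      rw [tw_conv]
      ext1 t
      simp only [hW, tw, Pi.add_apply, smul_add]
    rw [h1]
    exact (hLna.add hxn).add (hLna.integrable_convolution _ hxn)
  have hhW : ∀ w, 1 + hat W w = G w * (1 + hat x w) := by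
    intro w
    rw [hW, hat_add (hL0.add hxI) (hL0.integrable_convolution _ hxI), hat_add hL0 hxI,
      hat_conv hL0 hxI, hG']
    noncomm_ring
  -- the function y
  set y : ℝ → (V →L[ℂ] V) := Pos (shp W) with hy
  have hyW : y =ᵐ[volume] shp W := by
    have h1 : ∀ᵐ t : ℝ, 0 ≤ -t → W (-t) = 0 :=
      (Measure.measurePreserving_neg (volume : Measure ℝ)).quasiMeasurePreserving.ae hW0
    filter_upwards [h1] with t ht
    by_cases h0 : t ∈ Set.Ici (0:ℝ)
    · simp only [hy, Set.indicator_of_mem h0]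
    · simp only [hy, Set.indicator_of_notMem h0]
      have : t < 0 := by simpa using h0
      rw [shp, ht (by linarith)]; simp
  have hy0 : ∀ t < 0, y t = 0 := fun t ht => Set.indicator_of_notMem (by simpa using ht) _
  have hyw : Integrable (fun t => Real.exp (a * |t|) • y t) := by
    have h1 : (fun t => Real.exp (a * |t|) • y t) = Pos (shp (tw (-a) W)) := by
      rw [shp_tw]
      ext1 t
      by_cases h0 : t ∈ Set.Ici (0:ℝ)
      · simp only [hy, Set.indicator_of_mem h0, tw]
        rw [abs_of_nonneg h0]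
      · simp only [hy, Set.indicator_of_notMem h0, smul_zero]
    rw [h1]
    exact (shp_integrable hWn).indicator measurableSet_Ici
  have hhy : ∀ w, 1 + hat y w = star (1 + hat W w) := by
    intro w
    rw [hat_congr hyW, hat_shp]; simp
  -- the function u
  set u : ℝ → (V →L[ℂ] V) := W + shp x + ((shp x) ⋆[MM V, volume] W) with hu
  have hsxI := shp_integrable hxI
  have huI : Integrable u := (hWI.add hsxI).add (hsxI.integrable_convolution _ hWI)
  have hhu : ∀ w, 1 + hat u w = star (1 + hat x w) * (1 + hat W w) := by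
    intro w
    rw [hu, hat_add (hWI.add hsxI) (hsxI.integrable_convolution _ hWI), hat_add hWI hsxI,
      hat_conv hsxI hWI, hat_shp]
    simp only [star_add, star_one]
    noncomm_ring
  have husa : ∀ w, star (1 + hat u w) = 1 + hat u w := by
    intro w
    rw [hhu, hhW]
    simp only [star_mul, star_star, hsa, mul_assoc]
  have hup : ∀ᵐ t, 0 < t → u t = 0 := by
    filter_upwards [hW0] with t ht h0
    simp only [hu, Pi.add_apply]
    rw [ht h0.le]
    have h1 : shp x t = 0 := by simp [shp, hx0 (-t) (by linarith)]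
    have h2 : ((shp x) ⋆[MM V, volume] W) t = 0 := by
      rw [convolution_def]
      have h3 : ∀ᵐ r : ℝ, 0 ≤ t - r → W (t - r) = 0 :=
        (quasiMeasurePreserving_sub_left_of_right_invariant volume t).ae hW0
      have h4 : ∀ᵐ r : ℝ, (MM V (shp x r)) (W (t - r)) = 0 := by
        filter_upwards [h3] with r hr
        by_cases hr0 : 0 < r
        · have : shp x r = 0 := by simp [shp, hx0 (-r) (by linarith)]
          rw [this]; simp
        · push Not at hr0
          rw [hr (by linarith)]; simp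
      rw [integral_congr_ae h4]; simp
    rw [h1, h2]; simp
  have huu : u =ᵐ[volume] shp u := by
    have h1 : (u - shp u) =ᵐ[volume] 0 := by
      apply hat_inj (huI.sub (shp_integrable huI))
      intro w
      rw [hat_sub huI (shp_integrable huI), hat_shp]
      have := husa w
      simp only [star_add, star_one, add_right_inj] at this
      rw [this, sub_self]
    filter_upwards [h1] with t ht
    simpa [sub_eq_zero] using ht
  have hu0 : u =ᵐ[volume] 0 := by
    have h1 : ∀ᵐ t : ℝ, 0 < -t → u (-t) = 0 :=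
      (Measure.measurePreserving_neg (volume : Measure ℝ)).quasiMeasurePreserving.ae hup
    have h2 : ∀ᵐ t : ℝ, t ≠ 0 := by
      simp [ae_iff]
    filter_upwards [huu, hup, h1, h2] with t h3 h4 h5 h6
    rcases lt_trichotomy t 0 with h | h | h
    · rw [h3, shp, h5 (by linarith)]; simp
    · exact absurd h h6
    · exact h4 h
  have hU : ∀ w, star (1 + hat x w) * (1 + hat W w) = 1 := by
    intro w
    rw [← hhu, hat_congr hu0]
    simp [hat]
  refine ⟨a, ha0, x, y, by rw [hxw]; exact hXI, hyw, hx0, hy0, ?_⟩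
  intro w
  change (1 + hat x w) * (1 + hat y w) = 1 ∧ (1 + hat y w) * (1 + hat x w) = 1 ∧
    G w = star (1 + hat y w) * (1 + hat y w)
  have h1 : (1 + hat y w) * (1 + hat x w) = 1 := by
    rw [hhy, hhW, star_mul, hsa, mul_assoc, ← hhW, hU]
  have h2 := clm_mul_eq_one_comm h1
  refine ⟨h2, h1, ?_⟩
  have h3 : star (1 + hat y w) = G w * (1 + hat x w) := by
    rw [hhy, star_star, hhW]
  rw [h3, mul_assoc, h2, mul_one]

end V

end Pool.Agent.H667R2.PartC
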