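import Mathlib

/-! Basics for matrix spectral factorisation: exponentials, transforms, mean values. -/

open MeasureTheory Filter Topology

namespace Pool.Agent.H667R2

/-- the exponential `e^{-i ω t}` -/
noncomputable def ee (ω t : ℝ) : ℂ := Complex.exp (-((ω : ℂ) * (t : ℂ) * Complex.I))

lemma norm_ee (ω t : ℝ) : ‖ee ω t‖ = 1 := by
  have : ee ω t = Complex.exp (((-(ω * t) : ℝ) : ℂ) * Complex.I) := by
    unfold ee; push_cast; ring_nf
  rw [this, Complex.norm_exp_ofReal_mul_I]

lemma ee_zero (ω : ℝ) : ee ω 0 = 1 := by simp [ee]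

lemma ee_add (ω s t : ℝ) : ee ω (s + t) = ee ω s * ee ω t := by
  unfold ee; rw [← Complex.exp_add]; congr 1; push_cast; ring

lemma star_ee (ω t : ℝ) : (starRingEnd ℂ) (ee ω t) = ee ω (-t) := by
  unfold ee
  rw [← Complex.exp_conj]
  congr 1
  simp

lemma continuous_ee (t : ℝ) : Continuous (fun ω => ee ω t) := by
  unfold ee; fun_prop

lemma continuous_ee' (ω : ℝ) : Continuous (fun t => ee ω t) := by
  unfold ee; fun_prop

lemma ee_mul_neg (ω t : ℝ) : ee ω t * ee ω (-t) = 1 := by
  rw [← ee_add]; simp [ee_zero]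

section defs
variable {W : Type*} [NormedAddCommGroup W] [NormedSpace ℂ W]

/-- transform of a frequency-indexed family -/
noncomputable def tr (a : ℝ → W) (ω : ℝ) : W := ∑' h, ee ω h • a h

/-- Fourier transform -/
noncomputable def ft (f : ℝ → W) (ω : ℝ) : W := ∫ t, ee ω t • f t

lemma norm_ee_smul (ω t : ℝ) (w : W) : ‖ee ω t • w‖ = ‖w‖ := by
  rw [norm_smul, norm_ee, one_mul]

end defs

/-- window average over `[T, 2T]` -/
noncomputable def avg {W : Type*} [NormedAddCommGroup W] [NormedSpace ℝ W] (f : ℝ → W) (T : ℝ) :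
    W := (T⁻¹ : ℝ) • ∫ ω in T..(2 * T), f ω

/-! ### mean values of exponentials -/

lemma avg_ee_norm_le (θ : ℝ) {T : ℝ} (hT : 0 < T) : ‖avg (fun ω => ee ω θ) T‖ ≤ 1 := by
  unfold avg
  rw [norm_smul]
  have h1 : ‖∫ ω in T..(2 * T), ee ω θ‖ ≤ 1 * |2 * T - T| := by
    apply intervalIntegral.norm_integral_le_of_norm_le_const
    intro x _
    rw [norm_ee]
  have h2 : |2 * T - T| = T := by rw [show 2 * T - T = T by ring]; exact abs_of_pos hT
  rw [h2, one_mul] at h1
  calc ‖T⁻¹‖ * ‖∫ ω in T..(2 * T), ee ω θ‖ ≤ ‖T⁻¹‖ * T := by gcongr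
    _ = 1 := by
      rw [Real.norm_of_nonneg (by positivity)]
      field_simp

lemma avg_ee_tendsto (θ : ℝ) :
    Tendsto (avg (fun ω => ee ω θ)) atTop (𝓝 (if θ = 0 then 1 else 0)) := by
  by_cases hθ : θ = 0
  · subst hθ
    simp only [if_true]
    apply tendsto_const_nhds.congr'
    filter_upwards [eventually_gt_atTop 0] with T hT
    unfold avg
    simp only [ee_zero]
    rw [intervalIntegral.integral_const, show 2 * T - T = T by ring, smul_smul,
      inv_mul_cancel₀ hT.ne', one_smul]
  · rw [if_neg hθ]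
    have hc : (-(θ : ℂ) * Complex.I) ≠ 0 := by
      simp [hθ]
    have key : ∀ T : ℝ, 0 < T → ‖avg (fun ω => ee ω θ) T‖ ≤ (2 / |θ|) * T⁻¹ := by
      intro T hT
      unfold avg
      have e1 : ∀ ω : ℝ, ee ω θ = Complex.exp ((-(θ : ℂ) * Complex.I) * ω) := by
        intro ω; unfold ee; congr 1; ring
      simp_rw [e1]
      rw [integral_exp_mul_complex hc, norm_smul, norm_div]
      have e2 : ‖(-(θ : ℂ) * Complex.I)‖ = |θ| := by simp
      have e3 : ∀ s : ℝ, ‖Complex.exp ((-(θ : ℂ) * Complex.I) * s)‖ = 1 := by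
        intro s; rw [← e1, norm_ee]
      rw [e2, Real.norm_of_nonneg (by positivity : (0:ℝ) ≤ T⁻¹)]
      have e4 : ‖Complex.exp ((-(θ : ℂ) * Complex.I) * ((2 * T : ℝ) : ℂ)) -
          Complex.exp ((-(θ : ℂ) * Complex.I) * (T : ℂ))‖ ≤ 2 := by
        refine (norm_sub_le _ _).trans ?_
        rw [e3, e3]; norm_num
      have hθ' : 0 < |θ| := abs_pos.mpr hθ
      calc T⁻¹ * (‖Complex.exp ((-(θ : ℂ) * Complex.I) * ((2 * T : ℝ) : ℂ)) -
          Complex.exp ((-(θ : ℂ) * Complex.I) * (T : ℂ))‖ / |θ|) ≤ T⁻¹ * (2 / |θ|) := by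
            gcongr
        _ = (2 / |θ|) * T⁻¹ := by ring
    apply squeeze_zero_norm' (a := fun T => (2 / |θ|) * T⁻¹)
    · filter_upwards [eventually_gt_atTop 0] with T hT using key T hT
    · have := (tendsto_inv_atTop_zero (𝕜 := ℝ)).const_mul (2 / |θ|)
      simpa using this

section mean
variable {W : Type*} [NormedAddCommGroup W] [NormedSpace ℂ W] [CompleteSpace W]

lemma avg_tsum_aux {J : Type*} [Countable J] (θ : J → ℝ) (c : J → W)
    (hc : Summable (fun j => ‖c j‖)) :
    Tendsto (avg (fun ω => ∑' j, ee ω (θ j) • c j)) atTop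
      (𝓝 (∑' j, if θ j = 0 then c j else 0)) := by
  have h1 : ∀ T : ℝ, avg (fun ω => ∑' j, ee ω (θ j) • c j) T =
      ∑' j, avg (fun ω => ee ω (θ j)) T • c j := by
    intro T
    unfold avg
    let f : J → C(ℝ, W) := fun j => ⟨fun ω => ee ω (θ j) • c j, by
      exact (continuous_ee (θ j)).smul continuous_const⟩
    have h2 : ∑' j, ∫ ω in T..(2*T), f j ω = ∫ ω in T..(2*T), ∑' j, f j ω := by
      apply intervalIntegral.tsum_intervalIntegral_eq_of_summable_norm
      refine Summable.of_nonneg_of_le (fun j => norm_nonneg _) (fun j => ?_) hc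
      refine (ContinuousMap.norm_le _ (norm_nonneg _)).mpr (fun x => ?_)
      simp only [ContinuousMap.restrict_apply, f, ContinuousMap.coe_mk, norm_ee_smul, le_refl]
    have h3 : ∫ ω in T..(2*T), ∑' j, ee ω (θ j) • c j = ∫ ω in T..(2*T), ∑' j, f j ω := rfl
    rw [h3, ← h2, ← tsum_const_smul'']
    congr 1
    ext j
    simp only [f, ContinuousMap.coe_mk]
    rw [intervalIntegral.integral_smul_const]
    rw [smul_assoc]
  have h4 : Tendsto (fun T => ∑' j, avg (fun ω => ee ω (θ j)) T • c j) atTop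
      (𝓝 (∑' j, (if θ j = 0 then (1:ℂ) else 0) • c j)) := by
    apply tendsto_tsum_of_dominated_convergence hc
    · intro j
      exact (avg_ee_tendsto (θ j)).smul_const (c j)
    · filter_upwards [eventually_gt_atTop 0] with T hT
      intro j
      rw [norm_smul]
      calc _ ≤ 1 * ‖c j‖ := by gcongr; exact avg_ee_norm_le _ hT
        _ = _ := one_mul _
  have h5 : (∑' j, (if θ j = 0 then (1:ℂ) else 0) • c j) = ∑' j, if θ j = 0 then c j else 0 := by
    congr 1; ext j; split_ifs <;> simp
  rw [← h5]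
  exact h4.congr (fun T => (h1 T).symm)

lemma avg_tsum {J : Type*} (θ : J → ℝ) (c : J → W)
    (hc : Summable (fun j => ‖c j‖)) :
    Tendsto (avg (fun ω => ∑' j, ee ω (θ j) • c j)) atTop
      (𝓝 (∑' j, if θ j = 0 then c j else 0)) := by
  have hcount : (Function.support c).Countable := by
    have := hc.countable_support
    apply this.mono
    intro j hj
    simpa using hj
  have : Countable (Function.support c) := hcount
  have h1 := avg_tsum_aux (fun j : Function.support c => θ j) (fun j => c j)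
    (hc.subtype _)
  have h2 : ∀ ω : ℝ, ∑' j : Function.support c, ee ω (θ j) • c j = ∑' j, ee ω (θ j) • c j := by
    intro ω
    apply tsum_subtype_eq_of_support_subset (f := fun j => ee ω (θ j) • c j)
    intro j hj
    simp only [Function.mem_support] at hj ⊢
    intro h0; apply hj; rw [h0, smul_zero]
  have h3 : ∑' j : Function.support c, (if θ j = 0 then c j else 0) =
      ∑' j, if θ j = 0 then c j else 0 := by
    apply tsum_subtype_eq_of_support_subset (f := fun j => if θ j = 0 then c j else 0)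
    intro j hj
    simp only [Function.mem_support] at hj ⊢
    intro h0; apply hj; rw [h0]; simp
  rw [← h3]
  simp_rw [h2] at h1
  exact h1

end mean

end Pool.Agent.H667R2
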