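import Pool.Agent.H667R2.SF9

/-! Matrix level conversions. -/

open MeasureTheory Filter Topology Matrix

namespace Pool.Agent.H667R2

section det
variable {n : ℕ}

/-- the Euclidean space -/
abbrev EV (n : ℕ) := EuclideanSpace ℂ (Fin n)

/-- matrix to operator -/
noncomputable abbrev Phi (n : ℕ) : Matrix (Fin n) (Fin n) ℂ ≃⋆ₐ[ℂ] (EV n →L[ℂ] EV n) :=
  Matrix.toEuclideanCLM (n := Fin n) (𝕜 := ℂ)

lemma inner_Phi (A : Matrix (Fin n) (Fin n) ℂ) (v : EV n) :
    (inner ℂ v (Phi n A v) : ℂ) = star (WithLp.ofLp v) ⬝ᵥ (A *ᵥ WithLp.ofLp v) := by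
  rw [EuclideanSpace.inner_eq_star_dotProduct, dotProduct_comm]
  rfl

lemma lower_of_det {A : Matrix (Fin n) (Fin n) ℂ} (hA : A.IsHermitian)
    (hpsd : ∀ x : Fin n → ℂ, 0 ≤ (dotProduct (star x) (A.mulVec x)).re) {C δ : ℝ}
    (hC : 1 ≤ C) (hδ : 0 < δ) (hAC : ‖Phi n A‖ ≤ C) (hdet : δ ≤ A.det.re) (v : EV n) :
    (δ / C ^ n) * ‖v‖ ^ 2 ≤ (inner ℂ (Phi n A v) v : ℂ).re := by
  set e := hA.eigenvectorBasis with he
  set lam := hA.eigenvalues with hlam
  have hCpos : 0 < C := by linarith
  have hTe : ∀ i, Phi n A (e i) = ((lam i : ℝ) : ℂ) • e i := by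
    intro i
    have h1 := hA.mulVec_eigenvectorBasis i
    have h2 : WithLp.ofLp (Phi n A (e i)) = WithLp.ofLp (((lam i : ℝ) : ℂ) • e i) := by
      rw [Matrix.ofLp_toEuclideanCLM]
      rw [he, h1]
      ext j
      simp [hlam]
    exact WithLp.ofLp_injective 2 h2
  have hlam0 : ∀ i, 0 ≤ lam i := by
    intro i
    have h1 := hpsd (WithLp.ofLp (e i))
    rw [← inner_Phi, hTe, inner_smul_right, inner_self_eq_norm_sq_to_K,
      e.orthonormal.1 i] at h1
    simpa using h1
  have hlamC : ∀ i, lam i ≤ C := by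
    intro i
    have h1 := (Phi n A).le_of_opNorm_le hAC (e i)
    rw [hTe, norm_smul, Complex.norm_real, e.orthonormal.1 i, mul_one, mul_one,
      Real.norm_of_nonneg (hlam0 i)] at h1
    exact h1
  have hprod : δ ≤ ∏ i, lam i := by
    have h1 := hA.det_eq_prod_eigenvalues
    rw [h1] at hdet
    have h2 : (∏ i, ((lam i : ℝ) : ℂ)) = ((∏ i, lam i : ℝ) : ℂ) := by push_cast; rfl
    have h3 : (∏ i, ((hA.eigenvalues i : ℝ) : ℂ)).re = ∏ i, lam i := by
      rw [show (∏ i, ((hA.eigenvalues i : ℝ) : ℂ)) = ∏ i, ((lam i : ℝ) : ℂ) from rfl, h2,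
        Complex.ofReal_re]
    exact h3 ▸ hdet
  have hlow : ∀ i, δ / C ^ n ≤ lam i := by
    intro i
    rw [div_le_iff₀ (by positivity)]
    refine hprod.trans ?_
    rw [← Finset.mul_prod_erase Finset.univ lam (Finset.mem_univ i)]
    apply mul_le_mul_of_nonneg_left _ (hlam0 i)
    calc ∏ j ∈ Finset.univ.erase i, lam j ≤ ∏ _j ∈ Finset.univ.erase i, C :=
          Finset.prod_le_prod (fun j _ => hlam0 j) (fun j _ => hlamC j)
      _ = C ^ (Finset.univ.erase i).card := by rw [Finset.prod_const]
      _ ≤ C ^ n := by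
          apply pow_le_pow_right₀ hC
          refine (Finset.card_le_univ _).trans ?_
          simp
  have hexp : (inner ℂ (Phi n A v) v : ℂ) = ∑ i, ((lam i * ‖(inner ℂ (e i) v : ℂ)‖ ^ 2 : ℝ) : ℂ) := by
    rw [← e.sum_inner_mul_inner (Phi n A v) v]
    apply Finset.sum_congr rfl
    intro i _
    have hsa : star (Phi n A) = Phi n A := by
      rw [← map_star]
      congr 1
    have h1 : (inner ℂ (Phi n A v) (e i) : ℂ) = inner ℂ v (Phi n A (e i)) := by
      conv_lhs => rw [← hsa]
      rw [ContinuousLinearMap.star_eq_adjoint, ContinuousLinearMap.adjoint_inner_left]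
    rw [h1, hTe, inner_smul_right]
    have h2 : (inner ℂ v (e i) : ℂ) * inner ℂ (e i) v = ((‖(inner ℂ (e i) v : ℂ)‖ ^ 2 : ℝ) : ℂ) := by
      rw [← inner_conj_symm, Complex.conj_mul']
      push_cast
      rfl
    rw [mul_assoc, h2]
    push_cast
    rfl
  rw [hexp, ← Complex.ofReal_sum, Complex.ofReal_re, ← e.sum_sq_norm_inner_right v,
    Finset.mul_sum]
  apply Finset.sum_le_sum
  intro i _
  have := hlow i
  gcongr

end det

section conv

/-- collecting equal frequencies -/
lemma collect {W : Type*} [NormedAddCommGroup W] [NormedSpace ℂ W] [CompleteSpace W]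
    {s : ℝ} (hs : 0 ≤ s) (c : ℕ → W) (τ : ℕ → ℝ)
    (hc : Summable fun k => ‖c k‖ * Real.exp (s * |τ k|)) :
    ∃ a : ℝ → W, WS s a ∧ ∀ ω, tr a ω = ∑' k, ee ω (τ k) • c k := by
  classical
  have hinj : Function.Injective (fun k : ℕ => (τ k, k)) := fun a b h => (Prod.mk.inj h).2
  -- general reindexing
  have hsum : ∀ {x : ℕ → ℝ}, Summable x →
      Summable (fun p : ℝ × ℕ => if τ p.2 = p.1 then x p.2 else 0) := by
    intro x hx
    rw [← hinj.summable_iff]
    · refine hx.congr (fun k => ?_)
      simp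
    · rintro ⟨h, k⟩ hp
      simp only
      rw [if_neg]
      intro h0
      exact hp ⟨k, by simp [h0]⟩
  have hcn : Summable fun k => ‖c k‖ := by
    refine Summable.of_nonneg_of_le (fun _ => norm_nonneg _) (fun k => ?_) hc
    have : 1 ≤ Real.exp (s * |τ k|) := Real.one_le_exp (by positivity)
    nlinarith [norm_nonneg (c k)]
  have h1 := hsum hcn
  have h1' : Summable (fun p : ℝ × ℕ => ‖(if τ p.2 = p.1 then c p.2 else 0 : W)‖) := by
    refine h1.congr (fun p => ?_)
    split_ifs <;> simp
  refine ⟨fun h => ∑' k, if τ k = h then c k else 0, ?_, ?_⟩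
  · have h2 := hsum hc
    refine Summable.of_nonneg_of_le (fun _ => by positivity) (fun h => ?_) h2.prod
    have h3 : Summable (fun k => ‖(if τ k = h then c k else 0 : W)‖) := h1'.prod_factor h
    calc Real.exp (s * |h|) * ‖∑' k, if τ k = h then c k else 0‖
        ≤ Real.exp (s * |h|) * ∑' k, ‖(if τ k = h then c k else 0 : W)‖ := by
          gcongr
          exact norm_tsum_le_tsum_norm h3
      _ = ∑' k, Real.exp (s * |h|) * ‖(if τ k = h then c k else 0 : W)‖ := by
          rw [tsum_mul_left]
      _ = ∑' k, if τ k = h then ‖c k‖ * Real.exp (s * |τ k|) else 0 := by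
          apply tsum_congr
          intro k
          split_ifs with h0
          · rw [h0, mul_comm]
          · simp
  · intro ω
    unfold tr
    have h4 : ∀ h, ee ω h • ∑' k, (if τ k = h then c k else 0 : W) =
        ∑' k, (if τ k = h then ee ω (τ k) • c k else 0 : W) := by
      intro h
      rw [← tsum_const_smul'']
      apply tsum_congr
      intro k
      split_ifs with h0
      · rw [h0]
      · rw [smul_zero]
    simp_rw [h4]
    have h5 : Summable (Function.uncurry fun (h : ℝ) (k : ℕ) =>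
        (if τ k = h then ee ω (τ k) • c k else 0 : W)) := by
      apply Summable.of_norm
      refine h1.congr (fun p => ?_)
      simp only [Function.uncurry]
      split_ifs
      · rw [norm_ee_smul]
      · simp
    rw [← h5.tsum_comm]
    apply tsum_congr
    intro k
    rw [tsum_eq_single (τ k)]
    · rw [if_pos rfl]
    · intro h hh
      rw [if_neg (fun h0 => hh h0.symm)]

/-- enumerating a nonnegative-supported family -/
lemma enumerate {s : ℝ} (hs : 0 ≤ s) {a : ℝ → ℂ} (ha : WS s a) (hneg : ∀ h < 0, a h = 0) :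
    ∃ (c : ℕ → ℂ) (τ : ℕ → ℝ), (∀ k, 0 ≤ τ k) ∧
      Summable (fun k => ‖c k‖ * Real.exp (s * τ k)) ∧
      ∀ ω, tr a ω = ∑' k, c k * ee ω (τ k) := by
  classical
  have han := ha.norm hs
  have hcount : (Function.support a).Countable := by
    have := han.countable_support
    apply this.mono
    intro j hj
    simpa using hj
  have : Countable (Function.support a) := hcount
  obtain ⟨enc, henc⟩ := exists_injective_nat (Function.support a)
  have hnn : ∀ j : Function.support a, 0 ≤ (j : ℝ) := by
    intro j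
    by_contra hc
    exact j.2 (hneg _ (not_le.mp hc))
  refine ⟨Function.extend enc (fun j => a j) 0, Function.extend enc (fun j => (j : ℝ)) 0,
    ?_, ?_, ?_⟩
  · intro k
    by_cases hk : ∃ j, enc j = k
    · obtain ⟨j, rfl⟩ := hk
      rw [henc.extend_apply]
      exact hnn j
    · rw [Function.extend_apply' _ _ _ hk]
      simp
  · rw [← henc.summable_iff]
    · have h1 : Summable (fun j : Function.support a => Real.exp (s * |(j : ℝ)|) * ‖a j‖) :=
        ha.subtype _
      refine h1.congr (fun j => ?_)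
      simp only [Function.comp]
      rw [henc.extend_apply, henc.extend_apply, abs_of_nonneg (hnn j), mul_comm]
    · intro k hk
      rw [Function.extend_apply' _ _ _ (fun ⟨j, hj⟩ => hk ⟨j, hj⟩)]
      simp
  · intro ω
    unfold tr
    have h1 : ∑' h, ee ω h • a h = ∑' j : Function.support a, ee ω (j : ℝ) • a j := by
      symm
      apply tsum_subtype_eq_of_support_subset (f := fun h => ee ω h • a h)
      intro j hj
      simp only [Function.mem_support] at hj ⊢
      intro h0; apply hj; rw [h0, smul_zero]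
    rw [h1]
    rw [← henc.tsum_eq]
    · apply tsum_congr
      intro j
      rw [henc.extend_apply, henc.extend_apply, smul_eq_mul, mul_comm]
    · intro k hk
      by_contra hc
      apply hk
      simp only
      rw [Function.extend_apply' _ _ _ (fun ⟨j, hj⟩ => hc ⟨j, hj⟩)]
      simp

end conv

end Pool.Agent.H667R2
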