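import Pool.Agent.H667R2.SF10

/-! Final theorem. -/

open MeasureTheory Filter Topology Matrix

namespace Pool.Agent.H667R2

variable {n : ℕ}

/-- elementary operator -/
noncomputable def Eop (n : ℕ) (i j : Fin n) : EV n →L[ℂ] EV n := Phi n (Matrix.single i j 1)

/-- entry functional -/
noncomputable def entry (n : ℕ) (i j : Fin n) : (EV n →L[ℂ] EV n) →L[ℂ] ℂ :=
  (EuclideanSpace.proj i : EV n →L[ℂ] ℂ) ∘L
    (ContinuousLinearMap.apply ℂ (EV n) (EuclideanSpace.single j (1 : ℂ)))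

lemma entry_Phi (A : Matrix (Fin n) (Fin n) ℂ) (i j : Fin n) : entry n i j (Phi n A) = A i j := by
  unfold entry
  change (WithLp.ofLp (Phi n A (EuclideanSpace.single j (1 : ℂ)))) i = A i j
  rw [Matrix.ofLp_toEuclideanCLM]
  simp

lemma Phi_sum (A : Matrix (Fin n) (Fin n) ℂ) : Phi n A = ∑ i, ∑ j, A i j • Eop n i j := by
  conv_lhs => rw [Matrix.matrix_eq_sum_single A]
  simp only [map_sum]
  apply Finset.sum_congr rfl
  intro i _
  apply Finset.sum_congr rfl
  intro j _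
  unfold Eop
  rw [← map_smul]
  congr 1
  rw [Matrix.smul_single]
  simp

lemma WI_const_smul {W : Type*} [NormedAddCommGroup W] [NormedSpace ℂ W] {s : ℝ} {f : ℝ → ℂ}
    (hf : WI s f) (w : W) : WI s (fun t => f t • w) := by
  have := Integrable.smul_const hf w
  refine this.congr (ae_of_all _ (fun t => ?_))
  simp only
  rw [smul_assoc]

lemma WS_const_smul {W : Type*} [NormedAddCommGroup W] [NormedSpace ℂ W] {s : ℝ} {f : ℝ → ℂ}
    (hf : WS s f) (w : W) : WS s (fun t => f t • w) := by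
  refine (hf.mul_right ‖w‖).congr (fun t => ?_)
  rw [norm_smul]; ring

lemma WI_sum {W : Type*} [NormedAddCommGroup W] [NormedSpace ℝ W] {ι : Type*} (S : Finset ι)
    {s : ℝ} {f : ι → ℝ → W} (hf : ∀ i ∈ S, WI s (f i)) : WI s (fun t => ∑ i ∈ S, f i t) := by
  have := integrable_finsetSum S hf
  refine this.congr (ae_of_all _ (fun t => ?_))
  simp only
  rw [Finset.smul_sum]

lemma WS_sum {W : Type*} [NormedAddCommGroup W] {ι : Type*} (S : Finset ι)
    {s : ℝ} {f : ι → ℝ → W} (hf : ∀ i ∈ S, WS s (f i)) : WS s (fun t => ∑ i ∈ S, f i t) := by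
  have h1 := summable_sum hf
  refine Summable.of_nonneg_of_le (fun _ => by positivity) (fun h => ?_) h1
  rw [← Finset.mul_sum]
  gcongr
  exact norm_sum_le _ _

lemma ft_sum_const {W : Type*} [NormedAddCommGroup W] [NormedSpace ℂ W] [CompleteSpace W]
    {f : Fin n → Fin n → ℝ → ℂ} (hf : ∀ i j, Integrable (f i j)) (w : Fin n → Fin n → W)
    (ω : ℝ) : ft (fun t => ∑ i, ∑ j, f i j t • w i j) ω = ∑ i, ∑ j, ft (f i j) ω • w i j := by
  unfold ft
  have h1 : ∀ t, ee ω t • ∑ i, ∑ j, f i j t • w i j =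
      ∑ i, ∑ j, (ee ω t • f i j t) • w i j := by
    intro t
    rw [Finset.smul_sum]
    apply Finset.sum_congr rfl; intro i _
    rw [Finset.smul_sum]
    apply Finset.sum_congr rfl; intro j _
    rw [smul_assoc]
  simp_rw [h1]
  have h2 : ∀ i j, Integrable (fun t => (ee ω t • f i j t) • w i j) :=
    fun i j => (integrable_ee (hf i j) ω).smul_const _
  rw [integral_finsetSum _ (fun i _ => integrable_finsetSum _ (fun j _ => h2 i j))]
  apply Finset.sum_congr rfl; intro i _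
  rw [integral_finsetSum _ (fun j _ => h2 i j)]
  apply Finset.sum_congr rfl; intro j _
  rw [integral_smul_const]

lemma tr_sum_const {W : Type*} [NormedAddCommGroup W] [NormedSpace ℂ W] [CompleteSpace W]
    {f : Fin n → Fin n → ℝ → ℂ} (hf : ∀ i j, Summable fun h => ‖f i j h‖) (w : Fin n → Fin n → W)
    (ω : ℝ) : tr (fun t => ∑ i, ∑ j, f i j t • w i j) ω = ∑ i, ∑ j, tr (f i j) ω • w i j := by
  unfold tr
  have h1 : ∀ t, ee ω t • ∑ i, ∑ j, f i j t • w i j =
      ∑ i, ∑ j, (ee ω t • f i j t) • w i j := by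
    intro t
    rw [Finset.smul_sum]
    apply Finset.sum_congr rfl; intro i _
    rw [Finset.smul_sum]
    apply Finset.sum_congr rfl; intro j _
    rw [smul_assoc]
  simp_rw [h1]
  have h2 : ∀ i j, Summable (fun t => (ee ω t • f i j t) • w i j) :=
    fun i j => (summable_ee (hf i j) ω (fun h => h)).of_norm.smul_const _
  rw [Summable.tsum_finsetSum (fun i _ => summable_sum (fun j _ => h2 i j))]
  apply Finset.sum_congr rfl; intro i _
  rw [Summable.tsum_finsetSum (fun j _ => h2 i j)]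
  apply Finset.sum_congr rfl; intro j _
  rw [Summable.tsum_smul_const (summable_ee (hf i j) ω (fun h => h)).of_norm]

/-- entrywise causal representation from the operator-level one -/
lemma entry_rep {s : ℝ} (hs : 0 < s) {g c : ℝ → EV n →L[ℂ] EV n} (hg : WI s g) (hc : WS s c)
    (hgn : ∀ t < 0, g t = 0) (hcn : ∀ t < 0, c t = 0) (R : ℝ → Matrix (Fin n) (Fin n) ℂ)
    (hR : ∀ ω, Phi n (R ω) = ft g ω + tr c ω) (i j : Fin n) :
    ∃ σ : ℝ, 0 < σ ∧ ∃ (fa : ℝ → ℂ) (c : ℕ → ℂ) (τ : ℕ → ℝ),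
          (∀ k : ℕ, 0 ≤ τ k) ∧
          MeasureTheory.Integrable (fun t : ℝ => fa t * ((Real.exp (σ * t) : ℝ) : ℂ))
            (MeasureTheory.volume.restrict (Set.Ici (0 : ℝ))) ∧
          Summable (fun k : ℕ => ‖c k‖ * Real.exp (σ * τ k)) ∧
          ∀ ω : ℝ, R ω i j =
            (∫ t in Set.Ici (0 : ℝ), fa t * Complex.exp (-((ω : ℂ) * (t : ℂ) * Complex.I))) +
              ∑' k : ℕ, c k * Complex.exp (-((ω : ℂ) * ((τ k : ℝ) : ℂ) * Complex.I)) := by
  set l := entry n i j with hl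
  have hWS : WS s (fun h => l (c h)) := by
    refine Summable.of_nonneg_of_le (fun _ => by positivity) (fun h => ?_) (hc.mul_left ‖l‖)
    calc Real.exp (s * |h|) * ‖l (c h)‖ ≤ Real.exp (s * |h|) * (‖l‖ * ‖c h‖) := by
          gcongr; exact l.le_opNorm _
      _ = _ := by ring
  obtain ⟨c', τ, hτ, hcs, hctr⟩ := enumerate hs.le hWS (fun h hh => by simp only [hcn h hh, map_zero])
  refine ⟨s, hs, fun t => l (g t), c', τ, hτ, ?_, hcs, ?_⟩
  · have h1 : Integrable (fun t => l (Real.exp (s * |t|) • g t)) := l.integrable_comp hg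
    have h2 : Integrable (fun t => l (Real.exp (s * |t|) • g t)) (volume.restrict (Set.Ici 0)) :=
      h1.restrict
    refine h2.congr ?_
    filter_upwards [ae_restrict_mem measurableSet_Ici] with t ht
    rw [abs_of_nonneg ht]
    have : Real.exp (s * t) • g t = ((Real.exp (s * t) : ℝ) : ℂ) • g t := rfl
    rw [this, map_smul, smul_eq_mul, mul_comm]
  · intro ω
    have h1 : R ω i j = l (ft g ω) + l (tr c ω) := by
      rw [← entry_Phi (R ω) i j, hR ω, map_add]
    rw [h1]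
    have hgi := hg.integrable hs.le
    congr 1
    · unfold ft
      rw [← l.integral_comp_comm (integrable_ee hgi ω)]
      have h2 : ∀ t, l (ee ω t • g t) = l (g t) * ee ω t := by
        intro t
        rw [map_smul, smul_eq_mul, mul_comm]
      simp_rw [h2]
      symm
      apply setIntegral_eq_integral_of_forall_compl_eq_zero
      intro t ht
      rw [hgn t (by simpa using ht), map_zero, zero_mul]
    · have h3 : l (tr c ω) = tr (fun h => l (c h)) ω := by
        unfold tr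
        rw [l.map_tsum (summable_ee (hc.norm hs.le) ω (fun h => h)).of_norm]
        apply tsum_congr
        intro h
        rw [map_smul]
      rw [h3, hctr]
      rfl

theorem main_thm :
    ∀ (n : ℕ) (F : ℝ → Matrix (Fin n) (Fin n) ℂ),
      (∀ i j : Fin n, ∃ σ : ℝ, 0 < σ ∧ ∃ (fa : ℝ → ℂ) (c : ℕ → ℂ) (τ : ℕ → ℝ),
          MeasureTheory.Integrable (fun t : ℝ => fa t * ((Real.exp (σ * |t|) : ℝ) : ℂ)) ∧
          Summable (fun k : ℕ => ‖c k‖ * Real.exp (σ * |τ k|)) ∧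
          ∀ ω : ℝ, F ω i j =
            (∫ t : ℝ, fa t * Complex.exp (-((ω : ℂ) * (t : ℂ) * Complex.I))) +
              ∑' k : ℕ, c k * Complex.exp (-((ω : ℂ) * ((τ k : ℝ) : ℂ) * Complex.I))) →
      (∀ ω : ℝ, (F ω).IsHermitian ∧
          ∀ x : Fin n → ℂ, 0 ≤ (dotProduct (star x) ((F ω).mulVec x)).re) →
      (∃ δ : ℝ, 0 < δ ∧ ∀ ω : ℝ, δ ≤ ((F ω).det).re) →
      ∃ R : ℝ → Matrix (Fin n) (Fin n) ℂ,
        (∀ ω : ℝ, IsUnit (R ω)) ∧
        (∀ ω : ℝ, F ω = (R ω).conjTranspose * R ω) ∧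
        (∀ i j : Fin n, ∃ σ : ℝ, 0 < σ ∧ ∃ (fa : ℝ → ℂ) (c : ℕ → ℂ) (τ : ℕ → ℝ),
          (∀ k : ℕ, 0 ≤ τ k) ∧
          MeasureTheory.Integrable (fun t : ℝ => fa t * ((Real.exp (σ * t) : ℝ) : ℂ))
            (MeasureTheory.volume.restrict (Set.Ici (0 : ℝ))) ∧
          Summable (fun k : ℕ => ‖c k‖ * Real.exp (σ * τ k)) ∧
          ∀ ω : ℝ, R ω i j =
            (∫ t in Set.Ici (0 : ℝ), fa t * Complex.exp (-((ω : ℂ) * (t : ℂ) * Complex.I))) +
              ∑' k : ℕ, c k * Complex.exp (-((ω : ℂ) * ((τ k : ℝ) : ℂ) * Complex.I))) ∧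
        (∀ i j : Fin n, ∃ σ : ℝ, 0 < σ ∧ ∃ (fa : ℝ → ℂ) (c : ℕ → ℂ) (τ : ℕ → ℝ),
          (∀ k : ℕ, 0 ≤ τ k) ∧
          MeasureTheory.Integrable (fun t : ℝ => fa t * ((Real.exp (σ * t) : ℝ) : ℂ))
            (MeasureTheory.volume.restrict (Set.Ici (0 : ℝ))) ∧
          Summable (fun k : ℕ => ‖c k‖ * Real.exp (σ * τ k)) ∧
          ∀ ω : ℝ, (R ω)⁻¹ i j =
            (∫ t in Set.Ici (0 : ℝ), fa t * Complex.exp (-((ω : ℂ) * (t : ℂ) * Complex.I))) +
              ∑' k : ℕ, c k * Complex.exp (-((ω : ℂ) * ((τ k : ℝ) : ℂ) * Complex.I))) := by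
  classical
  intro n F hrep hherm hdet
  obtain ⟨δ, hδ, hdet⟩ := hdet
  choose σ hσ fa c τ hfa hc hFrep using hrep
  -- a common weight
  obtain ⟨s0, hs0, hs0le⟩ : ∃ s0 : ℝ, 0 < s0 ∧ ∀ i j, s0 ≤ σ i j := by
    rcases isEmpty_or_nonempty (Fin n) with he | he
    · exact ⟨1, one_pos, fun i => he.elim i⟩
    · obtain ⟨p, hp⟩ := Finite.exists_min (fun p : Fin n × Fin n => σ p.1 p.2)
      exact ⟨σ p.1 p.2, hσ _ _, fun i j => hp (i, j)⟩
  have hfaWI : ∀ i j, WI s0 (fa i j) := by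
    intro i j
    apply WI.mono (hs0le i j)
    refine (hfa i j).congr (ae_of_all _ (fun t => ?_))
    simp only
    rw [mul_comm]
    rfl
  have hcol : ∀ i j, ∃ a : ℝ → ℂ, WS s0 a ∧ ∀ ω, tr a ω = ∑' k, ee ω (τ i j k) • c i j k := by
    intro i j
    apply collect hs0.le
    refine Summable.of_nonneg_of_le (fun _ => by positivity) (fun k => ?_) (hc i j)
    have := hs0le i j
    gcongr
  choose ad hadWS hadtr using hcol
  set f : ℝ → EV n →L[ℂ] EV n := fun t => ∑ i, ∑ j, fa i j t • Eop n i j with hf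
  set a : ℝ → EV n →L[ℂ] EV n := fun t => ∑ i, ∑ j, ad i j t • Eop n i j with ha
  have hfWI : WI s0 f :=
    WI_sum _ (fun i _ => WI_sum _ (fun j _ => WI_const_smul (hfaWI i j) _))
  have haWS : WS s0 a :=
    WS_sum _ (fun i _ => WS_sum _ (fun j _ => WS_const_smul (hadWS i j) _))
  have hFop : ∀ ω, Phi n (F ω) = ft f ω + tr a ω := by
    intro ω
    rw [hf, ha, ft_sum_const (fun i j => (hfaWI i j).integrable hs0.le),
      tr_sum_const (fun i j => (hadWS i j).norm hs0.le), Phi_sum, ← Finset.sum_add_distrib]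
    apply Finset.sum_congr rfl; intro i _
    rw [← Finset.sum_add_distrib]
    apply Finset.sum_congr rfl; intro j _
    rw [← add_smul]
    congr 1
    rw [hFrep i j ω, hadtr]
    unfold ft
    congr 1
    · congr 1
      ext1 t
      rw [smul_eq_mul, mul_comm]
      rfl
    · apply tsum_congr
      intro k
      rw [smul_eq_mul, mul_comm]
      rfl
  have hsa : ∀ ω, star (Phi n (F ω)) = Phi n (F ω) := by
    intro ω
    rw [← map_star]
    congr 1
    exact (hherm ω).1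
  set C : ℝ := (∫ t, ‖f t‖) + (∑' h, ‖a h‖) + 1 with hCdef
  have hC1 : 1 ≤ C := by
    have h1 : 0 ≤ ∫ t, ‖f t‖ := integral_nonneg (fun _ => norm_nonneg _)
    have h2 : 0 ≤ ∑' h, ‖a h‖ := tsum_nonneg (fun _ => norm_nonneg _)
    rw [hCdef]; linarith
  have hCb : ∀ ω, ‖Phi n (F ω)‖ ≤ C := by
    intro ω
    rw [hFop]
    have h1 := norm_ft_le f ω
    have h2 := norm_tr_le (haWS.norm hs0.le) ω
    have h3 := norm_add_le (ft f ω) (tr a ω)
    rw [hCdef]; linarith
  have hpos : ∀ ω v, (δ / C ^ n) * ‖v‖ ^ 2 ≤ (inner ℂ (Phi n (F ω) v) v : ℂ).re := fun ω v =>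
    lower_of_det (hherm ω).1 (hherm ω).2 hC1 hδ (hCb ω) (hdet ω) v
  have hCpos : 0 < C := by linarith
  obtain ⟨s, hs, g, gi, cc, ci, hg, hgi, hcc, hci, hgn, hgin, hcn, hcin, h1, h2, h3⟩ :=
    op_factor (EuclideanSpace.basisFun (Fin n) ℂ) (fun ω => Phi n (F ω)) hs0 f a hfWI haWS hFop
      hsa (div_pos hδ (pow_pos hCpos n)) hpos
  set R : ℝ → Matrix (Fin n) (Fin n) ℂ := fun ω => (Phi n).symm (ft g ω + tr cc ω) with hRdef
  set Ri : ℝ → Matrix (Fin n) (Fin n) ℂ := fun ω => (Phi n).symm (ft gi ω + tr ci ω) with hRidef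
  have hPR : ∀ ω, Phi n (R ω) = ft g ω + tr cc ω := fun ω => (Phi n).apply_symm_apply _
  have hPRi : ∀ ω, Phi n (Ri ω) = ft gi ω + tr ci ω := fun ω => (Phi n).apply_symm_apply _
  have hRRi : ∀ ω, R ω * Ri ω = 1 := by
    intro ω
    apply EquivLike.injective (Phi n)
    rw [map_mul, hPR, hPRi, h1, map_one]
  have hRiR : ∀ ω, Ri ω * R ω = 1 := by
    intro ω
    apply EquivLike.injective (Phi n)
    rw [map_mul, hPR, hPRi, h2, map_one]
  have hinv : ∀ ω, (R ω)⁻¹ = Ri ω := fun ω => Matrix.inv_eq_right_inv (hRRi ω)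
  refine ⟨R, fun ω => ⟨⟨R ω, Ri ω, hRRi ω, hRiR ω⟩, rfl⟩, ?_, ?_, ?_⟩
  · intro ω
    apply EquivLike.injective (Phi n)
    rw [map_mul, ← star_eq_conjTranspose, map_star, hPR]
    exact h3 ω
  · exact entry_rep hs hg hcc hgn hcn R hPR
  · intro i j
    simp_rw [hinv]
    exact entry_rep hs hgi hci hgin hcin Ri hPRi i j

end Pool.Agent.H667R2
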