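import Pool.Agent.H667R2.SF1

/-! Bilinear sums, convolution on the discrete real line, Parseval mean value. -/

open MeasureTheory Filter Topology

namespace Pool.Agent.H667R2

section bil
variable {σ : ℂ →+* ℂ} [RingHomIsometric σ]
variable {A B C : Type*} [NormedAddCommGroup A] [NormedSpace ℂ A] [CompleteSpace A]
  [NormedAddCommGroup B] [NormedSpace ℂ B] [CompleteSpace B]
  [NormedAddCommGroup C] [NormedSpace ℂ C] [CompleteSpace C]

omit [CompleteSpace A] [CompleteSpace B] [CompleteSpace C] in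
lemma summable_bil (β : A →SL[σ] B →L[ℂ] C) {ι κ : Type*} {x : ι → A} {y : κ → B}
    (hx : Summable fun i => ‖x i‖) (hy : Summable fun k => ‖y k‖) :
    Summable (fun p : ι × κ => ‖β (x p.1) (y p.2)‖) := by
  have h := hx.mul_of_nonneg hy (fun _ => norm_nonneg _) (fun _ => norm_nonneg _)
  refine Summable.of_nonneg_of_le (fun _ => norm_nonneg _) (fun p => ?_) (h.mul_left ‖β‖)
  calc _ ≤ ‖β‖ * ‖x p.1‖ * ‖y p.2‖ := β.le_opNorm₂ _ _
    _ = _ := by ring

lemma tsum_bil (β : A →SL[σ] B →L[ℂ] C) {ι κ : Type*} {x : ι → A} {y : κ → B}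
    (hx : Summable fun i => ‖x i‖) (hy : Summable fun k => ‖y k‖) :
    β (∑' i, x i) (∑' k, y k) = ∑' p : ι × κ, β (x p.1) (y p.2) := by
  rw [(summable_bil β hx hy).of_norm.tsum_prod]
  have h1 : ∀ i, ∑' k, β (x i) (y k) = β (x i) (∑' k, y k) :=
    fun i => ((β (x i)).map_tsum hy.of_norm).symm
  simp only [h1]
  have h2 : HasSum (fun i => β (x i) (∑' k, y k)) (β (∑' i, x i) (∑' k, y k)) :=
    (ContinuousLinearMap.apply ℂ C (∑' k, y k)).hasSum (β.hasSum hx.of_norm.hasSum)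
  exact h2.tsum_eq.symm

end bil

/-- the reindexing `(h,g) ↦ (g, h-g)` -/
def shearEquiv : ℝ × ℝ ≃ ℝ × ℝ where
  toFun p := (p.2, p.1 - p.2)
  invFun q := (q.1 + q.2, q.1)
  left_inv p := by ext <;> simp
  right_inv q := by ext <;> simp

lemma summable_shear {a b : ℝ → ℝ} (ha : Summable a) (hb : Summable b)
    (ha0 : ∀ h, 0 ≤ a h) (hb0 : ∀ h, 0 ≤ b h) :
    Summable (fun p : ℝ × ℝ => a p.2 * b (p.1 - p.2)) := by
  have h := ha.mul_of_nonneg hb ha0 hb0
  exact (shearEquiv.summable_iff (f := fun p : ℝ × ℝ => a p.1 * b p.2)).mpr h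

/-- exponentially weighted summability -/
def WS {W : Type*} [NormedAddCommGroup W] (s : ℝ) (a : ℝ → W) : Prop :=
  Summable (fun h => Real.exp (s * |h|) * ‖a h‖)

lemma WS.mono {W : Type*} [NormedAddCommGroup W] {s s' : ℝ} (h : s' ≤ s) {a : ℝ → W}
    (ha : WS s a) : WS s' a := by
  refine Summable.of_nonneg_of_le (fun _ => by positivity) (fun x => ?_) ha
  gcongr

lemma WS.norm {W : Type*} [NormedAddCommGroup W] {s : ℝ} (hs : 0 ≤ s) {a : ℝ → W}
    (ha : WS s a) : Summable (fun h => ‖a h‖) := by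
  refine Summable.of_nonneg_of_le (fun _ => norm_nonneg _) (fun x => ?_) ha
  have : 1 ≤ Real.exp (s * |x|) := Real.one_le_exp (by positivity)
  nlinarith [norm_nonneg (a x)]

lemma WS_zero_iff {W : Type*} [NormedAddCommGroup W] {a : ℝ → W} :
    WS 0 a ↔ Summable (fun h => ‖a h‖) := by
  simp [WS]

lemma exp_weight_le {s : ℝ} (hs : 0 ≤ s) (g k : ℝ) :
    Real.exp (s * |g + k|) ≤ Real.exp (s * |g|) * Real.exp (s * |k|) := by
  rw [← Real.exp_add]
  apply Real.exp_le_exp.mpr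
  have := abs_add_le g k
  nlinarith

section conv
variable {A B C : Type*} [NormedAddCommGroup A] [NormedSpace ℂ A]
  [NormedAddCommGroup B] [NormedSpace ℂ B]
  [NormedAddCommGroup C] [NormedSpace ℂ C]

/-- discrete convolution -/
noncomputable def cv (β : A →L[ℂ] B →L[ℂ] C) (a : ℝ → A) (b : ℝ → B) (h : ℝ) : C :=
  ∑' g, β (a g) (b (h - g))

lemma summable_cv_term (β : A →L[ℂ] B →L[ℂ] C) {a : ℝ → A} {b : ℝ → B}
    (ha : Summable fun h => ‖a h‖) (hb : Summable fun h => ‖b h‖) :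
    Summable (fun p : ℝ × ℝ => ‖β (a p.2) (b (p.1 - p.2))‖) :=
  (shearEquiv.summable_iff (f := fun p : ℝ × ℝ => ‖β (a p.1) (b p.2)‖)).mpr
    (summable_bil β ha hb)

lemma summable_cv_term' (β : A →L[ℂ] B →L[ℂ] C) {a : ℝ → A} {b : ℝ → B}
    (ha : Summable fun h => ‖a h‖) (hb : Summable fun h => ‖b h‖) (h : ℝ) :
    Summable (fun g : ℝ => ‖β (a g) (b (h - g))‖) :=
  (summable_cv_term β ha hb).prod_factor h

lemma norm_cv_le (β : A →L[ℂ] B →L[ℂ] C) {a : ℝ → A} {b : ℝ → B}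
    (ha : Summable fun h => ‖a h‖) (hb : Summable fun h => ‖b h‖) (h : ℝ) :
    ‖cv β a b h‖ ≤ ∑' g, ‖β (a g) (b (h - g))‖ :=
  norm_tsum_le_tsum_norm (summable_cv_term' β ha hb h)

lemma WS_cv (β : A →L[ℂ] B →L[ℂ] C) {s : ℝ} (hs : 0 ≤ s) {a : ℝ → A} {b : ℝ → B}
    (ha : WS s a) (hb : WS s b) : WS s (cv β a b) := by
  have h1 := summable_shear ha hb (fun _ => by positivity) (fun _ => by positivity)
  have h2 := (h1.mul_left ‖β‖).prod
  refine Summable.of_nonneg_of_le (fun _ => by positivity) (fun h => ?_) h2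
  have h3 := (h1.mul_left ‖β‖).prod_factor h
  have ha' := ha.norm hs
  have hb' := hb.norm hs
  have h4 := norm_cv_le β ha' hb' h
  have h5 := summable_cv_term' β ha' hb' h
  calc Real.exp (s * |h|) * ‖cv β a b h‖ ≤
      Real.exp (s * |h|) * ∑' g, ‖β (a g) (b (h - g))‖ := by gcongr
    _ = ∑' g, Real.exp (s * |h|) * ‖β (a g) (b (h - g))‖ := by rw [tsum_mul_left]
    _ ≤ _ := by
      apply Summable.tsum_le_tsum _ (h5.mul_left _) h3
      intro g
      have h6 : Real.exp (s * |h|) ≤ Real.exp (s * |g|) * Real.exp (s * |h - g|) := by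
        have := exp_weight_le hs g (h - g)
        simpa using this
      calc Real.exp (s * |h|) * ‖β (a g) (b (h - g))‖
          ≤ (Real.exp (s * |g|) * Real.exp (s * |h - g|)) *
            (‖β‖ * ‖a g‖ * ‖b (h - g)‖) := by
            gcongr
            exact β.le_opNorm₂ _ _
        _ = _ := by ring

lemma summable_cv (β : A →L[ℂ] B →L[ℂ] C) {a : ℝ → A} {b : ℝ → B}
    (ha : Summable fun h => ‖a h‖) (hb : Summable fun h => ‖b h‖) :
    Summable (fun h => ‖cv β a b h‖) := by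
  rw [← WS_zero_iff] at *
  exact WS_cv β le_rfl ha hb

lemma summable_ee {W : Type*} [NormedAddCommGroup W] [NormedSpace ℂ W] {ι : Type*} {c : ι → W}
    (hc : Summable fun h => ‖c h‖) (ω : ℝ) (θ : ι → ℝ) :
    Summable (fun h => ‖ee ω (θ h) • c h‖) := by
  simpa only [norm_ee_smul] using hc

variable [CompleteSpace A] [CompleteSpace B] [CompleteSpace C]

lemma tr_cv (β : A →L[ℂ] B →L[ℂ] C) {a : ℝ → A} {b : ℝ → B}
    (ha : Summable fun h => ‖a h‖) (hb : Summable fun h => ‖b h‖) (ω : ℝ) :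
    tr (cv β a b) ω = β (tr a ω) (tr b ω) := by
  unfold tr
  rw [tsum_bil β (summable_ee ha ω _) (summable_ee hb ω _)]
  have h1 : ∀ p : ℝ × ℝ, β (ee ω p.1 • a p.1) (ee ω p.2 • b p.2) =
      ee ω (p.1 + p.2) • β (a p.1) (b p.2) := by
    intro p
    rw [ee_add, map_smul (β (ee ω p.1 • a p.1)), map_smul β, ContinuousLinearMap.smul_apply,
      smul_smul, mul_comm]
  simp_rw [h1]
  rw [← shearEquiv.tsum_eq]
  have h2 : Summable (fun c : ℝ × ℝ => ee ω ((shearEquiv c).1 + (shearEquiv c).2) •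
      β (a (shearEquiv c).1) (b (shearEquiv c).2)) := by
    apply Summable.of_norm
    simp only [norm_ee_smul]
    exact summable_cv_term β ha hb
  rw [h2.tsum_prod]
  congr 1
  ext h
  simp only [shearEquiv, Equiv.coe_fn_mk]
  unfold cv
  have h3 : ∀ g : ℝ, ee ω (g + (h - g)) = ee ω h := by intro g; congr 1; ring
  simp_rw [h3]
  rw [Summable.tsum_const_smul]
  exact (summable_cv_term' β ha hb h).of_norm

end conv

section parseval
variable {V : Type*} [NormedAddCommGroup V] [InnerProductSpace ℂ V] [CompleteSpace V]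

lemma inner_tr (a : ℝ → V) (ha : Summable fun h => ‖a h‖) (ω : ℝ) :
    inner ℂ (tr a ω) (tr a ω) =
      ∑' p : ℝ × ℝ, ee ω (p.2 - p.1) • (inner ℂ (a p.1) (a p.2) : ℂ) := by
  have h := tsum_bil (innerSL ℂ (E := V)) (summable_ee ha ω (fun h => h))
    (summable_ee ha ω (fun h => h))
  simp only [innerSL_apply_apply] at h
  unfold tr
  rw [h]
  congr 1
  ext p
  rw [inner_smul_left, inner_smul_right, star_ee, sub_eq_neg_add, ee_add, smul_eq_mul]
  ring

lemma parseval_avg (a : ℝ → V) (ha : Summable fun h => ‖a h‖) :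
    Tendsto (avg (fun ω => ‖tr a ω‖ ^ 2)) atTop (𝓝 (∑' h, ‖a h‖ ^ 2)) := by
  have h1 : Tendsto (avg (fun ω => (inner ℂ (tr a ω) (tr a ω) : ℂ))) atTop
      (𝓝 (∑' p : ℝ × ℝ, if p.2 - p.1 = 0 then (inner ℂ (a p.1) (a p.2) : ℂ) else 0)) := by
    have h2 := avg_tsum (fun p : ℝ × ℝ => p.2 - p.1)
      (fun p : ℝ × ℝ => (inner ℂ (a p.1) (a p.2) : ℂ)) (by
        have := summable_bil (innerSL ℂ (E := V)) ha ha
        simpa only [innerSL_apply_apply] using this)
    refine h2.congr (fun T => ?_)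
    congr 1
    ext ω
    exact (inner_tr a ha ω).symm
  have h3 : (∑' p : ℝ × ℝ, if p.2 - p.1 = 0 then (inner ℂ (a p.1) (a p.2) : ℂ) else 0) =
      ((∑' h, ‖a h‖ ^ 2 : ℝ) : ℂ) := by
    have hs : Summable (fun p : ℝ × ℝ =>
        if p.2 - p.1 = 0 then (inner ℂ (a p.1) (a p.2) : ℂ) else 0) := by
      have := summable_bil (innerSL ℂ (E := V)) ha ha
      simp only [innerSL_apply_apply] at this
      refine Summable.of_norm_bounded this (fun p => ?_)
      split_ifs
      · exact le_rfl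
      · simp
    rw [hs.tsum_prod, Complex.ofReal_tsum]
    congr 1
    ext g
    rw [tsum_eq_single g]
    · simp
    · intro h hh
      rw [if_neg]
      simpa [sub_eq_zero] using hh
  rw [h3] at h1
  have h4 := (Complex.continuous_re.tendsto _).comp h1
  simp only [Complex.ofReal_re] at h4
  refine h4.congr (fun T => ?_)
  simp only [Function.comp, avg]
  have h5 : ∀ ω : ℝ, (inner ℂ (tr a ω) (tr a ω) : ℂ) = ((‖tr a ω‖ ^ 2 : ℝ) : ℂ) := by
    intro ω
    rw [inner_self_eq_norm_sq_to_K]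
    norm_cast
  simp_rw [h5]
  rw [intervalIntegral.integral_ofReal]
  simp

end parseval

end Pool.Agent.H667R2
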