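import Pool.Agent.H667R2.SF2

/-! Operators on `ℓ¹(ℝ; V)` and the growth lemma. -/

open MeasureTheory Filter Topology

namespace Pool.Agent.H667R2

section growth

lemma growth {E : Type*} [NormedAddCommGroup E] [NormedSpace ℂ E] {β : Type*}
    (T T0 : E →L[ℂ] E) (Tb : β → E →L[ℂ] E)
    (hT : ∀ v, HasSum (fun b => Tb b v) (T v - T0 v)) (c0 η : ℝ) (c : β → ℝ)
    (hc0 : 0 ≤ c0) (hη : 0 ≤ η) (hc : HasSum c η) (W : ℕ → Set E) (N : E → ℝ)
    (g : ℕ → ℝ) (hg0 : ∀ m, 0 ≤ g m)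
    (hW0 : ∀ m v, v ∈ W m → T0 v ∈ W (m + 1)) (hN0 : ∀ m v, v ∈ W m → N (T0 v) ≤ c0 * N v)
    (hWb : ∀ b m v, v ∈ W m → Tb b v ∈ W (m + 1))
    (hNb : ∀ b m v, v ∈ W m → N (Tb b v) ≤ c b * N v)
    (hg : ∀ m v, v ∈ W m → ‖v‖ ≤ g m * N v) :
    ∀ n m v, v ∈ W m → ‖(T ^ n) v‖ ≤ g (m + n) * (c0 + η) ^ n * N v := by
  intro n
  induction n with
  | zero =>
    intro m v hv
    simpa using hg m v hv
  | succ n ih =>
    intro m v hv
    have h0 : (T ^ (n + 1)) v = (T ^ n) (T0 v) + (T ^ n) (T v - T0 v) := by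
      rw [← map_add, pow_succ, mul_apply_eq_comp]
      congr 1; abel
    have h1 : ‖(T ^ n) (T0 v)‖ ≤ g (m + 1 + n) * (c0 + η) ^ n * (c0 * N v) := by
      refine (ih (m + 1) _ (hW0 m v hv)).trans ?_
      have := hN0 m v hv
      have h3 : 0 ≤ g (m + 1 + n) * (c0 + η) ^ n := mul_nonneg (hg0 _) (by positivity)
      exact mul_le_mul_of_nonneg_left this h3
    have h2 : ‖(T ^ n) (T v - T0 v)‖ ≤ g (m + 1 + n) * (c0 + η) ^ n * (η * N v) := by
      have hs : HasSum (fun b => (T ^ n) (Tb b v)) ((T ^ n) (T v - T0 v)) :=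
        (T ^ n).hasSum (hT v)
      rw [← hs.tsum_eq]
      apply tsum_of_norm_bounded (g := fun b => g (m + 1 + n) * (c0 + η) ^ n * (c b * N v))
      · exact (hc.mul_right _).mul_left _
      · intro b
        refine (ih (m + 1) _ (hWb b m v hv)).trans ?_
        have := hNb b m v hv
        have h3 : 0 ≤ g (m + 1 + n) * (c0 + η) ^ n := mul_nonneg (hg0 _) (by positivity)
        exact mul_le_mul_of_nonneg_left this h3
    rw [h0]
    refine (norm_add_le _ _).trans ((add_le_add h1 h2).trans (le_of_eq ?_))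
    rw [show m + 1 + n = m + (n + 1) by ring]
    ring

end growth

section E1
variable {V : Type*} [NormedAddCommGroup V]

/-- `ℓ¹(ℝ; V)` -/
def E1 (V : Type*) [NormedAddCommGroup V] : Type _ := lp (fun _ : ℝ => V) 1

noncomputable instance : NormedAddCommGroup (E1 V) :=
  inferInstanceAs (NormedAddCommGroup (lp (fun _ : ℝ => V) 1))

noncomputable instance [NormedSpace ℂ V] : NormedSpace ℂ (E1 V) :=
  inferInstanceAs (NormedSpace ℂ (lp (fun _ : ℝ => V) 1))

instance [CompleteSpace V] : CompleteSpace (E1 V) :=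
  inferInstanceAs (CompleteSpace (lp (fun _ : ℝ => V) 1))

/-- coercion to functions -/
def E1.fn (v : E1 V) : ℝ → V := fun h => (show lp (fun _ : ℝ => V) 1 from v) h

lemma E1.ext {v w : E1 V} (h : ∀ x, v.fn x = w.fn x) : v = w :=
  lp.ext (funext h)

@[simp] lemma E1.fn_add (v w : E1 V) (h : ℝ) : (v + w).fn h = v.fn h + w.fn h := rfl

@[simp] lemma E1.fn_sub (v w : E1 V) (h : ℝ) : (v - w).fn h = v.fn h - w.fn h := rfl

@[simp] lemma E1.fn_zero (h : ℝ) : (0 : E1 V).fn h = 0 := rfl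

@[simp] lemma E1.fn_smul [NormedSpace ℂ V] (c : ℂ) (v : E1 V) (h : ℝ) :
    (c • v).fn h = c • v.fn h := rfl

lemma E1.sum (v : E1 V) : Summable (fun h => ‖v.fn h‖) := by
  have := (lp.memℓp (show lp (fun _ : ℝ => V) 1 from v)).summable (by simp)
  simp only [ENNReal.toReal_one, Real.rpow_one] at this
  exact this

lemma E1.norm_eq (v : E1 V) : ‖v‖ = ∑' h, ‖v.fn h‖ := by
  have := lp.norm_eq_tsum_rpow (by simp) (show lp (fun _ : ℝ => V) 1 from v)
  simp only [ENNReal.toReal_one, Real.rpow_one, div_one] at this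
  exact this

lemma E1.norm_fn_le (v : E1 V) (h : ℝ) : ‖v.fn h‖ ≤ ‖v‖ :=
  lp.norm_apply_le_norm one_ne_zero (show lp (fun _ : ℝ => V) 1 from v) h

/-- build an element -/
noncomputable def mkE (a : ℝ → V) (ha : Summable fun h => ‖a h‖) : E1 V :=
  (⟨a, memℓp_gen (by simpa using ha)⟩ : lp (fun _ : ℝ => V) 1)

@[simp] lemma mkE_fn (a : ℝ → V) (ha : Summable fun h => ‖a h‖) (h : ℝ) :
    (mkE a ha).fn h = a h := rfl

lemma norm_mkE (a : ℝ → V) (ha : Summable fun h => ‖a h‖) : ‖mkE a ha‖ = ∑' h, ‖a h‖ := by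
  rw [E1.norm_eq]; rfl

variable [NormedSpace ℂ V]

/-- evaluation -/
noncomputable def evE (h : ℝ) : E1 V →L[ℂ] V :=
  LinearMap.mkContinuous
    { toFun := fun v => v.fn h
      map_add' := fun v w => rfl
      map_smul' := fun c v => rfl } 1 (by
    intro v
    rw [one_mul]
    exact v.norm_fn_le h)

@[simp] lemma evE_apply (h : ℝ) (v : E1 V) : evE h v = v.fn h := rfl

lemma genOp_summable (e : ℝ → ℝ) (he : Function.Injective e) (m : ℝ → V →L[ℂ] V) (C : ℝ)
    (hm : ∀ h, ‖m h‖ ≤ C) (v : E1 V) : Summable (fun h => ‖m h (v.fn (e h))‖) := by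
  have h1 : Summable (fun h => ‖v.fn (e h)‖) := v.sum.comp_injective he
  refine Summable.of_nonneg_of_le (fun _ => norm_nonneg _) (fun h => ?_) (h1.mul_left C)
  exact (m h).le_of_opNorm_le (hm h) _

/-- weighted composition operator -/
noncomputable def genOp (e : ℝ → ℝ) (he : Function.Injective e) (m : ℝ → V →L[ℂ] V) (C : ℝ)
    (hm : ∀ h, ‖m h‖ ≤ C) : E1 V →L[ℂ] E1 V :=
  LinearMap.mkContinuous
    { toFun := fun v => mkE (fun h => m h (v.fn (e h))) (genOp_summable e he m C hm v)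
      map_add' := by
        intro v w
        apply E1.ext
        intro h
        simp
      map_smul' := by
        intro c v
        apply E1.ext
        intro h
        simp } C (by
    intro v
    simp only [LinearMap.coe_mk, AddHom.coe_mk]
    rw [norm_mkE, E1.norm_eq]
    have hC : 0 ≤ C := (norm_nonneg _).trans (hm 0)
    calc ∑' h, ‖m h (v.fn (e h))‖ ≤ ∑' h, C * ‖v.fn (e h)‖ := by
          apply Summable.tsum_le_tsum _ (genOp_summable e he m C hm v)
            ((v.sum.comp_injective he).mul_left C)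
          intro h
          exact (m h).le_of_opNorm_le (hm h) _
      _ = C * ∑' h, ‖v.fn (e h)‖ := by rw [tsum_mul_left]
      _ ≤ C * ∑' h, ‖v.fn h‖ := by
        apply mul_le_mul_of_nonneg_left _ hC
        exact tsum_comp_le_tsum_of_inj v.sum (fun _ => norm_nonneg _) he)

@[simp] lemma genOp_apply (e : ℝ → ℝ) (he : Function.Injective e) (m : ℝ → V →L[ℂ] V) (C : ℝ)
    (hm : ∀ h, ‖m h‖ ≤ C) (v : E1 V) (h : ℝ) :
    (genOp e he m C hm v).fn h = m h (v.fn (e h)) := by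
  unfold genOp
  rw [LinearMap.mkContinuous_apply]
  rfl

lemma norm_genOp_le (e : ℝ → ℝ) (he : Function.Injective e) (m : ℝ → V →L[ℂ] V) (C : ℝ)
    (hm : ∀ h, ‖m h‖ ≤ C) : ‖genOp e he m C hm‖ ≤ C :=
  LinearMap.mkContinuous_norm_le _ ((norm_nonneg _).trans (hm 0)) _

/-- shift with a matrix coefficient -/
noncomputable def shiftOp (b : ℝ) (m : V →L[ℂ] V) : E1 V →L[ℂ] E1 V :=
  genOp (fun h => h - b) (sub_left_injective) (fun _ => m) ‖m‖ (fun _ => le_rfl)

@[simp] lemma shiftOp_apply (b : ℝ) (m : V →L[ℂ] V) (v : E1 V) (h : ℝ) :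
    (shiftOp b m v).fn h = m (v.fn (h - b)) := genOp_apply _ _ _ _ _ _ _

lemma norm_shiftOp_le (b : ℝ) (m : V →L[ℂ] V) : ‖shiftOp b m‖ ≤ ‖m‖ := norm_genOp_le _ _ _ _ _

open Classical in
/-- projection onto indices `≥ 0` -/
noncomputable def posOp : E1 V →L[ℂ] E1 V :=
  genOp id Function.injective_id (fun h => if 0 ≤ h then ContinuousLinearMap.id ℂ V else 0) 1 (by
    intro h
    split_ifs
    · exact ContinuousLinearMap.norm_id_le
    · simp)

lemma posOp_apply (v : E1 V) (h : ℝ) : (posOp v).fn h = if 0 ≤ h then v.fn h else 0 := by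
  unfold posOp
  rw [genOp_apply]
  split_ifs <;> simp

variable [CompleteSpace V]

/-- discrete convolution operator -/
noncomputable def convOp (K : ℝ → V →L[ℂ] V) : E1 V →L[ℂ] E1 V := ∑' b, shiftOp b (K b)

lemma summable_shiftOp {K : ℝ → V →L[ℂ] V} (hK : Summable fun h => ‖K h‖) :
    Summable (fun b => shiftOp b (K b)) := by
  apply Summable.of_norm
  exact Summable.of_nonneg_of_le (fun _ => norm_nonneg _) (fun b => norm_shiftOp_le _ _) hK

lemma convOp_hasSum {K : ℝ → V →L[ℂ] V} (hK : Summable fun h => ‖K h‖) (v : E1 V) :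
    HasSum (fun b => shiftOp b (K b) v) (convOp K v) := by
  have h1 : HasSum (fun b => shiftOp b (K b)) (convOp K) := (summable_shiftOp hK).hasSum
  have h2 := h1.mapL (ContinuousLinearMap.apply ℂ (E1 V) v : (E1 V →L[ℂ] E1 V) →L[ℂ] E1 V)
  exact h2

lemma convOp_apply {K : ℝ → V →L[ℂ] V} (hK : Summable fun h => ‖K h‖) (v : E1 V) (h : ℝ) :
    (convOp K v).fn h = cv (ContinuousLinearMap.id ℂ (V →L[ℂ] V)) K v.fn h := by
  have h1 := (evE (V := V) h).hasSum (convOp_hasSum hK v)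
  exact h1.tsum_eq.symm

/-- the `ℓ²` norm on `ℓ¹` -/
noncomputable def N2 (v : E1 V) : ℝ := Real.sqrt (∑' h, ‖v.fn h‖ ^ 2)

omit [NormedSpace ℂ V] [CompleteSpace V] in
lemma summable_sq (v : E1 V) : Summable (fun h => ‖v.fn h‖ ^ 2) := by
  refine Summable.of_nonneg_of_le (fun _ => by positivity) (fun h => ?_)
    (v.sum.mul_left ‖v‖)
  rw [sq]
  gcongr
  exact v.norm_fn_le h

end E1

end Pool.Agent.H667R2
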