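import Pool.Agent.H667R2.SF3

/-! The `ℓ²` bound through mean values, and solving the compressed convolution equation in `ℓ¹`. -/

open MeasureTheory Filter Topology

namespace Pool.Agent.H667R2

lemma continuous_tr {W : Type*} [NormedAddCommGroup W] [NormedSpace ℂ W] [CompleteSpace W]
    {a : ℝ → W} (ha : Summable fun h => ‖a h‖) : Continuous (tr a) := by
  unfold tr
  apply continuous_tsum (u := fun h => ‖a h‖)
  · intro h
    exact (continuous_ee h).smul continuous_const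
  · exact ha
  · intro h ω
    rw [norm_ee_smul]

lemma norm_tr_le {W : Type*} [NormedAddCommGroup W] [NormedSpace ℂ W]
    {a : ℝ → W} (ha : Summable fun h => ‖a h‖) (ω : ℝ) : ‖tr a ω‖ ≤ ∑' h, ‖a h‖ := by
  unfold tr
  refine (norm_tsum_le_tsum_norm ?_).trans (le_of_eq ?_)
  · simpa only [norm_ee_smul] using ha
  · simp only [norm_ee_smul]

lemma avg_mono {f g : ℝ → ℝ} (hf : Continuous f) (hg : Continuous g) {T : ℝ} (hT : 0 < T)
    (h : ∀ ω, T ≤ ω → f ω ≤ g ω) : avg f T ≤ avg g T := by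
  unfold avg
  rw [smul_eq_mul, smul_eq_mul]
  apply mul_le_mul_of_nonneg_left _ (by positivity)
  apply intervalIntegral.integral_mono_on (by linarith) (hf.intervalIntegrable _ _)
    (hg.intervalIntegrable _ _)
  intro x hx
  exact h x hx.1

lemma avg_const (c : ℝ) {T : ℝ} (hT : 0 < T) : avg (fun _ => c) T = c := by
  unfold avg
  rw [intervalIntegral.integral_const, show 2 * T - T = T by ring, smul_smul,
    inv_mul_cancel₀ hT.ne', one_smul]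

lemma avg_add {f g : ℝ → ℝ} (hf : Continuous f) (hg : Continuous g) (T : ℝ) :
    avg (fun ω => f ω + g ω) T = avg f T + avg g T := by
  unfold avg
  rw [intervalIntegral.integral_add (hf.intervalIntegrable _ _) (hg.intervalIntegrable _ _),
    smul_add]

lemma avg_const_mul (c : ℝ) (f : ℝ → ℝ) (T : ℝ) :
    avg (fun ω => c * f ω) T = c * avg f T := by
  unfold avg
  rw [intervalIntegral.integral_const_mul, smul_eq_mul, smul_eq_mul]
  ring

section bl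
variable {V : Type*} [NormedAddCommGroup V] [InnerProductSpace ℂ V] [CompleteSpace V]

/-- `M × V → V` pairing -/
noncomputable abbrev idP (V : Type*) [NormedAddCommGroup V] [NormedSpace ℂ V] :
    (V →L[ℂ] V) →L[ℂ] V →L[ℂ] V := ContinuousLinearMap.id ℂ (V →L[ℂ] V)

lemma bl {K : ℝ → V →L[ℂ] V} (hK : Summable fun h => ‖K h‖) (Kac : ℝ → V →L[ℂ] V)
    (hac : Tendsto Kac atTop (𝓝 0)) (ρ : ℝ) (hρ : 0 ≤ ρ) (hb : ∀ ω, ‖tr K ω + Kac ω‖ ≤ ρ)
    (v : ℝ → V) (hv : Summable fun h => ‖v h‖) :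
    ∑' h, ‖cv (idP V) K v h‖ ^ 2 ≤ ρ ^ 2 * ∑' h, ‖v h‖ ^ 2 := by
  have h1 := parseval_avg _ (summable_cv (idP V) hK hv)
  have h2 := (parseval_avg v hv).const_mul (ρ ^ 2)
  apply le_of_forall_pos_le_add
  intro δ hδ
  have h2' := h2.add_const δ
  refine le_of_tendsto_of_tendsto h1 h2' ?_
  set C : ℝ := ∑' h, ‖v h‖ with hC
  have hC0 : 0 ≤ C := tsum_nonneg (fun _ => norm_nonneg _)
  -- choose smallness
  have h3 : Tendsto (fun ω => 2 * ρ * C ^ 2 * ‖Kac ω‖ + C ^ 2 * ‖Kac ω‖ ^ 2) atTop (𝓝 0) := by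
    have h4 : Tendsto (fun ω => ‖Kac ω‖) atTop (𝓝 0) := by simpa using hac.norm
    have h5 := (h4.const_mul (2 * ρ * C ^ 2)).add ((h4.pow 2).const_mul (C ^ 2))
    simpa using h5
  have h4 := (tendsto_order.1 h3).2 δ hδ
  obtain ⟨T0, hT0⟩ := eventually_atTop.1 h4
  filter_upwards [eventually_gt_atTop 0, eventually_ge_atTop T0] with T hT hTT0
  have hcv : Continuous (fun ω => ‖tr (cv (idP V) K v) ω‖ ^ 2) :=
    ((continuous_tr (summable_cv (idP V) hK hv)).norm).pow 2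
  have hcv2 : Continuous (fun ω => ‖tr v ω‖ ^ 2) := ((continuous_tr hv).norm).pow 2
  have h5 : avg (fun ω => ‖tr (cv (idP V) K v) ω‖ ^ 2) T ≤
      avg (fun ω => ρ ^ 2 * ‖tr v ω‖ ^ 2 + δ) T := by
    apply avg_mono hcv ((continuous_const.mul hcv2).add continuous_const) hT
    intro ω hω
    rw [tr_cv (idP V) hK hv]
    have h6 : ‖(idP V) (tr K ω) (tr v ω)‖ ≤ ρ * ‖tr v ω‖ + ‖Kac ω‖ * C := by
      have h7 : (idP V) (tr K ω) (tr v ω) =
          (tr K ω + Kac ω) (tr v ω) - Kac ω (tr v ω) := by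
        simp
      rw [h7]
      refine (norm_sub_le _ _).trans ?_
      gcongr
      · exact (tr K ω + Kac ω).le_of_opNorm_le (hb ω) _
      · refine ((Kac ω).le_opNorm _).trans ?_
        gcongr
        exact norm_tr_le hv ω
    have h8 : ‖tr v ω‖ ≤ C := norm_tr_le hv ω
    have h9 := hT0 ω (hTT0.trans hω)
    have h10 : 0 ≤ ‖tr v ω‖ := norm_nonneg _
    have h11 : 0 ≤ ‖Kac ω‖ := norm_nonneg _
    calc ‖(idP V) (tr K ω) (tr v ω)‖ ^ 2 ≤ (ρ * ‖tr v ω‖ + ‖Kac ω‖ * C) ^ 2 := by gcongr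
      _ = ρ ^ 2 * ‖tr v ω‖ ^ 2 + (2 * ρ * C * ‖Kac ω‖ * ‖tr v ω‖ + C ^ 2 * ‖Kac ω‖ ^ 2) := by
          ring
      _ ≤ ρ ^ 2 * ‖tr v ω‖ ^ 2 + (2 * ρ * C * ‖Kac ω‖ * C + C ^ 2 * ‖Kac ω‖ ^ 2) := by
          gcongr
      _ = ρ ^ 2 * ‖tr v ω‖ ^ 2 + (2 * ρ * C ^ 2 * ‖Kac ω‖ + C ^ 2 * ‖Kac ω‖ ^ 2) := by ring
      _ ≤ ρ ^ 2 * ‖tr v ω‖ ^ 2 + δ := by linarith
  refine h5.trans (le_of_eq ?_)
  have e1 := avg_add (f := fun ω => ρ ^ 2 * ‖tr v ω‖ ^ 2) (g := fun _ => δ)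
    (continuous_const.mul hcv2) continuous_const T
  have e2 := avg_const_mul (ρ ^ 2) (fun ω => ‖tr v ω‖ ^ 2) T
  rw [e1, e2, avg_const _ hT]

lemma N2_conv_le {K : ℝ → V →L[ℂ] V} (hK : Summable fun h => ‖K h‖) (Kac : ℝ → V →L[ℂ] V)
    (hac : Tendsto Kac atTop (𝓝 0)) (ρ : ℝ) (hρ : 0 ≤ ρ) (hb : ∀ ω, ‖tr K ω + Kac ω‖ ≤ ρ)
    (v : E1 V) : N2 (convOp K v) ≤ ρ * N2 v := by
  unfold N2
  rw [← Real.sqrt_sq hρ, ← Real.sqrt_mul (sq_nonneg ρ)]
  apply Real.sqrt_le_sqrt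
  simp_rw [convOp_apply hK]
  exact bl hK Kac hac ρ hρ hb v.fn v.sum

lemma N2_posOp_le (v : E1 V) : N2 (posOp v) ≤ N2 v := by
  unfold N2
  apply Real.sqrt_le_sqrt
  apply Summable.tsum_le_tsum _ (summable_sq _) (summable_sq _)
  intro h
  rw [posOp_apply]
  split_ifs
  · exact le_rfl
  · simp

lemma N2_shiftOp_le (b : ℝ) (m : V →L[ℂ] V) (v : E1 V) : N2 (shiftOp b m v) ≤ ‖m‖ * N2 v := by
  unfold N2
  rw [← Real.sqrt_sq (norm_nonneg m), ← Real.sqrt_mul (sq_nonneg _)]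
  apply Real.sqrt_le_sqrt
  have h1 : ∑' h, ‖v.fn h‖ ^ 2 = ∑' h, ‖v.fn (h - b)‖ ^ 2 :=
    ((Equiv.subRight b).tsum_eq (fun h => ‖v.fn h‖ ^ 2)).symm
  rw [h1, ← tsum_mul_left]
  have h2 : Summable (fun h => ‖v.fn (h - b)‖ ^ 2) :=
    ((Equiv.subRight b).summable_iff (f := fun h => ‖v.fn h‖ ^ 2)).mpr (summable_sq v)
  apply Summable.tsum_le_tsum _ (summable_sq _) (h2.mul_left _)
  intro h
  rw [shiftOp_apply, ← mul_pow]
  gcongr
  exact m.le_opNorm _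

omit [InnerProductSpace ℂ V] [CompleteSpace V] in
lemma N2_nonneg (v : E1 V) : 0 ≤ N2 v := Real.sqrt_nonneg _

omit [InnerProductSpace ℂ V] [CompleteSpace V] in
lemma norm_le_card_N2 (v : E1 V) (S : Finset ℝ) (hS : ∀ h, v.fn h ≠ 0 → h ∈ S) :
    ‖v‖ ≤ Real.sqrt S.card * N2 v := by
  have h1 : ‖v‖ = ∑ h ∈ S, ‖v.fn h‖ := by
    rw [E1.norm_eq]
    apply tsum_eq_sum
    intro h hh
    by_contra hc
    exact hh (hS h (fun h0 => hc (by rw [h0, norm_zero])))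
  have h2 : ∑' h, ‖v.fn h‖ ^ 2 = ∑ h ∈ S, ‖v.fn h‖ ^ 2 := by
    apply tsum_eq_sum
    intro h hh
    by_contra hc
    exact hh (hS h (fun h0 => hc (by rw [h0, norm_zero]; ring)))
  unfold N2
  rw [h1, h2, ← Real.sqrt_mul (Nat.cast_nonneg _)]
  apply Real.le_sqrt_of_sq_le
  exact sq_sum_le_card_mul_sum_sq

/-- box of integer combinations of `S` -/
noncomputable def box (S : Finset ℝ) (m : ℕ) : Finset ℝ := by
  classical
  exact (Fintype.piFinset (fun _ : S => Finset.range (m + 1))).image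
    (fun k => ∑ s : S, (k s : ℝ) * (s : ℝ))

lemma mem_box {S : Finset ℝ} {m : ℕ} {x : ℝ} :
    x ∈ box S m ↔ ∃ k : S → ℕ, (∀ s, k s ≤ m) ∧ ∑ s : S, (k s : ℝ) * (s : ℝ) = x := by
  unfold box
  simp [Fintype.mem_piFinset, Nat.lt_succ_iff]

lemma card_box_le (S : Finset ℝ) (m : ℕ) : (box S m).card ≤ (m + 1) ^ S.card := by
  classical
  unfold box
  refine Finset.card_image_le.trans ?_
  simp

lemma box_mono {S : Finset ℝ} {m : ℕ} {x : ℝ} (hx : x ∈ box S m) : x ∈ box S (m + 1) := by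
  rw [mem_box] at *
  obtain ⟨k, hk, rfl⟩ := hx
  exact ⟨k, fun s => (hk s).trans (Nat.le_succ m), rfl⟩

lemma box_add {S : Finset ℝ} {m : ℕ} {x b : ℝ} (hx : x ∈ box S m) (hb : b ∈ S) :
    x + b ∈ box S (m + 1) := by
  classical
  rw [mem_box] at *
  obtain ⟨k, hk, rfl⟩ := hx
  refine ⟨fun s => k s + if s = ⟨b, hb⟩ then 1 else 0, fun s => ?_, ?_⟩
  · have := hk s
    dsimp only
    split_ifs <;> omega
  · push_cast
    simp only [add_mul, Finset.sum_add_distrib]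
    congr 1
    simp

end bl

end Pool.Agent.H667R2
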