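import Pool.Agent.H667R2.SF4

/-! Solving the compressed convolution equation in `ℓ¹`. -/

open MeasureTheory Filter Topology

namespace Pool.Agent.H667R2

lemma sqrt_natCast_le (c : ℕ) : Real.sqrt (c : ℝ) ≤ (c : ℝ) := by
  rcases Nat.eq_zero_or_pos c with h | h
  · subst h; simp
  · apply Real.sqrt_le_iff.mpr
    have : (1 : ℝ) ≤ c := by exact_mod_cast h
    constructor
    · positivity
    · nlinarith

lemma summable_poly_geom (k : ℕ) {r : ℝ} (hr0 : 0 < r) (hr1 : r < 1) :
    Summable (fun n : ℕ => ((n : ℝ) + 1) ^ k * r ^ n) := by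
  have h1 : Summable (fun n : ℕ => ((n : ℝ)) ^ k * r ^ n) :=
    summable_pow_mul_geometric_of_norm_lt_one k (by
      rw [Real.norm_of_nonneg hr0.le]; exact hr1)
  have h2 := (summable_nat_add_iff 1).mpr h1
  have h3 := h2.mul_right r⁻¹
  refine h3.congr (fun n => ?_)
  push_cast
  rw [pow_succ]
  field_simp

section solve
variable {V : Type*} [NormedAddCommGroup V] [InnerProductSpace ℂ V] [CompleteSpace V]

omit [CompleteSpace V] in
lemma shiftOp_sub (b : ℝ) (m m' : V →L[ℂ] V) (v : E1 V) :
    shiftOp b (m - m') v = shiftOp b m v - shiftOp b m' v := by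
  apply E1.ext
  intro h
  simp

theorem solve_l1 {K K0 : ℝ → V →L[ℂ] V} (hK : Summable fun h => ‖K h‖) (S : Finset ℝ)
    (hK0 : ∀ h, h ∉ S → K0 h = 0) (Kac : ℝ → V →L[ℂ] V) (hac : Tendsto Kac atTop (𝓝 0))
    {ρ : ℝ} (hρ : 0 ≤ ρ) (hb : ∀ ω, ‖tr K0 ω + Kac ω‖ ≤ ρ) {η : ℝ}
    (hdiff : ∑' h, ‖K h - K0 h‖ ≤ η) (hsum : ρ + η < 1) (u : V) :
    ∃ x : E1 V, (∀ h < 0, x.fn h = 0) ∧
      ∀ h, 0 ≤ h → x.fn h = (if h = 0 then u else 0) + cv (idP V) K x.fn h := by
  classical
  have hK0s : Summable (fun h => ‖K0 h‖) := by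
    apply summable_of_ne_finset_zero (s := S)
    intro h hh
    rw [hK0 h hh, norm_zero]
  have hds : Summable (fun h => ‖K h - K0 h‖) :=
    Summable.of_nonneg_of_le (fun _ => norm_nonneg _) (fun h => norm_sub_le _ _) (hK.add hK0s)
  set T : E1 V →L[ℂ] E1 V := posOp ∘L convOp K with hTdef
  set T0 : E1 V →L[ℂ] E1 V := posOp ∘L convOp K0 with hT0def
  set Tb : ℝ → E1 V →L[ℂ] E1 V := fun b => posOp ∘L shiftOp b (K b - K0 b) with hTbdef
  set W : ℕ → Set (E1 V) := fun m => {v | ∃ y, ∀ h, v.fn h ≠ 0 → h - y ∈ box S m} with hW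
  have hη0 : 0 ≤ η := (tsum_nonneg (fun _ => norm_nonneg _)).trans hdiff
  have key := growth T T0 Tb (by
      intro v
      have h1 := (convOp_hasSum hK v).sub (convOp_hasSum hK0s v)
      have h2 := h1.mapL (posOp (V := V))
      have h3 : posOp (convOp K v - convOp K0 v) = T v - T0 v := by
        rw [map_sub]; rfl
      rw [h3] at h2
      convert h2 using 1
      funext b
      simp only [hTbdef]
      rw [ContinuousLinearMap.comp_apply, shiftOp_sub]) ρ (∑' h, ‖K h - K0 h‖) (fun b => ‖K b - K0 b‖) hρ
      (tsum_nonneg (fun _ => norm_nonneg _)) hds.hasSum W N2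
      (fun m => ((m : ℝ) + 1) ^ S.card) (fun m => by positivity)
      (by
        rintro m v ⟨y, hy⟩
        refine ⟨y, fun h hh => ?_⟩
        have h1 : (convOp K0 v).fn h ≠ 0 := by
          intro h0
          apply hh
          rw [hT0def, ContinuousLinearMap.comp_apply, posOp_apply, h0]
          simp
        rw [convOp_apply hK0s] at h1
        unfold cv at h1
        obtain ⟨g, hg⟩ : ∃ g, idP V (K0 g) (v.fn (h - g)) ≠ 0 := by
          by_contra hcon
          push Not at hcon
          exact h1 ((tsum_congr hcon).trans tsum_zero)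
        have hgS : g ∈ S := by
          by_contra hgS
          apply hg
          rw [hK0 g hgS]
          simp
        have hv : v.fn (h - g) ≠ 0 := by
          intro h0
          apply hg
          rw [h0]
          simp
        have := box_add (hy _ hv) hgS
        have e : h - g - y + g = h - y := by ring
        rwa [e] at this)
      (by
        intro m v _
        rw [hT0def, ContinuousLinearMap.comp_apply]
        exact (N2_posOp_le _).trans (N2_conv_le hK0s Kac hac ρ hρ hb v))
      (by
        rintro b m v ⟨y, hy⟩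
        refine ⟨y + b, fun h hh => ?_⟩
        have h1 : v.fn (h - b) ≠ 0 := by
          intro h0
          apply hh
          simp only [hTbdef]
          rw [ContinuousLinearMap.comp_apply, posOp_apply, shiftOp_apply, h0]
          simp
        have := box_mono (hy _ h1)
        have e : h - b - y = h - (y + b) := by ring
        rwa [e] at this)
      (by
        intro b m v _
        simp only [hTbdef]
        rw [ContinuousLinearMap.comp_apply]
        exact (N2_posOp_le _).trans (N2_shiftOp_le b _ v))
      (by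
        rintro m v ⟨y, hy⟩
        have h1 := norm_le_card_N2 v ((box S m).image (fun x => x + y)) (by
          intro h hh
          rw [Finset.mem_image]
          exact ⟨h - y, hy h hh, by ring⟩)
        refine h1.trans ?_
        apply mul_le_mul_of_nonneg_right _ (N2_nonneg v)
        refine (sqrt_natCast_le _).trans ?_
        have h2 := (Finset.card_image_le (s := box S m) (f := fun x => x + y)).trans
          (card_box_le S m)
        exact_mod_cast h2)
  -- the starting vector
  have hv0s : Summable (fun h : ℝ => ‖(if h = 0 then u else 0 : V)‖) := by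
    apply summable_of_ne_finset_zero (s := {0})
    intro h hh
    rw [if_neg (by simpa using hh), norm_zero]
  set v0 : E1 V := mkE (fun h => if h = 0 then u else 0) hv0s with hv0
  have hv0W : v0 ∈ W 0 := by
    refine ⟨0, fun h hh => ?_⟩
    have h1 : h = 0 := by
      by_contra hne
      apply hh
      rw [hv0, mkE_fn, if_neg hne]
    subst h1
    rw [mem_box]
    exact ⟨fun _ => 0, fun _ => le_rfl, by simp⟩
  have hbound : ∀ n : ℕ, ‖(T ^ n) v0‖ ≤
      ((n : ℝ) + 1) ^ S.card * (max (ρ + η) (1/2)) ^ n * N2 v0 := by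
    intro n
    have h1 := key n 0 v0 hv0W
    rw [Nat.zero_add] at h1
    refine h1.trans ?_
    have h2 : ρ + ∑' h, ‖K h - K0 h‖ ≤ max (ρ + η) (1/2) :=
      le_max_of_le_left (by linarith)
    have h3 : 0 ≤ ρ + ∑' h, ‖K h - K0 h‖ :=
      add_nonneg hρ (tsum_nonneg (fun _ => norm_nonneg _))
    have := N2_nonneg v0
    gcongr
  have hr0 : 0 < max (ρ + η) (1/2) := lt_max_of_lt_right (by norm_num)
  have hr1 : max (ρ + η) (1/2) < 1 := max_lt hsum (by norm_num)
  have hsummable : Summable (fun n : ℕ => (T ^ n) v0) := by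
    apply Summable.of_norm_bounded _ hbound
    exact (summable_poly_geom S.card hr0 hr1).mul_right _
  set x : E1 V := ∑' n : ℕ, (T ^ n) v0 with hx
  have hfix : x = v0 + T x := by
    have h1 := hsummable.hasSum.mapL T
    have h2 : HasSum (fun n : ℕ => (T ^ (n + 1)) v0) (T x) := by
      convert h1 using 1
      funext n
      rw [pow_succ', mul_apply_eq_comp]
    have h3 : x = (T ^ 0) v0 + ∑' n : ℕ, (T ^ (n + 1)) v0 := hsummable.tsum_eq_zero_add
    rw [h2.tsum_eq, pow_zero] at h3
    exact h3
  refine ⟨x, fun h hh => ?_, fun h hh => ?_⟩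
  · have h1 : x.fn h = v0.fn h + (T x).fn h := by
      conv_lhs => rw [hfix]
      rfl
    rw [h1, hv0, mkE_fn, if_neg hh.ne, hTdef, ContinuousLinearMap.comp_apply, posOp_apply,
      if_neg (not_le.mpr hh), add_zero]
  · have h1 : x.fn h = v0.fn h + (T x).fn h := by
      conv_lhs => rw [hfix]
      rfl
    conv_lhs => rw [h1]
    rw [hv0, mkE_fn, hTdef, ContinuousLinearMap.comp_apply, posOp_apply, if_pos hh,
      convOp_apply hK]

end solve

end Pool.Agent.H667R2
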