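import Pool.Agent.H667R2.SF5

/-! Operator-valued solution of the discrete Wiener–Hopf equation with exponential weights. -/

open MeasureTheory Filter Topology

namespace Pool.Agent.H667R2

section solve
variable {V : Type*} [NormedAddCommGroup V] [InnerProductSpace ℂ V] [CompleteSpace V]

/-- composition pairing -/
noncomputable abbrev muP (V : Type*) [NormedAddCommGroup V] [NormedSpace ℂ V] :
    (V →L[ℂ] V) →L[ℂ] (V →L[ℂ] V) →L[ℂ] (V →L[ℂ] V) := ContinuousLinearMap.mul ℂ (V →L[ℂ] V)

lemma cv_apply_vec {K X : ℝ → V →L[ℂ] V} (hK : Summable fun h => ‖K h‖)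
    (hX : Summable fun h => ‖X h‖) (h : ℝ) (v : V) :
    cv (muP V) K X h v = cv (idP V) K (fun g => X g v) h := by
  unfold cv
  have h1 := (summable_cv_term' (muP V) hK hX h).of_norm.hasSum
  have h2 := h1.mapL (ContinuousLinearMap.apply ℂ V v)
  exact h2.tsum_eq.symm

lemma exists_trunc {K : ℝ → V →L[ℂ] V} {s0 : ℝ} (hs0 : 0 < s0) (hK : WS s0 K) {δ : ℝ}
    (hδ : 0 < δ) : ∃ S : Finset ℝ, ∃ s : ℝ, 0 < s ∧ s ≤ s0 ∧
      (∑' h, ‖K h - (if h ∈ S then K h else 0)‖ ≤ δ) ∧
      (Summable fun h => ‖((Real.exp (s * h) : ℝ) : ℂ) • K h‖) ∧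
      ∑' h, ‖((Real.exp (s * h) : ℝ) : ℂ) • K h - (if h ∈ S then K h else 0)‖ ≤ 2 * δ := by
  classical
  have h1 := (tendsto_order.1 (tendsto_tsum_compl_atTop_zero
    (fun h => Real.exp (s0 * |h|) * ‖K h‖))).2 δ hδ
  obtain ⟨S, hS⟩ := eventually_atTop.1 h1
  have hS' := hS S le_rfl
  have hcont : Tendsto (fun s : ℝ => ∑ h ∈ S, |Real.exp (s * h) - 1| * ‖K h‖) (𝓝 0) (𝓝 0) := by
    have h2 : Continuous (fun s : ℝ => ∑ h ∈ S, |Real.exp (s * h) - 1| * ‖K h‖) := by
      fun_prop
    have h3 := h2.tendsto 0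
    simpa using h3
  have h2 := (tendsto_order.1 hcont).2 δ hδ
  obtain ⟨r, hr0, hr⟩ := Metric.eventually_nhds_iff.1 h2
  obtain ⟨s, hs_pos, hs_lt⟩ : ∃ s : ℝ, 0 < s ∧ s < min r s0 := exists_between (lt_min hr0 hs0)
  have hs_r : s < r := hs_lt.trans_le (min_le_left _ _)
  have hs_s0 : s ≤ s0 := (hs_lt.trans_le (min_le_right _ _)).le
  have h3 := hr (y := s) (by rw [Real.dist_eq, sub_zero, abs_of_pos hs_pos]; exact hs_r)
  -- the tail function
  have hcompl : Summable (fun h : {h // h ∉ S} => Real.exp (s0 * |(h : ℝ)|) * ‖K h‖) :=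
    hK.subtype _
  set tail : ℝ → ℝ := fun h => if h ∈ S then 0 else Real.exp (s0 * |h|) * ‖K h‖ with htail
  have htail_s : Summable tail := by
    refine Summable.of_nonneg_of_le (fun h => ?_) (fun h => ?_) hK
    · simp only [htail]; split_ifs <;> positivity
    · simp only [htail]; split_ifs
      · positivity
      · exact le_rfl
  have htail_le : ∑' h, tail h ≤ δ := by
    have h4 : ∑' h, tail h = ∑' h : {h // h ∉ S}, Real.exp (s0 * |(h : ℝ)|) * ‖K h‖ := by
      have h5 := tsum_subtype_eq_of_support_subset (f := tail) (s := {h | h ∉ S}) (by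
        intro h hh
        simp only [Function.mem_support, htail] at hh
        by_contra hc
        simp only [Set.mem_ofPred_eq, not_not] at hc
        exact hh (if_pos hc))
      rw [← h5]
      apply tsum_congr
      intro h
      simp only [htail]
      rw [if_neg h.2]
    rw [h4]
    exact hS'.le
  have hws : ∀ h : ℝ, ‖((Real.exp (s * h) : ℝ) : ℂ) • K h‖ ≤ Real.exp (s0 * |h|) * ‖K h‖ := by
    intro h
    rw [norm_smul, Complex.norm_real, Real.norm_of_nonneg (Real.exp_pos _).le]
    apply mul_le_mul_of_nonneg_right (Real.exp_le_exp.mpr _) (norm_nonneg _)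
    calc s * h ≤ s * |h| := by gcongr; exact le_abs_self h
      _ ≤ s0 * |h| := by gcongr
  refine ⟨S, s, hs_pos, hs_s0, ?_, ?_, ?_⟩
  · refine le_trans ?_ htail_le
    have hle : ∀ h, ‖K h - (if h ∈ S then K h else 0)‖ ≤ tail h := by
      intro h
      simp only [htail]
      split_ifs
      · simp
      · rw [sub_zero]
        have : 1 ≤ Real.exp (s0 * |h|) := Real.one_le_exp (by positivity)
        nlinarith [norm_nonneg (K h)]
    exact Summable.tsum_le_tsum hle
      (Summable.of_nonneg_of_le (fun _ => norm_nonneg _) hle htail_s) htail_s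
  · exact Summable.of_nonneg_of_le (fun _ => norm_nonneg _) hws hK
  · set fin : ℝ → ℝ := fun h => if h ∈ S then |Real.exp (s * h) - 1| * ‖K h‖ else 0 with hfin
    have hfin_s : Summable fin := by
      apply summable_of_ne_finset_zero (s := S)
      intro h hh
      simp only [hfin]
      rw [if_neg hh]
    have hfin_le : ∑' h, fin h ≤ δ := by
      rw [tsum_eq_sum (s := S)]
      · refine le_trans (le_of_eq ?_) h3.le
        apply Finset.sum_congr rfl
        intro h hh
        simp only [hfin]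
        rw [if_pos hh]
      · intro h hh
        simp only [hfin]
        rw [if_neg hh]
    have hle : ∀ h, ‖((Real.exp (s * h) : ℝ) : ℂ) • K h - (if h ∈ S then K h else 0)‖ ≤
        fin h + tail h := by
      intro h
      simp only [htail, hfin]
      split_ifs with hh
      · rw [add_zero]
        have e : ((Real.exp (s * h) : ℝ) : ℂ) • K h - K h =
            ((Real.exp (s * h) - 1 : ℝ) : ℂ) • K h := by
          push_cast; rw [sub_smul, one_smul]
        rw [e, norm_smul, Complex.norm_real, Real.norm_eq_abs]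
      · rw [zero_add, sub_zero]
        exact hws h
    calc _ ≤ ∑' h, (fin h + tail h) := by
          exact Summable.tsum_le_tsum hle
            (Summable.of_nonneg_of_le (fun _ => norm_nonneg _) hle (hfin_s.add htail_s))
            (hfin_s.add htail_s)
      _ = ∑' h, fin h + ∑' h, tail h := hfin_s.tsum_add htail_s
      _ ≤ 2 * δ := by linarith

theorem disc_solve {n : ℕ} (b : OrthonormalBasis (Fin n) ℂ V) {K : ℝ → V →L[ℂ] V} {s0 : ℝ}
    (hs0 : 0 < s0) (hK : WS s0 K)
    (Kac : ℝ → V →L[ℂ] V) (hac : Tendsto Kac atTop (𝓝 0))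
    {ρ : ℝ} (hρ : 0 ≤ ρ) (hρ1 : ρ < 1) (hb : ∀ ω, ‖tr K ω + Kac ω‖ ≤ ρ) :
    ∃ s : ℝ, 0 < s ∧ s ≤ s0 ∧ ∃ X : ℝ → V →L[ℂ] V, WS s X ∧ (∀ h < 0, X h = 0) ∧
      ∀ h, 0 ≤ h → X h = (if h = 0 then 1 else 0) + cv (muP V) K X h := by
  classical
  obtain ⟨S, s, hs, hss0, h1, h2, h3⟩ := exists_trunc hs0 hK (δ := (1 - ρ) / 4) (by linarith)
  set K0 : ℝ → V →L[ℂ] V := fun h => if h ∈ S then K h else 0 with hK0
  have hKn : Summable fun h => ‖K h‖ := hK.norm hs0.le
  have hK0s : Summable (fun h => ‖K0 h‖) := by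
    apply summable_of_ne_finset_zero (s := S)
    intro h hh
    simp only [hK0]
    rw [if_neg hh, norm_zero]
  have hds : Summable (fun h => ‖K h - K0 h‖) :=
    Summable.of_nonneg_of_le (fun _ => norm_nonneg _) (fun h => norm_sub_le _ _) (hKn.add hK0s)
  have hb' : ∀ ω, ‖tr K0 ω + Kac ω‖ ≤ ρ + (1 - ρ) / 4 := by
    intro ω
    have e : tr K0 ω + Kac ω = (tr K ω + Kac ω) - tr (fun h => K h - K0 h) ω := by
      have e1 : tr (fun h => K h - K0 h) ω = tr K ω - tr K0 ω := by
        unfold tr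
        rw [← (summable_ee hKn ω (fun h => h)).of_norm.tsum_sub
          (summable_ee hK0s ω (fun h => h)).of_norm]
        congr 1
        ext1 h
        rw [smul_sub]
      rw [e1]; abel
    rw [e]
    exact (norm_sub_le _ _).trans (add_le_add (hb ω) ((norm_tr_le hds ω).trans h1))
  have hsol : ∀ i : Fin n, ∃ x : E1 V, (∀ h < 0, x.fn h = 0) ∧
      ∀ h, 0 ≤ h → x.fn h = (if h = 0 then b i else 0) +
        cv (idP V) (fun h => ((Real.exp (s * h) : ℝ) : ℂ) • K h) x.fn h := by
    intro i
    apply solve_l1 h2 S (K0 := K0) _ Kac hac (ρ := ρ + (1 - ρ) / 4) (by linarith) hb'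
      (η := 2 * ((1 - ρ) / 4)) h3 (by linarith)
    intro h hh
    simp only [hK0]
    rw [if_neg hh]
  choose x hx0 hxe using hsol
  set X : ℝ → V →L[ℂ] V := fun h => ((Real.exp (-(s * h)) : ℝ) : ℂ) •
    ∑ i, (innerSL ℂ (b i)).smulRight ((x i).fn h) with hXdef
  have hXneg : ∀ h < 0, X h = 0 := by
    intro h hh
    simp only [hXdef]
    rw [Finset.sum_eq_zero, smul_zero]
    intro i _
    rw [hx0 i h hh]
    ext v
    simp
  have hXWS : WS s X := by
    have hs1 : Summable (fun h => ∑ i : Fin n, ‖(x i).fn h‖) :=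
      summable_sum (fun i _ => (x i).sum)
    refine Summable.of_nonneg_of_le (fun _ => by positivity) (fun h => ?_) hs1
    rcases lt_or_ge h 0 with hh | hh
    · rw [hXneg h hh, norm_zero, mul_zero]
      positivity
    · simp only [hXdef]
      rw [norm_smul, Complex.norm_real, Real.norm_of_nonneg (Real.exp_pos _).le, ← mul_assoc,
        ← Real.exp_add, abs_of_nonneg hh, add_neg_cancel, Real.exp_zero, one_mul]
      refine (norm_sum_le _ _).trans ?_
      apply Finset.sum_le_sum
      intro i _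
      rw [ContinuousLinearMap.norm_smulRight_apply]
      simp
  refine ⟨s, hs, hss0, X, hXWS, hXneg, ?_⟩
  intro h hh
  ext v
  have hXn := hXWS.norm hs.le
  rw [add_apply, cv_apply_vec hKn hXn]
  -- compute the convolution
  have hterm : ∀ g, idP V (K g) (X (h - g) v) = ((Real.exp (-(s * h)) : ℝ) : ℂ) •
      ∑ i, (inner ℂ (b i) v : ℂ) • idP V (((Real.exp (s * g) : ℝ) : ℂ) • K g)
        ((x i).fn (h - g)) := by
    intro g
    simp only [hXdef]
    simp only [ContinuousLinearMap.coe_id', id_eq, smul_apply, map_smul,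
      ContinuousLinearMap.sum_apply, map_sum, ContinuousLinearMap.smulRight_apply,
      innerSL_apply_apply]
    rw [Finset.smul_sum, Finset.smul_sum]
    apply Finset.sum_congr rfl
    intro i _
    rw [smul_smul, smul_smul, smul_smul]
    congr 1
    have e : Real.exp (-(s * (h - g))) = Real.exp (-(s * h)) * Real.exp (s * g) := by
      rw [← Real.exp_add]; congr 1; ring
    rw [e]
    push_cast
    ring
  have hcv : cv (idP V) K (fun g => X g v) h = ((Real.exp (-(s * h)) : ℝ) : ℂ) •
      ∑ i, (inner ℂ (b i) v : ℂ) •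
        cv (idP V) (fun h => ((Real.exp (s * h) : ℝ) : ℂ) • K h) (x i).fn h := by
    unfold cv
    rw [tsum_congr hterm]
    have hsi : ∀ i, Summable (fun g => idP V (((Real.exp (s * g) : ℝ) : ℂ) • K g)
        ((x i).fn (h - g))) := fun i => (summable_cv_term' (idP V) h2 (x i).sum h).of_norm
    have hs2 : ∀ i, Summable (fun g => (inner ℂ (b i) v : ℂ) •
        idP V (((Real.exp (s * g) : ℝ) : ℂ) • K g) ((x i).fn (h - g))) :=
      fun i => (hsi i).const_smul _
    rw [tsum_const_smul'', Summable.tsum_finsetSum (fun i _ => hs2 i)]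
    congr 1
    apply Finset.sum_congr rfl
    intro i _
    rw [tsum_const_smul'']
  rw [hcv]
  have hX : X h v = ((Real.exp (-(s * h)) : ℝ) : ℂ) •
      ∑ i, (inner ℂ (b i) v : ℂ) • (x i).fn h := by
    simp only [hXdef]
    simp [ContinuousLinearMap.sum_apply]
  rw [hX]
  have hrep : ∑ i, (inner ℂ (b i) v : ℂ) • b i = v := b.sum_repr' v
  have e2 : ∑ i, (inner ℂ (b i) v : ℂ) • (x i).fn h =
      (if h = 0 then v else 0) + ∑ i, (inner ℂ (b i) v : ℂ) •
        cv (idP V) (fun h => ((Real.exp (s * h) : ℝ) : ℂ) • K h) (x i).fn h := by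
    have : ∀ i, (inner ℂ (b i) v : ℂ) • (x i).fn h = (inner ℂ (b i) v : ℂ) •
        (if h = 0 then b i else 0) + (inner ℂ (b i) v : ℂ) •
        cv (idP V) (fun h => ((Real.exp (s * h) : ℝ) : ℂ) • K h) (x i).fn h := by
      intro i
      rw [hxe i h hh, smul_add]
    rw [Finset.sum_congr rfl (fun i _ => this i), Finset.sum_add_distrib]
    congr 1
    split_ifs with h0
    · exact hrep
    · simp
  rw [e2, smul_add]
  congr 1
  split_ifs with h0
  · subst h0; simp
  · simp

end solve

end Pool.Agent.H667R2
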