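import Pool.Agent.H667R2.SF6

/-! Factorisation of the discrete (almost periodic) part. -/

open MeasureTheory Filter Topology

namespace Pool.Agent.H667R2

lemma tr_inj {W : Type*} [NormedAddCommGroup W] [NormedSpace ℂ W] [CompleteSpace W]
    {a b : ℝ → W} (ha : Summable fun h => ‖a h‖) (hb : Summable fun h => ‖b h‖)
    (hab : ∀ ω, tr a ω = tr b ω) (h0 : ℝ) : a h0 = b h0 := by
  have key : ∀ {c : ℝ → W} (_ : Summable fun h => ‖c h‖),
      Tendsto (avg (fun ω => ee ω (-h0) • tr c ω)) atTop (𝓝 (c h0)) := by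
    intro c hc
    have h1 := avg_tsum (fun h : ℝ => h - h0) c hc
    have h2 : (∑' j, if j - h0 = 0 then c j else 0) = c h0 := by
      rw [tsum_eq_single h0]
      · simp
      · intro h hh
        rw [if_neg]
        simpa [sub_eq_zero] using hh
    rw [h2] at h1
    refine h1.congr (fun T => ?_)
    congr 1
    ext ω
    unfold tr
    rw [← tsum_const_smul'']
    apply tsum_congr
    intro h
    rw [smul_smul, ← ee_add]
    congr 2
    ring
  have h1 := key ha
  have h2 := key hb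
  simp_rw [hab] at h1
  exact tendsto_nhds_unique h1 h2

section star
variable {V : Type*} [NormedAddCommGroup V] [InnerProductSpace ℂ V] [CompleteSpace V]

/-- the adjoint family -/
noncomputable def shp (a : ℝ → V →L[ℂ] V) : ℝ → V →L[ℂ] V := fun h => star (a (-h))

lemma shp_WS {s : ℝ} {a : ℝ → V →L[ℂ] V} (ha : WS s a) : WS s (shp a) := by
  have := ((Equiv.neg ℝ).summable_iff (f := fun h => Real.exp (s * |h|) * ‖a h‖)).mpr ha
  refine this.congr (fun h => ?_)
  simp [shp, norm_star]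

lemma shp_summable {a : ℝ → V →L[ℂ] V} (ha : Summable fun h => ‖a h‖) :
    Summable fun h => ‖shp a h‖ := by
  rw [← WS_zero_iff] at *
  exact shp_WS ha

lemma star_tr (a : ℝ → V →L[ℂ] V) (ω : ℝ) : star (tr a ω) = tr (shp a) ω := by
  unfold tr
  rw [tsum_star, ← (Equiv.neg ℝ).tsum_eq]
  apply tsum_congr
  intro h
  rw [star_smul]
  simp only [Equiv.neg_apply, shp]
  congr 1
  change (starRingEnd ℂ) (ee ω (-h)) = _
  rw [star_ee, neg_neg]

lemma mul_one_comm_clm [FiniteDimensional ℂ V] {a b : V →L[ℂ] V} (h : a * b = 1) :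
    b * a = 1 := by
  have h1 : (a : V →ₗ[ℂ] V) * (b : V →ₗ[ℂ] V) = 1 := by
    ext v
    exact congrArg (fun f : V →L[ℂ] V => f v) h
  have h2 := mul_eq_one_comm.mp h1
  ext v
  exact congrArg (fun f : V →ₗ[ℂ] V => f v) h2

/-- weighted families multiplied by constants -/
lemma WS_mul_right {s : ℝ} {a : ℝ → V →L[ℂ] V} (ha : WS s a) (m : V →L[ℂ] V) :
    WS s (fun h => a h * m) := by
  refine Summable.of_nonneg_of_le (fun _ => by positivity) (fun h => ?_) (ha.mul_right ‖m‖)
  calc _ ≤ Real.exp (s * |h|) * (‖a h‖ * ‖m‖) := by gcongr; exact norm_mul_le _ _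
    _ = _ := by ring

lemma WS_mul_left {s : ℝ} {a : ℝ → V →L[ℂ] V} (ha : WS s a) (m : V →L[ℂ] V) :
    WS s (fun h => m * a h) := by
  refine Summable.of_nonneg_of_le (fun _ => by positivity) (fun h => ?_) (ha.mul_left ‖m‖)
  calc _ ≤ Real.exp (s * |h|) * (‖m‖ * ‖a h‖) := by gcongr; exact norm_mul_le _ _
    _ = _ := by ring

lemma tr_mul_right {a : ℝ → V →L[ℂ] V} (m : V →L[ℂ] V) (ω : ℝ)
    (ha : Summable fun h => ‖a h‖) :
    tr (fun h => a h * m) ω = tr a ω * m := by
  unfold tr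
  rw [← (summable_ee ha ω (fun h => h)).of_norm.tsum_mul_right]
  apply tsum_congr
  intro h
  rw [smul_mul_assoc]

lemma tr_mul_left {a : ℝ → V →L[ℂ] V} (m : V →L[ℂ] V) (ω : ℝ)
    (ha : Summable fun h => ‖a h‖) :
    tr (fun h => m * a h) ω = m * tr a ω := by
  unfold tr
  rw [← (summable_ee ha ω (fun h => h)).of_norm.tsum_mul_left]
  apply tsum_congr
  intro h
  rw [mul_smul_comm]

/-- lower bound for the constant term -/
lemma const_lower {K : ℝ → V →L[ℂ] V} (hK : Summable fun h => ‖K h‖)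
    (Kac : ℝ → V →L[ℂ] V) (hac : Tendsto Kac atTop (𝓝 0)) {ρ : ℝ} (hρ : 0 < ρ)
    (hb : ∀ ω, ‖tr K ω + Kac ω‖ ≤ ρ) (x : ℝ → V) (hx : Summable fun h => ‖x h‖)
    (hneg : ∀ h < 0, x h = 0) (u : V)
    (heq : ∀ h, 0 ≤ h → x h = (if h = 0 then u else 0) + cv (idP V) K x h) :
    (1 - ρ) * ∑' h, ‖x h‖ ^ 2 ≤ (inner ℂ u (x 0) : ℂ).re := by
  have hcvs : Summable fun h => ‖cv (idP V) K x h‖ := summable_cv (idP V) hK hx
  have hsq : ∀ {a : ℝ → V}, (Summable fun h => ‖a h‖) → Summable fun h => ‖a h‖ ^ 2 := by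
    intro a ha
    exact summable_sq (mkE a ha)
  -- pointwise identity
  have h1 : ∀ h, ‖x h‖ ^ 2 = (if h = 0 then (inner ℂ u (x 0) : ℂ).re else 0) +
      (inner ℂ (cv (idP V) K x h) (x h) : ℂ).re := by
    intro h
    rcases lt_or_ge h 0 with hh | hh
    · rw [hneg h hh, if_neg hh.ne]
      simp
    · have e1 : ‖x h‖ ^ 2 = (inner ℂ (x h) (x h) : ℂ).re := by
        rw [inner_self_eq_norm_sq_to_K]
        norm_cast
      rw [e1]
      conv_lhs => enter [1, 2]; rw [heq h hh]
      rw [inner_add_left, Complex.add_re]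
      congr 1
      split_ifs with h0
      · rw [h0]
      · simp
  have h2 : ∀ h, (inner ℂ (cv (idP V) K x h) (x h) : ℂ).re ≤
      (ρ⁻¹ * ‖cv (idP V) K x h‖ ^ 2 + ρ * ‖x h‖ ^ 2) / 2 := by
    intro h
    have e1 : (inner ℂ (cv (idP V) K x h) (x h) : ℂ).re ≤ ‖cv (idP V) K x h‖ * ‖x h‖ :=
      (Complex.re_le_norm _).trans (norm_inner_le_norm _ _)
    have e2 : ‖cv (idP V) K x h‖ * ‖x h‖ ≤
        (ρ⁻¹ * ‖cv (idP V) K x h‖ ^ 2 + ρ * ‖x h‖ ^ 2) / 2 := by
      have h3 : 0 ≤ ρ⁻¹ * (‖cv (idP V) K x h‖ - ρ * ‖x h‖) ^ 2 := by positivity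
      have h4 : ρ⁻¹ * (‖cv (idP V) K x h‖ - ρ * ‖x h‖) ^ 2 =
          ρ⁻¹ * ‖cv (idP V) K x h‖ ^ 2 + ρ * ‖x h‖ ^ 2 -
          2 * (‖cv (idP V) K x h‖ * ‖x h‖) := by
        field_simp
        ring
      linarith
    exact e1.trans e2
  have h3 : Summable (fun h : ℝ => if h = 0 then (inner ℂ u (x 0) : ℂ).re else 0) := by
    apply summable_of_ne_finset_zero (s := {0})
    intro h hh
    rw [if_neg (by simpa using hh)]
  have h4 : ∑' h, ‖x h‖ ^ 2 ≤ (inner ℂ u (x 0) : ℂ).re +
      (ρ⁻¹ * ∑' h, ‖cv (idP V) K x h‖ ^ 2 + ρ * ∑' h, ‖x h‖ ^ 2) / 2 := by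
    have h5 : Summable (fun h => (ρ⁻¹ * ‖cv (idP V) K x h‖ ^ 2 + ρ * ‖x h‖ ^ 2) / 2) :=
      (((hsq hcvs).mul_left _).add ((hsq hx).mul_left _)).div_const 2
    have h6 : ∑' h, ‖x h‖ ^ 2 ≤ ∑' h, ((if h = 0 then (inner ℂ u (x 0) : ℂ).re else 0) +
        (ρ⁻¹ * ‖cv (idP V) K x h‖ ^ 2 + ρ * ‖x h‖ ^ 2) / 2) := by
      apply Summable.tsum_le_tsum _ (hsq hx) (h3.add h5)
      intro h
      rw [h1 h]
      have := h2 h
      have e0 := h1 h
      rw [e0] at this
      linarith
    refine h6.trans (le_of_eq ?_)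
    rw [h3.tsum_add h5, tsum_div_const, ((hsq hcvs).mul_left _).tsum_add ((hsq hx).mul_left _),
      tsum_mul_left, tsum_mul_left]
    congr 1
    rw [tsum_eq_single 0]
    · simp
    · intro h hh
      rw [if_neg hh]
  have h7 := bl hK Kac hac ρ hρ.le hb x hx
  have h8 : ρ⁻¹ * ∑' h, ‖cv (idP V) K x h‖ ^ 2 ≤ ρ * ∑' h, ‖x h‖ ^ 2 := by
    calc _ ≤ ρ⁻¹ * (ρ ^ 2 * ∑' h, ‖x h‖ ^ 2) := by gcongr
      _ = _ := by field_simp
  linarith

/-- **Factorisation of the discrete part.** -/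
theorem disc_factor [FiniteDimensional ℂ V] {n : ℕ} (b : OrthonormalBasis (Fin n) ℂ V)
    {K : ℝ → V →L[ℂ] V} {s0 : ℝ} (hs0 : 0 < s0) (hK : WS s0 K)
    (Kac : ℝ → V →L[ℂ] V) (hac : Tendsto Kac atTop (𝓝 0))
    {ρ : ℝ} (hρ : 0 < ρ) (hρ1 : ρ < 1) (hb : ∀ ω, ‖tr K ω + Kac ω‖ ≤ ρ)
    (hsa : ∀ ω, star (tr K ω) = tr K ω) :
    ∃ s : ℝ, 0 < s ∧ s ≤ s0 ∧ ∃ X Z : ℝ → V →L[ℂ] V, WS s X ∧ WS s Z ∧
      (∀ h < 0, X h = 0) ∧ (∀ h < 0, Z h = 0) ∧ (∀ ω, tr X ω * tr Z ω = 1) ∧
      (∀ ω, tr Z ω * tr X ω = 1) ∧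
      ∀ ω, star (tr X ω) * (1 - tr K ω) * tr X ω = 1 := by
  classical
  obtain ⟨s, hs, hss0, X, hX, hXneg, hXeq⟩ := disc_solve b hs0 hK Kac hac hρ.le hρ1 hb
  have hXn : Summable fun h => ‖X h‖ := hX.norm hs.le
  have hKs : WS s K := hK.mono hss0
  have hKn : Summable fun h => ‖K h‖ := hKs.norm hs.le
  -- Y = (1 - K) * X
  set Y : ℝ → V →L[ℂ] V := fun h => X h - cv (muP V) K X h with hYdef
  have hcvWS : WS s (cv (muP V) K X) := WS_cv (muP V) hs.le hKs hX
  have hYWS : WS s Y := by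
    refine Summable.of_nonneg_of_le (fun _ => by positivity) (fun h => ?_) (hX.add hcvWS)
    rw [← mul_add]
    gcongr
    exact norm_sub_le _ _
  have hYn := hYWS.norm hs.le
  have hYpos : ∀ h, 0 ≤ h → Y h = if h = 0 then 1 else 0 := by
    intro h hh
    simp only [hYdef]
    rw [hXeq h hh]
    conv_lhs => rw [add_sub_assoc]
    rw [show cv (muP V) K X h - cv (muP V) K X h = 0 from sub_self _, add_zero]
  have htrY : ∀ ω, tr Y ω = (1 - tr K ω) * tr X ω := by
    intro ω
    have e1 : tr Y ω = tr X ω - tr (cv (muP V) K X) ω := by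
      unfold tr
      rw [← (summable_ee hXn ω (fun h => h)).of_norm.tsum_sub
        (summable_ee (hcvWS.norm hs.le) ω (fun h => h)).of_norm]
      congr 1
      ext1 h
      rw [← smul_sub]
    rw [e1, tr_cv (muP V) hKn hXn, ContinuousLinearMap.mul_apply', sub_mul, one_mul]
  -- Phi
  set A : ℝ → V →L[ℂ] V := cv (muP V) (shp X) Y with hAdef
  have hXs : Summable fun h => ‖shp X h‖ := shp_summable hXn
  have hAn : Summable fun h => ‖A h‖ := summable_cv (muP V) hXs hYn
  have htrA : ∀ ω, tr A ω = star (tr X ω) * ((1 - tr K ω) * tr X ω) := by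
    intro ω
    rw [hAdef, tr_cv (muP V) hXs hYn, ContinuousLinearMap.mul_apply', ← star_tr, htrY]
  have hAsa : ∀ ω, tr (shp A) ω = tr A ω := by
    intro ω
    rw [← star_tr, htrA, star_mul, star_mul, star_sub, star_one, hsa, star_star, mul_assoc]
  have hAshp : ∀ h, shp A h = A h := fun h => tr_inj (shp_summable hAn) hAn hAsa h
  have hApos : ∀ h, 0 < h → A h = 0 := by
    intro h hh
    simp only [hAdef, cv]
    convert tsum_zero with g
    rw [ContinuousLinearMap.mul_apply']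
    rcases lt_or_ge 0 g with hg | hg
    · have : shp X g = 0 := by
        simp only [shp]
        rw [hXneg (-g) (by linarith), star_zero]
      rw [this, zero_mul]
    · rw [hYpos (h - g) (by linarith), if_neg (by linarith), mul_zero]
  have hA0 : A 0 = star (X 0) := by
    simp only [hAdef, cv]
    rw [tsum_eq_single 0]
    · rw [ContinuousLinearMap.mul_apply', sub_zero, hYpos 0 le_rfl, if_pos rfl, mul_one]
      simp [shp]
    · intro g hg
      rw [ContinuousLinearMap.mul_apply']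
      rcases lt_or_gt_of_ne hg with hg' | hg'
      · rw [hYpos (0 - g) (by linarith), if_neg (by linarith), mul_zero]
      · have : shp X g = 0 := by
          simp only [shp]
          rw [hXneg (-g) (by linarith), star_zero]
        rw [this, zero_mul]
  have hAneg : ∀ h, h < 0 → A h = 0 := by
    intro h hh
    rw [← hAshp h]
    simp only [shp]
    rw [hApos (-h) (by linarith), star_zero]
  have hX0sa : star (X 0) = X 0 := by
    have := hAshp 0
    simp only [shp, neg_zero] at this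
    rw [hA0, star_star] at this
    exact this.symm
  have htrA0 : ∀ ω, tr A ω = X 0 := by
    intro ω
    unfold tr
    rw [tsum_eq_single 0]
    · rw [ee_zero, one_smul, hA0, hX0sa]
    · intro h hh
      rcases lt_or_gt_of_ne hh with hh' | hh'
      · rw [hAneg h hh', smul_zero]
      · rw [hApos h hh', smul_zero]
  -- positivity of X 0
  have hlow : ∀ u : V, (1 - ρ) * ∑' h, ‖X h u‖ ^ 2 ≤ (inner ℂ u (X 0 u) : ℂ).re := by
    intro u
    have hxs : Summable fun h => ‖X h u‖ := by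
      refine Summable.of_nonneg_of_le (fun _ => norm_nonneg _)
        (fun h => (X h).le_opNorm u) (hXn.mul_right ‖u‖)
    apply const_lower hKn Kac hac hρ hb (fun h => X h u) hxs
    · intro h hh
      rw [hXneg h hh]; simp
    · intro h hh
      rw [← cv_apply_vec hKn hXn]
      conv_lhs => rw [hXeq h hh]
      rw [add_apply]
      congr 1
      split_ifs <;> simp
  have hX0pos : 0 ≤ X 0 := by
    rw [ContinuousLinearMap.nonneg_iff_isPositive, ContinuousLinearMap.isPositive_iff_complex]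
    intro u
    have hsym : (inner ℂ (X 0 u) u : ℂ) = inner ℂ u (X 0 u) := by
      have h1 : (inner ℂ (star (X 0) u) u : ℂ) = inner ℂ u (X 0 u) := by
        rw [ContinuousLinearMap.star_eq_adjoint, ContinuousLinearMap.adjoint_inner_left]
      rwa [hX0sa] at h1
    constructor
    · have h2 : (starRingEnd ℂ) (inner ℂ (X 0 u) u : ℂ) = inner ℂ (X 0 u) u := by
        rw [inner_conj_symm, hsym]
      exact (Complex.conj_eq_iff_real.mp h2).elim (fun r hr => by rw [hr]; simp)
    · rw [hsym]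
      refine le_trans ?_ (hlow u)
      have : 0 ≤ ∑' h, ‖X h u‖ ^ 2 := tsum_nonneg (fun _ => by positivity)
      have : 0 ≤ 1 - ρ := by linarith
      positivity
  have hX0inj : Function.Injective (X 0) := by
    rw [injective_iff_map_eq_zero]
    intro u hu
    have h1 := hlow u
    rw [hu, inner_zero_right, Complex.zero_re] at h1
    have hxs : Summable fun h => ‖X h u‖ := by
      refine Summable.of_nonneg_of_le (fun _ => norm_nonneg _)
        (fun h => (X h).le_opNorm u) (hXn.mul_right ‖u‖)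
    have hsqs : Summable fun h => ‖X h u‖ ^ 2 := summable_sq (mkE _ hxs)
    have h2 : ∑' h, ‖X h u‖ ^ 2 = 0 := by
      have h3 : 0 ≤ ∑' h, ‖X h u‖ ^ 2 := tsum_nonneg (fun _ => by positivity)
      have h4 : 0 < 1 - ρ := by linarith
      nlinarith
    have h3 : ∀ h, X h u = 0 := by
      intro h
      have h4 := (hasSum_zero_iff_of_nonneg (fun h => by positivity)).mp (h2 ▸ hsqs.hasSum)
      have h5 := congrFun h4 h
      simpa using h5
    have h4 := hXeq 0 le_rfl
    rw [if_pos rfl] at h4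
    have h5 := congrArg (fun f : V →L[ℂ] V => f u) h4
    simp only [add_apply, one_apply_eq_self] at h5
    rw [cv_apply_vec hKn hXn, h3 0] at h5
    have h6 : cv (idP V) K (fun g => X g u) 0 = 0 := by
      unfold cv
      simp [h3]
    rw [h6, add_zero] at h5
    exact h5.symm
  have hX0unit : IsUnit (X 0) := by
    rw [ContinuousLinearMap.isUnit_iff_bijective]
    exact ⟨hX0inj, (LinearMap.injective_iff_surjective (f := (X 0 : V →ₗ[ℂ] V))).mp hX0inj⟩
  set Q := CFC.sqrt (X 0) with hQdef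
  have hQQ : Q * Q = X 0 := CFC.sqrt_mul_sqrt_self (X 0) hX0pos
  have hQsa : star Q = Q := (CFC.sqrt_nonneg (X 0)).isSelfAdjoint.star_eq
  have hQunit : IsUnit Q := by
    have := (Commute.refl Q).isUnit_mul_iff.mp (hQQ ▸ hX0unit)
    exact this.1
  obtain ⟨q, hq⟩ := hQunit
  set Qi : V →L[ℂ] V := ↑(q⁻¹) with hQi
  have hQQi : Q * Qi = 1 := by rw [← hq]; simp [hQi]
  have hQiQ : Qi * Q = 1 := by rw [← hq]; simp [hQi]
  have hQisa : star Qi = Qi := by
    have h1 : star Qi * Q = 1 := by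
      have := congrArg star hQQi
      rw [star_mul, star_one, hQsa] at this
      exact this
    calc star Qi = star Qi * (Q * Qi) := by rw [hQQi, mul_one]
      _ = (star Qi * Q) * Qi := by rw [mul_assoc]
      _ = Qi := by rw [h1, one_mul]
  -- inverse of X
  have hleft : ∀ ω, (Qi * Qi * star (tr Y ω)) * tr X ω = 1 := by
    intro ω
    have h1 : star (tr X ω) * tr Y ω = X 0 := by
      rw [htrY, ← htrA, htrA0]
    have h2 : star (tr Y ω) * tr X ω = X 0 := by
      have := congrArg star h1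
      rw [star_mul, star_star, hX0sa] at this
      exact this
    rw [mul_assoc, h2, ← hQQ]
    calc Qi * Qi * (Q * Q) = Qi * (Qi * Q) * Q := by simp only [mul_assoc]
      _ = 1 := by rw [hQiQ, mul_one, hQiQ]
  have hYs : WS s (shp Y) := shp_WS hYWS
  refine ⟨s, hs, hss0, fun h => X h * Qi, fun h => Qi * shp Y h, WS_mul_right hX _,
    WS_mul_left hYs _, ?_, ?_, ?_, ?_, ?_⟩
  · intro h hh; simp only [hXneg h hh, zero_mul]
  · intro h hh
    simp only [shp]
    rw [hYpos (-h) (by linarith), if_neg (by linarith), star_zero, mul_zero]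
  · intro ω
    apply mul_one_comm_clm
    rw [tr_mul_right _ _ hXn, tr_mul_left _ _ (shp_summable hYn), ← star_tr]
    calc Qi * star (tr Y ω) * (tr X ω * Qi)
        = Q * (Qi * Qi * star (tr Y ω) * tr X ω) * Qi := by
          rw [show Q * (Qi * Qi * star (tr Y ω) * tr X ω) * Qi =
            (Q * Qi) * (Qi * star (tr Y ω) * (tr X ω * Qi)) by simp only [mul_assoc],
            hQQi, one_mul]
      _ = 1 := by rw [hleft, mul_one, hQQi]
  · intro ω
    rw [tr_mul_right _ _ hXn, tr_mul_left _ _ (shp_summable hYn), ← star_tr]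
    calc Qi * star (tr Y ω) * (tr X ω * Qi)
        = Q * (Qi * Qi * star (tr Y ω) * tr X ω) * Qi := by
          rw [show Q * (Qi * Qi * star (tr Y ω) * tr X ω) * Qi =
            (Q * Qi) * (Qi * star (tr Y ω) * (tr X ω * Qi)) by simp only [mul_assoc],
            hQQi, one_mul]
      _ = 1 := by rw [hleft, mul_one, hQQi]
  · intro ω
    rw [tr_mul_right _ _ hXn, star_mul, hQisa]
    calc Qi * star (tr X ω) * (1 - tr K ω) * (tr X ω * Qi)
        = Qi * (star (tr X ω) * ((1 - tr K ω) * tr X ω)) * Qi := by simp only [mul_assoc]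
      _ = Qi * X 0 * Qi := by rw [← htrA, htrA0]
      _ = (Qi * Q) * (Q * Qi) := by rw [← hQQ]; simp only [mul_assoc]
      _ = 1 := by rw [hQiQ, hQQi, one_mul]

end star

end Pool.Agent.H667R2
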