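import Pool.Agent.H667R2.SF7

/-! Products of an absolutely continuous part with a discrete part. -/

open MeasureTheory Filter Topology

namespace Pool.Agent.H667R2

lemma integrable_tsum_aux {J : Type*} [Countable J] {α : Type*} [MeasurableSpace α] {μ : Measure α}
    {E : Type*} [NormedAddCommGroup E] [NormedSpace ℝ E] [CompleteSpace E] {F : J → α → E}
    (hF : ∀ j, Integrable (F j) μ) (hs : Summable fun j => ∫ a, ‖F j a‖ ∂μ) :
    (∀ᵐ a ∂μ, Summable fun j => ‖F j a‖) ∧ Integrable (fun a => ∑' j, F j a) μ := by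
  have h1 : ∀ j, ∫⁻ a, ‖F j a‖ₑ ∂μ = ENNReal.ofReal (∫ a, ‖F j a‖ ∂μ) := by
    intro j
    rw [ofReal_integral_norm_eq_lintegral_enorm (hF j)]
  have h2 : ∫⁻ a, ∑' j, ‖F j a‖ₑ ∂μ ≠ ⊤ := by
    rw [lintegral_tsum (fun j => (hF j).1.enorm)]
    simp_rw [h1]
    rw [← ENNReal.ofReal_tsum_of_nonneg (fun j => integral_nonneg (fun _ => norm_nonneg _)) hs]
    exact ENNReal.ofReal_ne_top
  have h3 : ∀ᵐ a ∂μ, ∑' j, ‖F j a‖ₑ < ⊤ := by
    apply ae_lt_top' _ h2
    exact AEMeasurable.tsum (fun j => (hF j).1.enorm)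
  have h4 : ∀ᵐ a ∂μ, Summable fun j => ‖F j a‖ := by
    filter_upwards [h3] with a ha
    have h5 : ∑' j, ((‖F j a‖₊ : NNReal) : ENNReal) ≠ ⊤ := ha.ne
    have h6 := ENNReal.tsum_coe_ne_top_iff_summable.mp h5
    exact NNReal.summable_coe.mpr h6
  have hmeas : AEStronglyMeasurable (fun a => ∑' j, F j a) μ := by
    apply aestronglyMeasurable_of_tendsto_ae (u := (atTop : Filter (Finset J)))
      (f := fun s a => ∑ j ∈ s, F j a)
    · intro s
      exact Finset.aestronglyMeasurable_fun_sum _ (fun j _ => (hF j).1)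
    · filter_upwards [h4] with a ha
      exact ha.of_norm.hasSum
  refine ⟨h4, hmeas, ?_⟩
  refine lt_of_le_of_lt ?_ (lt_top_iff_ne_top.mpr h2)
  apply lintegral_mono_ae
  filter_upwards [h4] with a ha
  have h7 := norm_tsum_le_tsum_norm ha
  rw [← ofReal_norm]
  refine (ENNReal.ofReal_le_ofReal h7).trans (le_of_eq ?_)
  rw [ENNReal.ofReal_tsum_of_nonneg (fun _ => norm_nonneg _) ha]
  congr 1
  ext j
  rw [ofReal_norm]

/-- exponentially weighted integrability -/
def WI {W : Type*} [NormedAddCommGroup W] [NormedSpace ℝ W] (s : ℝ) (f : ℝ → W) : Prop :=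
  Integrable (fun t => Real.exp (s * |t|) • f t)

section WI
variable {W : Type*} [NormedAddCommGroup W] [NormedSpace ℝ W]

lemma WI.aesm {s : ℝ} {f : ℝ → W} (hf : WI s f) : AEStronglyMeasurable f := by
  have h1 : AEStronglyMeasurable (fun t : ℝ => Real.exp (-(s * |t|)) •
      (Real.exp (s * |t|) • f t)) := by
    refine AEStronglyMeasurable.smul ?_ hf.1
    exact (by fun_prop : Continuous fun t : ℝ => Real.exp (-(s * |t|))).aestronglyMeasurable
  refine h1.congr (ae_of_all _ (fun t => ?_))
  simp only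
  rw [smul_smul, ← Real.exp_add, neg_add_cancel, Real.exp_zero, one_smul]

lemma WI.mono {s s' : ℝ} (h : s' ≤ s) {f : ℝ → W} (hf : WI s f) : WI s' f := by
  refine Integrable.mono hf ?_ (ae_of_all _ (fun t => ?_))
  · refine AEStronglyMeasurable.smul ?_ hf.aesm
    exact (by fun_prop : Continuous fun t : ℝ => Real.exp (s' * |t|)).aestronglyMeasurable
  · rw [norm_smul, norm_smul, Real.norm_of_nonneg (Real.exp_pos _).le,
      Real.norm_of_nonneg (Real.exp_pos _).le]
    gcongr

lemma WI.integrable {s : ℝ} (hs : 0 ≤ s) {f : ℝ → W} (hf : WI s f) : Integrable f := by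
  have := hf.mono hs
  unfold WI at this
  simpa using this

end WI

section prod
variable {V : Type*} [NormedAddCommGroup V] [InnerProductSpace ℂ V] [CompleteSpace V]

/-- discrete translate-sum of a function -/
noncomputable def mixR (f : ℝ → V →L[ℂ] V) (a : ℝ → V →L[ℂ] V) (t : ℝ) : V →L[ℂ] V :=
  ∑' h, f (t - h) * a h

lemma mixR_props {s : ℝ} (hs : 0 ≤ s) {f a : ℝ → V →L[ℂ] V} (hf : WI s f) (ha : WS s a) :
    WI s (mixR f a) ∧ ∀ ω, ft (mixR f a) ω = ft f ω * tr a ω := by
  classical
  have han := ha.norm hs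
  have hcount : (Function.support a).Countable := by
    have := han.countable_support
    apply this.mono
    intro j hj
    simpa using hj
  have : Countable (Function.support a) := hcount
  have hmix : ∀ t, mixR f a t = ∑' h : Function.support a, f (t - h) * a h := by
    intro t
    symm
    apply tsum_subtype_eq_of_support_subset (f := fun h => f (t - h) * a h)
    intro j hj
    simp only [Function.mem_support] at hj ⊢
    intro h0; apply hj; rw [h0, mul_zero]
  have hfi : Integrable f := hf.integrable hs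
  set C : ℝ := ∫ t, ‖Real.exp (s * |t|) • f t‖ with hC
  have hC0 : 0 ≤ C := integral_nonneg (fun _ => norm_nonneg _)
  -- weighted terms
  have hterm : ∀ h : ℝ, Integrable (fun t => Real.exp (s * |t|) • (f (t - h) * a h)) ∧
      ∫ t, ‖Real.exp (s * |t|) • (f (t - h) * a h)‖ ≤ Real.exp (s * |h|) * ‖a h‖ * C := by
    intro h
    have h1 : Integrable (fun t => Real.exp (s * |t - h|) • f (t - h)) :=
      hf.comp_sub_right h
    have h2 : Integrable (fun t => (Real.exp (s * |h|) * ‖a h‖) *
        ‖Real.exp (s * |t - h|) • f (t - h)‖) := h1.norm.const_mul _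
    have h3 : ∀ t, ‖Real.exp (s * |t|) • (f (t - h) * a h)‖ ≤
        (Real.exp (s * |h|) * ‖a h‖) * ‖Real.exp (s * |t - h|) • f (t - h)‖ := by
      intro t
      rw [norm_smul, norm_smul, Real.norm_of_nonneg (Real.exp_pos _).le,
        Real.norm_of_nonneg (Real.exp_pos _).le]
      have h4 : Real.exp (s * |t|) ≤ Real.exp (s * |h|) * Real.exp (s * |t - h|) := by
        have := exp_weight_le hs h (t - h)
        simpa using this
      calc Real.exp (s * |t|) * ‖f (t - h) * a h‖ ≤
          (Real.exp (s * |h|) * Real.exp (s * |t - h|)) * (‖f (t - h)‖ * ‖a h‖) := by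
            gcongr; exact norm_mul_le _ _
        _ = _ := by ring
    have hmeas : AEStronglyMeasurable (fun t => Real.exp (s * |t|) • (f (t - h) * a h)) := by
      refine AEStronglyMeasurable.smul
        (by fun_prop : Continuous fun t : ℝ => Real.exp (s * |t|)).aestronglyMeasurable ?_
      exact ((hfi.comp_sub_right h).1).mul_const _
    have h5 : Integrable (fun t => Real.exp (s * |t|) • (f (t - h) * a h)) :=
      Integrable.mono' h2 hmeas (ae_of_all _ h3)
    refine ⟨h5, ?_⟩
    calc _ ≤ ∫ t, (Real.exp (s * |h|) * ‖a h‖) * ‖Real.exp (s * |t - h|) • f (t - h)‖ :=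
          integral_mono h5.norm h2 h3
      _ = (Real.exp (s * |h|) * ‖a h‖) * ∫ t, ‖Real.exp (s * |t - h|) • f (t - h)‖ := by
          rw [integral_const_mul]
      _ = _ := by
          rw [integral_sub_right_eq_self (fun t => ‖Real.exp (s * |t|) • f t‖) h]
  have hsumm : Summable (fun h : Function.support a =>
      ∫ t, ‖Real.exp (s * |t|) • (f (t - h) * a h)‖) := by
    refine Summable.of_nonneg_of_le (fun _ => integral_nonneg (fun _ => norm_nonneg _))
      (fun h => (hterm h).2) ?_
    exact (ha.mul_right C).subtype _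
  have hI := integrable_tsum_aux (fun h : Function.support a => (hterm h).1) hsumm
  have hWI : WI s (mixR f a) := by
    unfold WI
    refine hI.2.congr (ae_of_all _ (fun t => ?_))
    simp only
    rw [tsum_const_smul'', hmix]
  refine ⟨hWI, ?_⟩
  intro ω
  -- unweighted terms
  have hterm0 : ∀ h : ℝ, Integrable (fun t => ee ω t • (f (t - h) * a h)) ∧
      ∫ t, ‖ee ω t • (f (t - h) * a h)‖ ≤ ‖a h‖ * ∫ t, ‖f t‖ := by
    intro h
    have h1 : Integrable (fun t => f (t - h) * a h) := (hfi.comp_sub_right h).mul_const _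
    have h2 : Integrable (fun t => ee ω t • (f (t - h) * a h)) := by
      refine Integrable.mono h1 ?_ (ae_of_all _ (fun t => by rw [norm_ee_smul]))
      exact (continuous_ee' ω).aestronglyMeasurable.smul h1.1
    refine ⟨h2, ?_⟩
    calc _ ≤ ∫ t, ‖a h‖ * ‖f (t - h)‖ := by
          apply integral_mono h2.norm ((hfi.comp_sub_right h).norm.const_mul _)
          intro t
          simp only
          rw [norm_ee_smul, mul_comm]
          exact norm_mul_le _ _
      _ = _ := by
          rw [integral_const_mul, integral_sub_right_eq_self (fun t => ‖f t‖) h]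
  have hsumm0 : Summable (fun h : Function.support a =>
      ∫ t, ‖ee ω t • (f (t - h) * a h)‖) := by
    refine Summable.of_nonneg_of_le (fun _ => integral_nonneg (fun _ => norm_nonneg _))
      (fun h => (hterm0 h).2) ?_
    exact (han.mul_right _).subtype _
  have h6 := integral_tsum_of_summable_integral_norm
    (fun h : Function.support a => (hterm0 h).1) hsumm0
  have h7 : ft (mixR f a) ω = ∫ t, ∑' h : Function.support a, ee ω t • (f (t - h) * a h) := by
    unfold ft
    congr 1
    ext1 t
    rw [tsum_const_smul'', hmix]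
  rw [h7, ← h6]
  have h8 : ∀ h : ℝ, ∫ t, ee ω t • (f (t - h) * a h) = ft f ω * (ee ω h • a h) := by
    intro h
    have h9 : ∀ t, ee ω t • (f (t - h) * a h) =
        (ee ω (t - h) • f (t - h)) * (ee ω h • a h) := by
      intro t
      rw [smul_mul_smul_comm, ← ee_add]
      congr 2
      ring
    simp_rw [h9]
    rw [integral_sub_right_eq_self (fun t => (ee ω t • f t) * (ee ω h • a h)) h]
    unfold ft
    rw [integral_mul_const_of_integrable]
    refine Integrable.mono hfi ?_ (ae_of_all _ (fun t => by rw [norm_ee_smul]))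
    exact (continuous_ee' ω).aestronglyMeasurable.smul hfi.1
  simp_rw [h8]
  have h10 : ∑' h : Function.support a, ft f ω * (ee ω h • a h) =
      ∑' h, ft f ω * (ee ω h • a h) := by
    apply tsum_subtype_eq_of_support_subset (f := fun h => ft f ω * (ee ω h • a h))
    intro j hj
    simp only [Function.mem_support] at hj ⊢
    intro h0; apply hj; rw [h0, smul_zero, mul_zero]
  rw [h10, (summable_ee han ω (fun h => h)).of_norm.tsum_mul_left]
  rfl

omit [CompleteSpace V] in
lemma mixR_neg {f a : ℝ → V →L[ℂ] V} (hf : ∀ t < 0, f t = 0) (ha : ∀ h < 0, a h = 0) :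
    ∀ t < 0, mixR f a t = 0 := by
  intro t ht
  unfold mixR
  convert tsum_zero with h
  rcases lt_or_ge h 0 with hh | hh
  · rw [ha h hh, mul_zero]
  · rw [hf (t - h) (by linarith), zero_mul]

/-- adjoint function -/
noncomputable def shf (f : ℝ → V →L[ℂ] V) : ℝ → V →L[ℂ] V := fun t => star (f (-t))

lemma shf_WI {s : ℝ} {f : ℝ → V →L[ℂ] V} (hf : WI s f) : WI s (shf f) := by
  have h1 := hf.comp_neg
  have h2 : Integrable (fun t => star (Real.exp (s * |-t|) • f (-t))) := by
    refine Integrable.mono h1 ?_ (ae_of_all _ (fun t => by rw [norm_star]))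
    exact continuous_star.comp_aestronglyMeasurable h1.1
  refine h2.congr (ae_of_all _ (fun t => ?_))
  simp only
  rw [star_smul, abs_neg]
  simp [shf]

lemma star_ft (f : ℝ → V →L[ℂ] V) (ω : ℝ) : star (ft f ω) = ft (shf f) ω := by
  unfold ft
  have h1 : star (∫ t, ee ω t • f t) = ∫ t, star (ee ω t • f t) := by
    have := (starL' ℝ (A := V →L[ℂ] V)).integral_comp_comm (fun t => ee ω t • f t) (μ := volume)
    exact this.symm
  rw [h1, ← integral_neg_eq_self]
  congr 1
  ext1 t
  rw [star_smul]
  simp only [shf]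
  congr 1
  change (starRingEnd ℂ) (ee ω (-t)) = _
  rw [star_ee, neg_neg]

/-- left mixing -/
noncomputable def mixL (a : ℝ → V →L[ℂ] V) (f : ℝ → V →L[ℂ] V) : ℝ → V →L[ℂ] V :=
  shf (mixR (shf f) (shp a))

lemma shf_shf (f : ℝ → V →L[ℂ] V) : shf (shf f) = f := by
  ext1 t; simp [shf]

lemma mixL_props {s : ℝ} (hs : 0 ≤ s) {f a : ℝ → V →L[ℂ] V} (hf : WI s f) (ha : WS s a) :
    WI s (mixL a f) ∧ ∀ ω, ft (mixL a f) ω = tr a ω * ft f ω := by
  have h1 := mixR_props hs (shf_WI hf) (shp_WS ha)
  refine ⟨shf_WI h1.1, fun ω => ?_⟩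
  unfold mixL
  rw [← star_ft, h1.2, star_mul, ← star_tr, star_star, star_ft, shf_shf]

lemma mixL_neg {f a : ℝ → V →L[ℂ] V} (hf : ∀ t < 0, f t = 0) (ha : ∀ h < 0, a h = 0) :
    ∀ t < 0, mixL a f t = 0 := by
  intro t ht
  unfold mixL
  simp only [shf]
  rw [star_eq_zero]
  unfold mixR
  convert tsum_zero with h
  simp only [shf, shp]
  rcases lt_or_ge 0 h with hh | hh
  · rw [ha (-h) (by linarith), star_zero, mul_zero]
  · rw [hf (-(-t - h)) (by linarith), star_zero, zero_mul]

end prod

end Pool.Agent.H667R2
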