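import Pool.Agent.H667R2.SF8
import Pool.Agent.H667R2.PartC

/-! Assembly at the operator level. -/

open MeasureTheory Filter Topology

namespace Pool.Agent.H667R2

section asm
variable {V : Type*} [NormedAddCommGroup V] [InnerProductSpace ℂ V] [CompleteSpace V]

lemma WI_smul {W : Type*} [NormedAddCommGroup W] [NormedSpace ℂ W] {s : ℝ} {f : ℝ → W}
    (hf : WI s f) (c : ℂ) : WI s (fun t => c • f t) := by
  have := Integrable.smul c hf
  refine this.congr (ae_of_all _ (fun t => ?_))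
  simp only [Pi.smul_apply]
  rw [smul_comm]

lemma WI_add {W : Type*} [NormedAddCommGroup W] [NormedSpace ℝ W] {s : ℝ} {f g : ℝ → W}
    (hf : WI s f) (hg : WI s g) : WI s (fun t => f t + g t) := by
  have := Integrable.add hf hg
  refine this.congr (ae_of_all _ (fun t => ?_))
  simp only [Pi.add_apply]
  rw [smul_add]

lemma WS_smul {W : Type*} [NormedAddCommGroup W] [NormedSpace ℂ W] {s : ℝ} {f : ℝ → W}
    (hf : WS s f) (c : ℂ) : WS s (fun t => c • f t) := by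
  refine (hf.mul_left ‖c‖).congr (fun t => ?_)
  rw [norm_smul]; ring

lemma WS_add {W : Type*} [NormedAddCommGroup W] {s : ℝ} {f g : ℝ → W}
    (hf : WS s f) (hg : WS s g) : WS s (fun t => f t + g t) := by
  refine Summable.of_nonneg_of_le (fun _ => by positivity) (fun h => ?_) (hf.add hg)
  rw [← mul_add]
  gcongr
  exact norm_add_le _ _

lemma ft_smul {W : Type*} [NormedAddCommGroup W] [NormedSpace ℂ W] [CompleteSpace W]
    (f : ℝ → W) (c : ℂ) (ω : ℝ) : ft (fun t => c • f t) ω = c • ft f ω := by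
  unfold ft
  rw [← integral_smul]
  congr 1
  ext1 t
  rw [smul_comm]

lemma integrable_ee {W : Type*} [NormedAddCommGroup W] [NormedSpace ℂ W] {f : ℝ → W}
    (hf : Integrable f) (ω : ℝ) : Integrable (fun t => ee ω t • f t) := by
  refine Integrable.mono hf ?_ (ae_of_all _ (fun t => by rw [norm_ee_smul]))
  exact (continuous_ee' ω).aestronglyMeasurable.smul hf.1

lemma ft_add {W : Type*} [NormedAddCommGroup W] [NormedSpace ℂ W] [CompleteSpace W]
    {f g : ℝ → W} (hf : Integrable f) (hg : Integrable g) (ω : ℝ) :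
    ft (fun t => f t + g t) ω = ft f ω + ft g ω := by
  unfold ft
  rw [← integral_add (integrable_ee hf ω) (integrable_ee hg ω)]
  congr 1
  ext1 t
  rw [smul_add]

lemma norm_ft_le {W : Type*} [NormedAddCommGroup W] [NormedSpace ℂ W]
    (f : ℝ → W) (ω : ℝ) : ‖ft f ω‖ ≤ ∫ t, ‖f t‖ := by
  unfold ft
  refine (norm_integral_le_integral_norm _).trans (le_of_eq ?_)
  simp only [norm_ee_smul]

lemma tr_smul {W : Type*} [NormedAddCommGroup W] [NormedSpace ℂ W] [CompleteSpace W]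
    (f : ℝ → W) (c : ℂ) (ω : ℝ) : tr (fun t => c • f t) ω = c • tr f ω := by
  unfold tr
  rw [← tsum_const_smul'']
  congr 1
  ext1 t
  rw [smul_comm]

lemma tr_add {W : Type*} [NormedAddCommGroup W] [NormedSpace ℂ W] [CompleteSpace W]
    {f g : ℝ → W} (hf : Summable fun h => ‖f h‖) (hg : Summable fun h => ‖g h‖) (ω : ℝ) :
    tr (fun t => f t + g t) ω = tr f ω + tr g ω := by
  unfold tr
  rw [← (summable_ee hf ω (fun h => h)).of_norm.tsum_add
    (summable_ee hg ω (fun h => h)).of_norm]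
  congr 1
  ext1 t
  rw [smul_add]

/-- Riemann–Lebesgue -/
lemma ft_tendsto {W : Type*} [NormedAddCommGroup W] [NormedSpace ℂ W] (f : ℝ → W) :
    Tendsto (ft f) atTop (𝓝 0) := by
  have h1 := Real.tendsto_integral_exp_smul_cocompact f
  have h2 : Tendsto (fun ω : ℝ => ω / (2 * Real.pi)) atTop (cocompact ℝ) := by
    refine (tendsto_id.atTop_div_const (by positivity)).mono_right ?_
    exact atTop_le_cocompact
  have h3 := h1.comp h2
  refine h3.congr (fun ω => ?_)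
  simp only [Function.comp, ft]
  congr 1
  ext1 t
  rw [Circle.smul_def, Real.fourierChar_apply]
  congr 1
  unfold ee
  congr 1
  push_cast
  field_simp

/-- norm bound from order bounds -/
lemma norm_le_of_form {K : V →L[ℂ] V} (hsa : star K = K) {ρ : ℝ} (hρ : 0 ≤ ρ)
    (h0 : ∀ v, 0 ≤ (inner ℂ (K v) v : ℂ).re) (h1 : ∀ v, (inner ℂ (K v) v : ℂ).re ≤ ρ * ‖v‖ ^ 2) :
    ‖K‖ ≤ ρ := by
  have hreal : ∀ (T : V →L[ℂ] V) (_ : star T = T) (v : V),
      (((inner ℂ (T v) v : ℂ).re : ℝ) : ℂ) = inner ℂ (T v) v := by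
    intro T hT v
    have hsym : (starRingEnd ℂ) (inner ℂ (T v) v : ℂ) = inner ℂ (T v) v := by
      rw [inner_conj_symm]
      have h1 : (inner ℂ (star T v) v : ℂ) = inner ℂ v (T v) := by
        rw [ContinuousLinearMap.star_eq_adjoint, ContinuousLinearMap.adjoint_inner_left]
      rw [hT] at h1
      exact h1.symm
    exact (Complex.conj_eq_iff_re.mp hsym)
  have hKpos : 0 ≤ K := by
    rw [ContinuousLinearMap.nonneg_iff_isPositive, ContinuousLinearMap.isPositive_iff_complex]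
    exact fun v => ⟨hreal K hsa v, h0 v⟩
  rw [CStarAlgebra.norm_le_iff_le_algebraMap K hρ hKpos, ← sub_nonneg,
    ContinuousLinearMap.nonneg_iff_isPositive, ContinuousLinearMap.isPositive_iff_complex]
  intro v
  have hsa' : star (algebraMap ℝ (V →L[ℂ] V) ρ - K) = algebraMap ℝ (V →L[ℂ] V) ρ - K := by
    rw [star_sub, hsa]
    congr 1
    rw [Algebra.algebraMap_eq_smul_one, star_smul, star_one]
    simp
  refine ⟨hreal _ hsa' v, ?_⟩
  have h2 := h1 v
  have h3 : (inner ℂ ((algebraMap ℝ (V →L[ℂ] V) ρ - K) v) v : ℂ) =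
      ((ρ * ‖v‖ ^ 2 : ℝ) : ℂ) - inner ℂ (K v) v := by
    rw [sub_apply, inner_sub_left]
    congr 1
    have h4 : (algebraMap ℝ (V →L[ℂ] V) ρ) v = (ρ : ℂ) • v := by
      rw [Algebra.algebraMap_eq_smul_one]
      simp
    rw [h4, inner_smul_left, inner_self_eq_norm_sq_to_K]
    simp
  rw [h3]
  change 0 ≤ (((ρ * ‖v‖ ^ 2 : ℝ) : ℂ) - inner ℂ (K v) v).re
  rw [Complex.sub_re, Complex.ofReal_re]
  linarith

/-- **Operator-level factorisation.** -/
theorem op_factor [FiniteDimensional ℂ V] {n : ℕ} (b : OrthonormalBasis (Fin n) ℂ V)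
    (F : ℝ → V →L[ℂ] V) {s0 : ℝ} (hs0 : 0 < s0) (f a : ℝ → V →L[ℂ] V) (hf : WI s0 f)
    (ha : WS s0 a) (hF : ∀ ω, F ω = ft f ω + tr a ω) (hsa : ∀ ω, star (F ω) = F ω)
    {ε : ℝ} (hε : 0 < ε) (hpos : ∀ ω v, ε * ‖v‖ ^ 2 ≤ (inner ℂ (F ω v) v : ℂ).re) :
    ∃ s : ℝ, 0 < s ∧ ∃ g gi c ci : ℝ → V →L[ℂ] V, WI s g ∧ WI s gi ∧ WS s c ∧ WS s ci ∧
      (∀ t < 0, g t = 0) ∧ (∀ t < 0, gi t = 0) ∧ (∀ t < 0, c t = 0) ∧ (∀ t < 0, ci t = 0) ∧
      (∀ ω, (ft g ω + tr c ω) * (ft gi ω + tr ci ω) = 1) ∧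
      (∀ ω, (ft gi ω + tr ci ω) * (ft g ω + tr c ω) = 1) ∧
      ∀ ω, F ω = star (ft g ω + tr c ω) * (ft g ω + tr c ω) := by
  classical
  have hfi : Integrable f := hf.integrable hs0.le
  have han : Summable fun h => ‖a h‖ := ha.norm hs0.le
  -- symmetrisation
  set fs : ℝ → V →L[ℂ] V := fun t => (1/2 : ℂ) • (f t + shf f t) with hfs
  set as : ℝ → V →L[ℂ] V := fun t => (1/2 : ℂ) • (a t + shp a t) with has
  have hfsWI : WI s0 fs := WI_smul (WI_add hf (shf_WI hf)) _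
  have hasWS : WS s0 as := WS_smul (WS_add ha (shp_WS ha)) _
  have hft : ∀ ω, ft fs ω = (1/2 : ℂ) • (ft f ω + star (ft f ω)) := by
    intro ω
    rw [hfs, ft_smul, ft_add hfi ((shf_WI hf).integrable hs0.le), ← star_ft]
  have htr : ∀ ω, tr as ω = (1/2 : ℂ) • (tr a ω + star (tr a ω)) := by
    intro ω
    rw [has, tr_smul, tr_add han (shp_summable han), ← star_tr]
  have hhalf : star (1/2 : ℂ) = 1/2 := by simp
  have htrsa : ∀ ω, star (tr as ω) = tr as ω := by
    intro ω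
    rw [htr, star_smul, star_add, star_star, hhalf, add_comm]
  have hFs : ∀ ω, F ω = ft fs ω + tr as ω := by
    intro ω
    rw [hft, htr, ← smul_add]
    have h1 := hsa ω
    have h2 : ft f ω + star (ft f ω) + (tr a ω + star (tr a ω)) = F ω + star (F ω) := by
      rw [hF ω, star_add]; abel
    rw [h2, h1, ← two_smul ℂ (F ω), smul_smul]
    norm_num
  -- constants
  set C0 : ℝ := ∫ t, ‖f t‖ with hC0
  set C1 : ℝ := ∑' h, ‖a h‖ with hC1
  have hC0n : 0 ≤ C0 := integral_nonneg (fun _ => norm_nonneg _)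
  have hC1n : 0 ≤ C1 := tsum_nonneg (fun _ => norm_nonneg _)
  have hFb : ∀ ω, ‖F ω‖ ≤ C0 + C1 := by
    intro ω
    rw [hF]
    exact (norm_add_le _ _).trans (add_le_add (norm_ft_le _ _) (norm_tr_le han _))
  set c : ℝ := C0 + C1 + ε + 1 with hc
  have hcpos : 0 < c := by positivity
  set ρ : ℝ := 1 - ε / c with hρdef
  have hεc : ε / c < 1 := by rw [div_lt_one hcpos]; linarith
  have hρ0 : 0 < ρ := by rw [hρdef]; linarith
  have hρ1 : ρ < 1 := by
    have : 0 < ε / c := by positivity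
    rw [hρdef]; linarith
  set K : ℝ → V →L[ℂ] V := fun ω => 1 - ((c⁻¹ : ℝ) : ℂ) • F ω with hK
  have hform : ∀ ω v, (inner ℂ (K ω v) v : ℂ).re = ‖v‖ ^ 2 - c⁻¹ * (inner ℂ (F ω v) v : ℂ).re := by
    intro ω v
    simp only [hK]
    rw [sub_apply, inner_sub_left, smul_apply, inner_smul_left, Complex.conj_ofReal,
      one_apply_eq_self, Complex.sub_re, Complex.re_ofReal_mul, inner_self_eq_norm_sq_to_K]
    norm_cast
  have hKsa : ∀ ω, star (K ω) = K ω := by
    intro ω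
    simp only [hK]
    rw [star_sub, star_one, star_smul, hsa]
    congr 2
    exact Complex.conj_ofReal _
  have hKn : ∀ ω, ‖K ω‖ ≤ ρ := by
    intro ω
    apply norm_le_of_form (hKsa ω) hρ0.le
    · intro v
      rw [hform]
      have h1 : (inner ℂ (F ω v) v : ℂ).re ≤ (C0 + C1) * ‖v‖ ^ 2 := by
        calc _ ≤ ‖F ω v‖ * ‖v‖ := (Complex.re_le_norm _).trans (norm_inner_le_norm _ _)
          _ ≤ ((C0 + C1) * ‖v‖) * ‖v‖ := by
            gcongr
            exact (F ω).le_of_opNorm_le (hFb ω) v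
          _ = _ := by ring
      have h2 : c⁻¹ * (inner ℂ (F ω v) v : ℂ).re ≤ c⁻¹ * (c * ‖v‖ ^ 2) := by
        gcongr
        refine h1.trans ?_
        gcongr
        linarith
      have h3 : c⁻¹ * (c * ‖v‖ ^ 2) = ‖v‖ ^ 2 := by field_simp
      linarith
    · intro v
      rw [hform, hρdef]
      have h1 : c⁻¹ * (ε * ‖v‖ ^ 2) ≤ c⁻¹ * (inner ℂ (F ω v) v : ℂ).re := by
        gcongr
        exact hpos ω v
      have h2 : (1 - ε / c) * ‖v‖ ^ 2 = ‖v‖ ^ 2 - c⁻¹ * (ε * ‖v‖ ^ 2) := by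
        field_simp
      rw [h2]
      linarith
  -- discrete and a.c. parts of K
  set Kd : ℝ → V →L[ℂ] V := fun h => (if h = 0 then 1 else 0) + (-((c⁻¹ : ℝ) : ℂ)) • as h with hKd
  have hone : WS s0 (fun h : ℝ => (if h = 0 then 1 else 0 : V →L[ℂ] V)) := by
    apply summable_of_ne_finset_zero (s := {0})
    intro h hh
    beta_reduce
    rw [if_neg (by simpa using hh), norm_zero, mul_zero]
  have hKdWS : WS s0 Kd := WS_add hone (WS_smul hasWS _)
  have htrKd : ∀ ω, tr Kd ω = 1 - ((c⁻¹ : ℝ) : ℂ) • tr as ω := by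
    intro ω
    rw [hKd, tr_add (hone.norm hs0.le) ((WS_smul hasWS _).norm hs0.le), tr_smul]
    have : tr (fun h : ℝ => (if h = 0 then 1 else 0 : V →L[ℂ] V)) ω = 1 := by
      unfold tr
      rw [tsum_eq_single 0]
      · beta_reduce
        rw [if_pos rfl, ee_zero, one_smul]
      · intro h hh
        beta_reduce
        rw [if_neg hh, smul_zero]
    rw [this, neg_smul, ← sub_eq_add_neg]
  set ka : ℝ → V →L[ℂ] V := fun t => (-((c⁻¹ : ℝ) : ℂ)) • fs t with hka
  have hkaWI : WI s0 ka := WI_smul hfsWI _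
  have hKdec : ∀ ω, K ω = tr Kd ω + ft ka ω := by
    intro ω
    rw [htrKd, hka, ft_smul]
    simp only [hK]
    rw [hFs ω, smul_add, neg_smul]
    abel
  have hKdsa : ∀ ω, star (tr Kd ω) = tr Kd ω := by
    intro ω
    rw [htrKd, star_sub, star_one, star_smul, htrsa]
    congr 2
    exact Complex.conj_ofReal _
  obtain ⟨s1, hs1, hs1s0, X, Z, hXWS, hZWS, hXneg, hZneg, hXZ, hZX, hXKX⟩ :=
    disc_factor b hs0 hKdWS (ft ka) (ft_tendsto ka) hρ0 hρ1
      (fun ω => by rw [← hKdec]; exact hKn ω) hKdsa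
  -- the a.c. perturbation
  have hka1 : WI s1 ka := hkaWI.mono hs1s0
  have hm1 := mixR_props hs1.le hka1 hXWS
  have hm2 := mixL_props hs1.le hm1.1 (shp_WS hXWS)
  set L : ℝ → V →L[ℂ] V := fun t => (-1 : ℂ) • mixL (shp X) (mixR ka X) t with hL
  have hLWI : WI s1 L := WI_smul hm2.1 _
  have hftL : ∀ ω, ft L ω = -(star (tr X ω) * (ft ka ω * tr X ω)) := by
    intro ω
    rw [hL, ft_smul, hm2.2, hm1.2, ← star_tr, neg_smul, one_smul]
  set G : ℝ → V →L[ℂ] V := fun ω => 1 + ft L ω with hG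
  have hGeq : ∀ ω, G ω = star (tr X ω) * ((1 - K ω) * tr X ω) := by
    intro ω
    simp only [hG]
    rw [hftL, hKdec]
    have e1 : star (tr X ω) * ((1 - (tr Kd ω + ft ka ω)) * tr X ω) =
        star (tr X ω) * (1 - tr Kd ω) * tr X ω - star (tr X ω) * (ft ka ω * tr X ω) := by
      rw [← sub_sub, sub_mul _ (ft ka ω), mul_sub, mul_assoc]
    rw [e1, hXKX, sub_eq_add_neg]
  have hGsa : ∀ ω, star (G ω) = G ω := by
    intro ω
    rw [hGeq, star_mul, star_mul, star_star, star_sub, star_one, hKsa, mul_assoc]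
  have hXn : Summable fun h => ‖X h‖ := hXWS.norm hs1.le
  have hZn : Summable fun h => ‖Z h‖ := hZWS.norm hs1.le
  set CZ : ℝ := ∑' h, ‖Z h‖ + 1 with hCZ
  have hCZpos : 0 < CZ := by
    have : 0 ≤ ∑' h, ‖Z h‖ := tsum_nonneg (fun _ => norm_nonneg _)
    rw [hCZ]; linarith
  have hGpos : ∀ ω v, ((1 - ρ) / CZ ^ 2) * ‖v‖ ^ 2 ≤ (inner ℂ (G ω v) v : ℂ).re := by
    intro ω v
    rw [hGeq]
    have h1 : (inner ℂ ((star (tr X ω) * ((1 - K ω) * tr X ω)) v) v : ℂ) =
        inner ℂ ((1 - K ω) (tr X ω v)) (tr X ω v) := by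
      rw [mul_apply_eq_comp, ContinuousLinearMap.star_eq_adjoint,
        ContinuousLinearMap.adjoint_inner_left, mul_apply_eq_comp]
    rw [h1]
    set w := tr X ω v with hw
    have h2 : (inner ℂ ((1 - K ω) w) w : ℂ).re = ‖w‖ ^ 2 - (inner ℂ (K ω w) w : ℂ).re := by
      rw [sub_apply, inner_sub_left, one_apply_eq_self, Complex.sub_re,
        inner_self_eq_norm_sq_to_K]
      norm_cast
    have h3 : (inner ℂ (K ω w) w : ℂ).re ≤ ρ * ‖w‖ ^ 2 := by
      calc _ ≤ ‖K ω w‖ * ‖w‖ := (Complex.re_le_norm _).trans (norm_inner_le_norm _ _)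
        _ ≤ (ρ * ‖w‖) * ‖w‖ := by
          gcongr
          exact (K ω).le_of_opNorm_le (hKn ω) w
        _ = _ := by ring
    have h4 : ‖v‖ ≤ CZ * ‖w‖ := by
      have h5 : v = tr Z ω w := by
        have := congrArg (fun T : V →L[ℂ] V => T v) (hZX ω)
        simp only [mul_apply_eq_comp, one_apply_eq_self] at this
        exact this.symm
      have h6 : ‖tr Z ω‖ ≤ CZ := (norm_tr_le hZn ω).trans (by rw [hCZ]; linarith)
      calc ‖v‖ = ‖tr Z ω w‖ := by rw [← h5]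
        _ ≤ CZ * ‖w‖ := (tr Z ω).le_of_opNorm_le h6 w
    have h5 : ‖v‖ ^ 2 ≤ CZ ^ 2 * ‖w‖ ^ 2 := by
      rw [← mul_pow]; gcongr
    have h6 : ((1 - ρ) / CZ ^ 2) * ‖v‖ ^ 2 ≤ (1 - ρ) * ‖w‖ ^ 2 := by
      calc _ ≤ ((1 - ρ) / CZ ^ 2) * (CZ ^ 2 * ‖w‖ ^ 2) := by
            have : 0 ≤ (1 - ρ) / CZ ^ 2 := div_nonneg (by linarith) (by positivity)
            gcongr
        _ = _ := by field_simp
    rw [h2]
    linarith
  have hcoef : 0 < (1 - ρ) / CZ ^ 2 := div_pos (by linarith) (by positivity)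
  obtain ⟨s2, hs2, x, y, hxWI, hyWI, hxneg, hyneg, hxy⟩ :=
    PartC.ac_factor L s1 hs1 hLWI G (fun ω => rfl) hGsa _ hcoef hGpos
  have hxy1 : ∀ ω, (1 + ft x ω) * (1 + ft y ω) = 1 := fun ω => (hxy ω).1
  have hyx1 : ∀ ω, (1 + ft y ω) * (1 + ft x ω) = 1 := fun ω => (hxy ω).2.1
  have hGf : ∀ ω, G ω = star (1 + ft y ω) * (1 + ft y ω) := fun ω => (hxy ω).2.2
  set s : ℝ := min s1 s2 with hs
  have hspos : 0 < s := lt_min hs1 hs2
  have hx' : WI s x := WI.mono (min_le_right _ _) hxWI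
  have hy' : WI s y := WI.mono (min_le_right _ _) hyWI
  have hX' : WS s X := hXWS.mono (min_le_left _ _)
  have hZ' : WS s Z := hZWS.mono (min_le_left _ _)
  have hR := mixR_props hspos.le hy' hZ'
  have hRi := mixL_props hspos.le hx' hX'
  set r : ℝ := Real.sqrt c with hr
  have hrpos : 0 < r := Real.sqrt_pos.mpr hcpos
  have hrr : r * r = c := Real.mul_self_sqrt hcpos.le
  have hRω : ∀ ω, ft (fun t => (r : ℂ) • mixR y Z t) ω + tr (fun h => (r : ℂ) • Z h) ω =
      (r : ℂ) • ((1 + ft y ω) * tr Z ω) := by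
    intro ω
    rw [ft_smul, tr_smul, hR.2, ← smul_add]
    congr 1
    rw [add_mul, one_mul]; abel
  have hRiω : ∀ ω, ft (fun t => ((r⁻¹ : ℝ) : ℂ) • mixL X x t) ω +
      tr (fun h => ((r⁻¹ : ℝ) : ℂ) • X h) ω =
      ((r⁻¹ : ℝ) : ℂ) • (tr X ω * (1 + ft x ω)) := by
    intro ω
    rw [ft_smul, tr_smul, hRi.2, ← smul_add]
    congr 1
    rw [mul_add, mul_one]; abel
  have hrc : (r : ℂ) * ((r⁻¹ : ℝ) : ℂ) = 1 := by
    push_cast
    rw [mul_inv_cancel₀]
    exact_mod_cast hrpos.ne'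
  refine ⟨s, hspos, fun t => (r : ℂ) • mixR y Z t, fun t => ((r⁻¹ : ℝ) : ℂ) • mixL X x t,
    fun h => (r : ℂ) • Z h, fun h => ((r⁻¹ : ℝ) : ℂ) • X h, WI_smul hR.1 _, WI_smul hRi.1 _,
    WS_smul hZ' _, WS_smul hX' _, ?_, ?_, ?_, ?_, ?_, ?_, ?_⟩
  · intro t ht
    simp only [mixR_neg hyneg hZneg t ht, smul_zero]
  · intro t ht
    simp only [mixL_neg hxneg hXneg t ht, smul_zero]
  · intro t ht
    simp only [hZneg t ht, smul_zero]
  · intro t ht
    simp only [hXneg t ht, smul_zero]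
  · intro ω
    rw [hRω, hRiω, smul_mul_smul_comm, hrc, one_smul]
    calc (1 + ft y ω) * tr Z ω * (tr X ω * (1 + ft x ω))
        = (1 + ft y ω) * (tr Z ω * tr X ω) * (1 + ft x ω) := by simp only [mul_assoc]
      _ = 1 := by rw [hZX, mul_one, hyx1]
  · intro ω
    rw [hRω, hRiω, smul_mul_smul_comm, mul_comm ((r⁻¹ : ℝ) : ℂ), hrc, one_smul]
    calc tr X ω * (1 + ft x ω) * ((1 + ft y ω) * tr Z ω)
        = tr X ω * ((1 + ft x ω) * (1 + ft y ω)) * tr Z ω := by simp only [mul_assoc]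
      _ = 1 := by rw [hxy1, mul_one, hXZ]
  · intro ω
    rw [hRω, star_smul, smul_mul_smul_comm, star_mul]
    have h1 : star (r : ℂ) * (r : ℂ) = (c : ℂ) := by
      rw [Complex.star_def, Complex.conj_ofReal, ← Complex.ofReal_mul, hrr]
    rw [h1]
    have h2 : star (tr Z ω) * star (1 + ft y ω) * ((1 + ft y ω) * tr Z ω) = 1 - K ω := by
      calc _ = star (tr Z ω) * (star (1 + ft y ω) * (1 + ft y ω)) * tr Z ω := by
            simp only [mul_assoc]
        _ = star (tr Z ω) * (star (tr X ω) * ((1 - K ω) * tr X ω)) * tr Z ω := by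
            rw [← hGf, hGeq]
        _ = (star (tr Z ω) * star (tr X ω)) * (1 - K ω) * (tr X ω * tr Z ω) := by
            simp only [mul_assoc]
        _ = _ := by
            rw [← star_mul, hXZ, star_one, one_mul, mul_one]
    rw [h2]
    simp only [hK]
    rw [sub_sub_cancel, smul_smul]
    have h3 : (c : ℂ) * ((c⁻¹ : ℝ) : ℂ) = 1 := by
      push_cast
      rw [mul_inv_cancel₀]
      exact_mod_cast hcpos.ne'
    rw [h3, one_smul]

end asm

end Pool.Agent.H667R2
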